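import Pool.Agent.Lib.MP_5c318e_ag.Ar.Wt
import Pool.Agent.Lib.MP_5c318e_ag.Np.NDefs
import Pool.Agent.Lib.MP_5c318e_ag.Tw.TDefs

/-! Bounded poles along the polar primes: the data and the spaces of forms. -/

set_option autoImplicit false
set_option linter.unusedSectionVars false

namespace Pool.Agent.Lib.MP_5c318e_ag

open MeasureTheory Set Filter Topology
open scoped ENNReal

noncomputable section

/-- finitely many conditions at prime divisors: `J` generates the top forms, `l` bounds the twist,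
`w` is the allowed pole -/
structure Cnd {K M ν : Type} [Field K] [Field M] [Algebra K M] [Fintype ν] [DecidableEq ν]
    (dx : ν → Derivation K M M) (I : Type) where
  O : I → ValuationSubring M
  J : I → M
  l : I → M
  w : I → M
  div : ∀ i, IsDivisorial K M (O i)
  J0 : ∀ i, J i ≠ 0
  l0 : ∀ i, l i ≠ 0
  w0 : ∀ i, w i ≠ 0
  wO : ∀ i, w i ∈ O i
  lO : ∀ i, (l i)⁻¹ ∈ O i
  adp : ∀ i (f : ν → M), (∀ j, f j ∈ O i) → Jac dx f / J i ∈ O i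

/-- forms of weight `k`, twist `a`, with poles `w ^ (-j)` -/
def Cnd.Sp {K M ν I : Type} [Field K] [Field M] [Algebra K M] [Fintype ν] [DecidableEq ν]
    {dx : ν → Derivation K M M} (c : Cnd dx I) (k a j : ℕ) (φ : M) : Prop :=
  ∀ i, φ * c.w i ^ j / (c.J i ^ k * c.l i ^ a) ∈ c.O i

variable {ν K M : Type} [Fintype ν] [DecidableEq ν] [Field K] [Algebra ℂ K] [Field M] [Algebra ℂ M]
  [Algebra K M] [IsScalarTower ℂ K M]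

instance Cht.isFrac {ι F : Type} [Fintype ι] [DecidableEq ι] [Field F] [Algebra ℂ F] (c : Cht ι F) :
    IsFractionRing c.O F :=
  IsFractionRing.of_field c.O F fun φ => by
    obtain ⟨a, b, hb, e⟩ := c.frac φ
    exact ⟨a, b, eq_div_of_mul_eq (fun h => hb (Subtype.ext h)) e⟩

namespace Dat

variable (d : Dat Unit K ν M)

/-- the density of the invariant measure -/
def rho (p : Pt d.T.X.O) : ℝ := d.Bs p ^ (1 / d.m : ℝ)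
/-- the first form -/
def τ0 : d.T.X.O := d.τ ⟨0, d.hr⟩
/-- the fibre coordinates -/
def fx (p : Pt d.T.X.O) : ν → ℂ := fun i => p (d.T.X.z (Sum.inr i))

/-- what does not depend on the vector field: tower, lists, projection -/
structure Geo where
  Δ : MvPolynomial ν d.B.O
  Λ : Pt d.B.O → (ν → ℂ) → ℝ
  Kc : ℝ
  Mc : ℕ
  tow : Tw.Tow (fun b : Pt d.B.O => (b.hom : d.B.O →+* ℂ)) d.B.siz Δ Λ Kc Mc
  dvd : d.T.finX.Δ ∣ Δ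
  Δu : IsUnit (MvPolynomial.eval₂ (d.T.inc : d.B.O →+* d.T.X.O) (fun i => d.T.X.z (Sum.inr i)) Δ)
  τu : IsUnit d.τ0
  na : ℕ
  nb : ℕ
  N : ℕ
  Npos : 0 < N
  ρ : Fin na → d.T.X.O
  r : Fin nb → d.T.X.O
  ρΛ : ∀ p : Pt d.T.X.O, Λ (p.res d.T.inc) (d.fx p) ^ N = ∑ a, ‖p (ρ a)‖ ^ 2
  ru : ∀ j, IsUnit (r j)
  one : ∀ p : Pt d.T.X.O, 1 ≤ ∑ x : Fin na × Fin nb, ‖p (ρ x.1 * r x.2)‖ ^ 2
  No : Noe K d.T.inc ν fun x : Fin na × Fin nb => ρ x.1 * r x.2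
  hu : IsUnit No.h
  j0 : ν
  U : No.Uni j0

namespace Geo

variable {d} (G : d.Geo)

/-- the tower density -/
def lam (p : Pt d.T.X.O) : ℝ := G.Λ (p.res d.T.inc) (d.fx p)
/-- the logarithmic size -/
def sz (p : Pt d.T.X.O) : ℝ :=
  Tw.sz (fun b : Pt d.B.O => (b.hom : d.B.O →+* ℂ)) d.B.siz G.Δ (p.res d.T.inc) (d.fx p)
/-- the weight of the twist -/
def ph (p : Pt d.T.X.O) : ℝ :=
  Real.log (∑ x : Fin G.na × Fin G.nb, ‖p (G.ρ x.1 * G.r x.2)‖ ^ 2)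
/-- the majorant -/
def Psi (p : Pt d.T.X.O) : ℝ := Real.log (G.lam p) - Real.log (d.Bs p) / d.m
/-- the generator of the top forms at a prime at infinity -/
def Jd (V : G.No.DD) : M :=
  Jac d.T.dx (Function.update (fun j => (G.No.l j : M) / G.No.l G.j0) G.j0 (G.U.π V))
/-- the weight of forms of weight `k` and twist `a` -/
def wt (k a : ℕ) (p : Pt d.T.X.O) : ℝ := a * G.ph p + k / d.m * Real.log (d.Bs p)

/-- the weight of the invariant measure -/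
def _root_.Pool.Agent.Lib.MP_5c318e_ag.Dat.chi (d : Dat Unit K ν M) (p : Pt d.T.X.O) : ℝ :=
  -(Real.log (d.Bs p) / d.m)
/-- the weight of the extension step -/
def om (k a : ℕ) (p : Pt d.T.X.O) : ℝ := Real.exp (a / k * G.ph p)
/-- the almost invariant function of a plurisubharmonic weight -/
def uu (w : Pt d.T.X.O → ℝ) (e1 A : ℝ) (p : Pt d.T.X.O) : ℝ :=
  w p - e1 * G.ph p - Real.log (d.Bs p) / d.m - A
/-- the integrable majorant -/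
def maj (A : ℝ) (p : Pt d.T.X.O) : ℝ := max 0 (G.Psi p + A * Real.log (G.sz p))

/-- what depends on the vector field: polar primes, visibility, domination, invariance -/
structure Pol where
  pol : G.No.DD → Prop
  np : ℕ
  c : Cnd d.T.dx (G.No.DD ⊕ Fin np)
  cO : ∀ V, c.O (Sum.inl V) = V.1
  cJ : ∀ V, c.J (Sum.inl V) = G.Jd V
  cl : ∀ V, c.l (Sum.inl V) = G.No.l G.j0
  cw : ∀ V, pol V → c.w (Sum.inl V) = G.U.π V
  cw' : ∀ V, ¬ pol V → c.w (Sum.inl V) = 1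
  cw'' : ∀ i, c.w (Sum.inr i) = 1
  cz : ∀ i a j, (G.ρ a * G.r j : d.T.X.O) / c.l i ∈ c.O i
  q : Pt d.T.X.O → ℝ
  qc : Continuous q
  q0 : ∀ p, 0 ≤ q p
  vis : ∀ V, pol V → ∃ Y n g : d.T.X.O, Y ≠ 0 ∧ n ≠ 0 ∧ (Y : M)⁻¹ ∈ V.1 ∧ (n : M) / Y ∈ V.1 ∧
    (g : M) / Y ^ 2 ∉ V.1 ∧ ∀ p : Pt d.T.X.O, ‖p g‖ ^ 2 ≤ (1 + ‖p Y‖ ^ 2 + ‖p n‖ ^ 2) ^ 2 * q p
  y : Pt d.T.X.O → ℝ
  y0 : ∀ p, 0 ≤ y p
  cd : ℕ
  dom : ∀ (k a j : ℕ) (φ : d.T.X.O), c.Sp k a j φ → ∃ g : d.B.O, g ≠ 0 ∧ ∀ b0 : Pt d.B.O, b0 g ≠ 0 →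
    ∃ C : ℝ, ∀ᶠ b in 𝓝 b0, ∀ p : d.T.Fib b,
      ‖p.1 φ‖ ^ 2 ≤ Real.exp (G.wt k a p.1 + cd * a * G.ph p.1 + C * y p.1 + C)
  al : Pt d.B.O → ℝ
  alm : Measurable al
  al0 : ∀ b, 0 ≤ al b
  s0 : Pt d.B.O → ℝ
  ali : ∃ η : ℝ, 0 < η ∧
    ∫⁻ b, ENNReal.ofReal (al b * Real.exp (η * s0 b)) ∂d.B.D.μ ≠ ⊤
  mom : ∃ c0 : ℝ, 0 < c0 ∧ ∃ C : ℝ, 0 ≤ C ∧ ∀ᵐ b ∂d.B.D.μ, d.B.siz b ≤ C * s0 b + C ∧ 0 ≤ s0 b ∧
    ∫⁻ p, ENNReal.ofReal (Real.exp (c0 * d.T.X.siz p.1) * d.rho p.1) ∂(d.T.fib b).μ ≤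
      ENNReal.ofReal (Real.exp (C * s0 b + C))
  E : ℝ≥0∞
  Et : E ≠ ⊤
  inv : ∀ δ : ℝ, 0 < δ → ∃ ε : ℝ, 0 < ε ∧ ∀ (w : Pt d.T.X.O → ℝ) (e1 A γ : ℝ), d.T.X.D.Psh w →
    0 ≤ e1 → e1 ≤ ε → 0 ≤ γ → γ ≤ 1 →
    (∃ g : d.B.O, g ≠ 0 ∧ ∀ b0 : Pt d.B.O, b0 g ≠ 0 → ∃ C : ℝ, ∀ᶠ b in 𝓝 b0, ∀ p : d.T.Fib b,
      G.uu w e1 A p.1 ≤ C * y p.1 + C) →
    (∃ C : ℝ, ∀ᵐ b ∂d.B.D.μ, ∫⁻ p, ENNReal.ofReal (G.uu w e1 A p.1 * d.rho p.1) ∂(d.T.fib b).μ ≤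
      ENNReal.ofReal (ε * s0 b + C)) →
    ∫⁻ p in {p | 0 ≤ G.uu w e1 A p}, ENNReal.ofReal (q p * d.rho p) ∂d.T.X.D.μ ≤
      E * ∫⁻ p, ENNReal.ofReal (Real.exp (γ * G.uu w e1 A p) * al (p.res d.T.inc) * d.rho p)
        ∂d.T.X.D.μ + ENNReal.ofReal δ

/-- the density that is read on the level set -/
def Pol.QQ {G : d.Geo} (P : G.Pol) (κ l1 : ℝ) (p : Pt d.T.X.O) : ℝ≥0∞ :=
  indicator {p | G.ph p < l1} (fun p => ENNReal.ofReal (P.q p * G.lam p * Real.exp (-(κ * G.ph p)))) p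

/-- OUTPUT: for a small twist the logarithmic pole along the polar primes is never attained -/
def Pol.Exc {G : d.Geo} (P : G.Pol) : Prop :=
  ∃ J0 C : ℕ, 0 < J0 ∧ ∀ j a : ℕ, C * a < j → ∀ φ : d.T.X.O,
    P.c.Sp (d.m * J0 * j) a (d.m * J0 * j) φ → P.c.Sp (d.m * J0 * j) a (d.m * J0 * j - 1) φ

end Geo

end Dat

end

end Pool.Agent.Lib.MP_5c318e_ag
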