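import Pool.Agent.Lib.MP_5c318e_ag.Sx.Gen

/-! The weight of the extension step is admissible for the invariance inequality. -/

set_option autoImplicit false
set_option linter.unusedSectionVars false

namespace Pool.Agent.Lib.MP_5c318e_ag

open MeasureTheory Set Filter Topology
open scoped ENNReal

variable {ν K M : Type} [Fintype ν] [DecidableEq ν] [Field K] [Algebra ℂ K] [Field M] [Algebra ℂ M]
  [Algebra K M] [IsScalarTower ℂ K M] {d : Dat Unit K ν M}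

namespace Dat.Geo

variable (G : d.Geo)

theorem adm_ph (p : Pt d.T.X.O) : 0 ≤ G.ph p := Real.log_nonneg (G.one p)

theorem wt_div {k : ℕ} (hk : 0 < k) (a : ℕ) (p : Pt d.T.X.O) :
    (1 - (1 - 1 / k : ℝ)) * G.wt k a p = a / k * G.ph p + Real.log (d.Bs p) / d.m := by
  have : (k : ℝ) ≠ 0 := by positivity
  rw [wt]
  field_simp
  ring

/-- the local bound by the boundary function -/
theorem Pol.loc {G : d.Geo} (P : G.Pol) {k a n : ℕ} (hk : 0 < k) {s : Fin n → d.T.X.O}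
    (hs : ∀ i, P.c.Sp k a k (s i)) (hi : LinearIndependent K fun i => (s i : M))
    {w : Pt d.T.X.O → ℝ}
    (h : ∀ b0 : Pt d.B.O, (∀ c : Fin n → ℂ, (∀ p : d.T.Fib b0, ∑ i, c i * p.1 (s i) = 0) → c = 0) →
      ∃ C : ℝ, ∀ᶠ b in 𝓝 b0, ∀ x : d.T.Fib b, w x.1 ≤ (1 - (1 - 1 / k : ℝ)) *
        Real.log (∑ i, ‖x.1 (s i)‖ ^ 2 + Real.exp (G.wt k a x.1)) + C) (A : ℝ) :
    ∃ g : d.B.O, g ≠ 0 ∧ ∀ b0 : Pt d.B.O, b0 g ≠ 0 → ∃ C : ℝ, ∀ᶠ b in 𝓝 b0, ∀ p : d.T.Fib b,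
      G.uu w ((1 + P.cd) * a / k) A p.1 ≤ C * P.y p.1 + C := by
  obtain ⟨g0, h0, hg0⟩ := gen_ind hi
  choose g hg H using fun i => P.dom k a k (s i) (hs i)
  refine ⟨g0 * ∏ i, g i, mul_ne_zero h0 (Finset.prod_ne_zero_iff.2 fun i _ => hg i),
    fun b0 hb => ?_⟩
  have hb' : b0.hom g0 * ∏ i, b0.hom (g i) ≠ 0 := by rwa [← map_prod, ← map_mul]
  obtain ⟨C0, hC0⟩ := h b0 (hg0 b0 (left_ne_zero_of_mul hb'))
  choose C hC using fun i =>
    H i b0 (Finset.prod_ne_zero_iff.1 (right_ne_zero_of_mul hb') i (Finset.mem_univ i))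
  set S := ∑ i, |C i| with hS
  have S0 : 0 ≤ S := Finset.sum_nonneg fun _ _ => abs_nonneg _
  have hn : 0 ≤ Real.log (n + 1) := Real.log_nonneg (by simp)
  refine ⟨S + Real.log (n + 1) + |C0| + |A|, ?_⟩
  filter_upwards [hC0, eventually_all.2 hC] with b h1 h2 p
  have y0 := P.y0 p.1
  have f0 := G.adm_ph p.1
  set X := G.wt k a p.1 + P.cd * a * G.ph p.1 + S * P.y p.1 + S with hX
  have h3 : ∑ i, ‖p.1 (s i)‖ ^ 2 + Real.exp (G.wt k a p.1) ≤ (n + 1) * Real.exp X := by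
    rw [add_mul, one_mul]
    refine add_le_add ((Finset.sum_le_card_nsmul _ _ (Real.exp X) fun i _ =>
      (h2 i p).trans (Real.exp_le_exp.2 ?_)).trans (by simp)) (Real.exp_le_exp.2 ?_)
    · have : C i ≤ S := (le_abs_self _).trans
        (Finset.single_le_sum (f := fun i => |C i|) (fun _ _ => abs_nonneg _) (Finset.mem_univ i))
      rw [hX]
      gcongr
    · have : 0 ≤ P.cd * a * G.ph p.1 + S * P.y p.1 + S := by positivity
      linarith
  have h4 := Real.log_le_log (by positivity) h3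
  rw [Real.log_mul (by positivity) (Real.exp_pos _).ne', Real.log_exp] at h4
  have k1 : (1 : ℝ) ≤ k := by exact_mod_cast hk
  have e0 : (1 - (1 - 1 / k : ℝ)) = 1 / k := by ring
  have t0 : (0 : ℝ) ≤ 1 / k := by positivity
  have t1 : (1 / k : ℝ) ≤ 1 := (div_le_one (by positivity)).2 k1
  have h5 := G.wt_div hk a p.1
  have h6 := (h1 p).trans (add_le_add_left (mul_le_mul_of_nonneg_left h4 (t0.trans e0.ge)) C0)
  rw [e0] at h5 h6
  have h7 : 1 / (k : ℝ) * (Real.log (n + 1) + S * P.y p.1 + S) ≤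
      Real.log (n + 1) + S * P.y p.1 + S := mul_le_of_le_one_left (by positivity) t1
  have h8 : 0 ≤ (Real.log (n + 1) + |C0| + |A|) * P.y p.1 := by positivity
  have e1 : (1 + P.cd) * a / k * G.ph p.1 = a / k * G.ph p.1 + 1 / k * (P.cd * a * G.ph p.1) := by
    ring
  rw [uu, e1]
  rw [hX] at h6
  nlinarith [le_abs_self C0, neg_abs_le A]

/-- the pointwise majorant -/
theorem uu_le {k a : ℕ} (hk : 0 < k) {w : Pt d.T.X.O → ℝ} {e1 A0 C0 η : ℝ} (he : a / k ≤ e1)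
    (hC : 1 ≤ C0) (hA : 0 ≤ A0) (hη : 0 ≤ η)
    (hw : ∀ x, w x ≤ max ((1 - (1 - 1 / k : ℝ)) * G.wt k a x)
      (Real.log (G.lam x) + A0 * Real.log (G.sz x) + A0 + a / k * G.ph x + η * d.T.X.siz x +
        Real.log C0 + 2) + 1) (A : ℝ) (p : Pt d.T.X.O) :
    G.uu w e1 A p ≤ G.maj A0 p + η * d.T.X.siz p + (A0 + Real.log C0 + 3 - A) := by
  have h := hw p
  have h1 := mul_le_mul_of_nonneg_right he (G.adm_ph p)
  have h2 := Real.log_nonneg hC
  have h3 := mul_nonneg hη (d.T.X.siz_nonneg p)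
  have h4 : 0 ≤ G.maj A0 p := le_max_left _ _
  have h5 : G.Psi p + A0 * Real.log (G.sz p) ≤ G.maj A0 p := le_max_right _ _
  rw [Psi] at h5
  rw [G.wt_div hk] at h
  rw [uu]
  rcases le_max_iff.1 (sub_le_iff_le_add.2 h) with h | h <;> linarith

end Dat.Geo

end Pool.Agent.Lib.MP_5c318e_ag
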