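import Pool.Agent.Lib.MP_5c318e_ag.Sx.SDefs
import Pool.Agent.Lib.MP_5c318e_ag.Np.MassA
import Pool.Agent.Lib.MP_5c318e_ag.Np.Noe
/-! The spaces of forms with bounded poles: algebra. -/
set_option autoImplicit false
set_option linter.unusedSectionVars false
namespace Pool.Agent.Lib.MP_5c318e_ag
open Set

namespace Cnd
variable {K M ν I : Type} [Field K] [Field M] [Algebra K M] [Fintype ν] [DecidableEq ν]
  {dx : ν → Derivation K M M} (c : Cnd dx I)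

/-- the space of forms as a subspace -/
def spc (k a j : ℕ) : Submodule K M where
  carrier := {φ | c.Sp k a j φ}
  zero_mem' := fun i => by simp
  add_mem' := fun {x y} hx hy i => by
    rw [add_mul, add_div]
    exact add_mem (hx i) (hy i)
  smul_mem' := fun r x hx i => by
    rw [Algebra.smul_def, mul_assoc, mul_div_assoc]
    exact mul_mem ((c.div i).const r) (hx i)

theorem mem_spc {k a j : ℕ} {φ : M} : φ ∈ c.spc k a j ↔ c.Sp k a j φ := Iff.rfl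

variable {c}

theorem Sp.mono_j {k a j j' : ℕ} (h : j ≤ j') {φ : M} (hφ : c.Sp k a j φ) : c.Sp k a j' φ := fun i => by
  rw [← Nat.add_sub_cancel' h, pow_add, ← mul_assoc, mul_div_right_comm]
  exact mul_mem (hφ i) (pow_mem (c.wO i) _)

theorem Sp.mono_a {k a a' j : ℕ} (h : a ≤ a') {φ : M} (hφ : c.Sp k a j φ) : c.Sp k a' j φ := fun i => by
  rw [← Nat.add_sub_cancel' h, pow_add, ← mul_assoc, ← div_div, div_eq_mul_inv _ (_ ^ (a' - a)),
    ← inv_pow]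
  exact mul_mem (hφ i) (pow_mem (c.lO i) _)

theorem Sp.mul' {k a j k' a' j' : ℕ} {φ ψ : M} (h : c.Sp k a j φ) (h' : c.Sp k' a' j' ψ) :
    c.Sp (k + k') (a + a') (j + j') (φ * ψ) := fun i => by
  convert mul_mem (h i) (h' i) using 1
  rw [div_mul_div_comm]
  ring

theorem Sp.pow' {k a j : ℕ} {φ : M} (h : c.Sp k a j φ) (n : ℕ) :
    c.Sp (k * n) (a * n) (j * n) (φ ^ n) := fun i => by
  convert pow_mem (h i) n using 1
  rw [div_pow]
  ring

theorem Sp.of_plu {m : ℕ} {φ : M} (h : Plu dx m φ) : c.Sp m 0 0 φ := fun i => by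
  obtain ⟨f, hf, u, hu, rfl⟩ := h _ (c.div i)
  rw [pow_zero, pow_zero, mul_one, mul_one, mul_div_assoc, ← div_pow]
  exact mul_mem hu (pow_mem (c.adp i f hf) _)

theorem Sp.val {k a j : ℕ} {φ : M} (h : c.Sp k a j φ) (i : I) :
    (c.O i).valuation φ * (c.O i).valuation (c.w i) ^ j ≤
      (c.O i).valuation (c.J i) ^ k * (c.O i).valuation (c.l i) ^ a := by
  have := ((c.O i).valuation_le_one_iff _).2 (h i)
  rw [map_div₀, div_le_one₀ ((Valuation.pos_iff _).2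
    (mul_ne_zero (pow_ne_zero _ (c.J0 i)) (pow_ne_zero _ (c.l0 i))))] at this
  simpa only [map_mul, map_pow] using this

end Cnd

variable {ν K M : Type} [Fintype ν] [DecidableEq ν] [Field K] [Algebra ℂ K] [Field M] [Algebra ℂ M]
  [Algebra K M] [IsScalarTower ℂ K M] {d : Dat Unit K ν M}

theorem Dat.plu_τ0 (d : Dat Unit K ν M) : Plu d.T.dx d.m (d.τ0 : M) :=
  (d.span _).2 (Submodule.subset_span ⟨_, rfl⟩)

namespace Dat.Geo

theorem Pol.sp_mono {G : d.Geo} (P : G.Pol) {k a j j' : ℕ} (h : j ≤ j') {φ : M}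
    (hφ : P.c.Sp k a j φ) : P.c.Sp k a j' φ := hφ.mono_j h

theorem Pol.sp_of_span {G : d.Geo} (P : G.Pol) {k a j : ℕ} {ι : Type} {s : ι → d.T.X.O}
    (hs : ∀ i, P.c.Sp k a j (s i)) {φ : M}
    (h : φ ∈ Submodule.span K (range fun i => (s i : M))) : P.c.Sp k a j φ :=
  (Submodule.span_le (p := P.c.spc k a j)).2 (range_subset_iff.2 hs) h

theorem Pol.sp_comb {G : d.Geo} (P : G.Pol) {k a j : ℕ} {ι : Type} [Fintype ι] {s : ι → d.T.X.O}
    (hs : ∀ i, P.c.Sp k a j (s i)) (c : ι → ℂ) :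
    P.c.Sp k a j ((∑ i, c i • s i : d.T.X.O) : M) := by
  refine P.sp_of_span hs ?_
  rw [AddSubmonoidClass.coe_finsetSum]
  refine Submodule.sum_mem _ fun i _ => ?_
  rw [Subalgebra.coe_smul, ← IsScalarTower.algebraMap_smul K]
  exact Submodule.smul_mem _ _ (Submodule.subset_span ⟨i, rfl⟩)

theorem Pol.sp_tau {G : d.Geo} (P : G.Pol) {k a j : ℕ} {φ : d.T.X.O} (h : P.c.Sp k a j φ) (i : ℕ) :
    P.c.Sp (k + d.m * i) a j ((φ * d.τ0 ^ i : d.T.X.O) : M) := by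
  simpa using h.mul' ((Cnd.Sp.of_plu (c := P.c) d.plu_τ0).pow' i)

theorem Pol.val_inl {G : d.Geo} (P : G.Pol) {k a j : ℕ} {φ : M} (h : P.c.Sp k a j φ) (V : G.No.DD) :
    φ * P.c.w (Sum.inl V) ^ j / (G.Jd V ^ k * (G.No.l G.j0 : M) ^ a) ∈ V.1 := by
  have := h (Sum.inl V)
  rwa [P.cO, P.cJ, P.cl] at this

theorem Pol.Jd_ne {G : d.Geo} (P : G.Pol) (V : G.No.DD) : G.Jd V ≠ 0 := P.cJ V ▸ P.c.J0 _

/-- `deg_g` from the inequality of orders `lc` -/
theorem Pol.deg_g_of {G : d.Geo} (P : G.Pol)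
    (lc : ∀ V : G.No.DD, ∃ a, G.ρ a ≠ 0 ∧ (G.Jd V / G.U.π V) ^ G.N / G.ρ a ∈ V.1)
    {k a : ℕ} {φ : d.T.X.O} (h : P.c.Sp k a k φ)
    (j : Fin G.nb) : G.No.Deg ((φ ^ G.N * G.r j ^ k : d.T.X.O) : M) (a * G.N + k) ∧
      (φ ≠ 0 → ∀ V, ¬ P.pol V → (G.N * k : ℤ) ≤
        G.U.od V ((φ ^ G.N * G.r j ^ k : d.T.X.O) : M) + (a * G.N + k : ℕ) * G.U.e V) := by
  have key : ∀ V : G.No.DD, V.1.valuation ((φ ^ G.N * G.r j ^ k : d.T.X.O) : M) *
      V.1.valuation (P.c.w (Sum.inl V)) ^ (G.N * k) ≤ V.1.valuation (G.U.π V) ^ (G.N * k) *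
        V.1.valuation (G.No.l G.j0 : M) ^ (a * G.N + k) := fun V => by
    obtain ⟨i, h0, h1⟩ := lc V
    have r0 : (G.ρ i : M) ≠ 0 := fun e => h0 (Subtype.ext e)
    have h2 := (V.1.valuation_le_one_iff _).2 (mul_mem (pow_mem (P.val_inl h V) G.N) (pow_mem h1 k))
    have h3 := (G.No.deg_z (i, j)).pow k V.1 V.2 G.j0
    have e : ((φ ^ G.N * G.r j ^ k : d.T.X.O) : M) * P.c.w (Sum.inl V) ^ (G.N * k) =
        ((φ * P.c.w (Sum.inl V) ^ k / (G.Jd V ^ k * (G.No.l G.j0 : M) ^ a)) ^ G.N *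
          ((G.Jd V / G.U.π V) ^ G.N / G.ρ i) ^ k) * (G.U.π V ^ (G.N * k) *
            ((G.No.l G.j0 : M) ^ (a * G.N) * ((G.ρ i * G.r j : d.T.X.O) : M) ^ k)) := by
      have := P.Jd_ne V
      have := G.No.ms_l_ne G.j0
      have := G.U.ms_ne V
      simp only [MulMemClass.coe_mul, SubmonoidClass.coe_pow, div_pow, mul_pow, ← pow_mul]
      field_simp
      ring
    rw [← map_pow, ← map_mul, e, map_mul]
    refine (mul_le_of_le_one_left zero_le h2).trans ?_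
    rw [map_mul, map_mul, map_pow, map_pow, pow_add]
    rw [one_mul] at h3
    gcongr
  refine ⟨fun V hV i => ?_, fun h0 V hV => ?_⟩
  · obtain ⟨γ, -, hγ⟩ := hV.val_l
    have h1 := key ⟨V, hV⟩
    simp only [hγ] at h1 ⊢
    by_cases hp : P.pol ⟨V, hV⟩
    · rw [P.cw _ hp, mul_comm] at h1
      exact le_of_mul_le_mul_left h1 (pow_pos (G.U.ms_pos ⟨V, hV⟩) _)
    · rw [P.cw' _ hp, map_one, one_pow, mul_one] at h1
      exact h1.trans (mul_le_of_le_one_left zero_le (pow_le_one₀ zero_le (G.U.ms_lt ⟨V, hV⟩).le))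
  · have g0 : ((φ ^ G.N * G.r j ^ k : d.T.X.O) : M) ≠ 0 := fun e =>
      mul_ne_zero (pow_ne_zero _ h0) (pow_ne_zero _ (G.ru j).ne_zero) (Subtype.ext e)
    have h1 := key V
    rw [P.cw' _ hV, map_one, one_pow, mul_one, G.U.val V _ g0, G.U.ms_val_l, ← zpow_natCast,
      ← zpow_natCast, ← zpow_mul, ← zpow_add₀ (G.U.ms_pos V).ne',
      zpow_le_zpow_iff_right_of_lt_one₀ (G.U.ms_pos V) (G.U.ms_lt V)] at h1
    push_cast at h1 ⊢
    linarith

end Dat.Geo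
end Pool.Agent.Lib.MP_5c318e_ag
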