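import Pool.Agent.Lib.MP_5c318e_ag.Sx.SDefs
import Pool.Agent.Lib.MP_5c318e_ag.X0.Defs
import Pool.Agent.Lib.MP_5c318e_ag.Xt.SubA
import Pool.Agent.Lib.MP_5c318e_ag.W.LP

/-! Elementary properties of the weights attached to a tower over a set-up. -/

set_option autoImplicit false
set_option linter.unusedSectionVars false

namespace Pool.Agent.Lib.MP_5c318e_ag

open MeasureTheory Set Filter Topology
open scoped ENNReal

variable {ν K M : Type} [Fintype ν] [DecidableEq ν] [Field K] [Algebra ℂ K] [Field M] [Algebra ℂ M]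
  [Algebra K M] [IsScalarTower ℂ K M] {d : Dat Unit K ν M}

/-- the logarithm of a positive sum of squares is plurisubharmonic on the fibres -/
theorem Rel.psh_fib {δ : Type} [Fintype δ] [DecidableEq δ] {B : Cht δ K} (T : Rel B ν M)
    (b : Pt B.O) {u : Pt T.X.O → ℝ} (h : T.X.Sos u) (h0 : ∀ p, 0 < u p) :
    (T.fib b).Psh fun p => Real.log (u p.1) := by
  obtain ⟨n, g, e⟩ := h
  have sm : (T.fib b).Sm fun p => u p.1 := by
    simp only [e]
    exact RD.sm_sum _ fun i _ => (T.fib_hol b (g i)).sm.normSq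
  refine ⟨sm.comp_at fun p => Real.contDiffAt_log.2 (h0 p.1).ne', fun p ξ => ?_⟩
  have := MP_9ff3e7_ag.F.levi_log_sos_nonneg Finset.univ
    (f := fun a z => ((T.fib b).sec p z).1 (g a))
    (fun a _ => (T.fib_hol b (g a)).ana p) le_rfl (by
      rw [add_zero, (T.fib b).sec_self, ← e]; exact h0 p.1) ξ
  simp only [add_zero, ← e] at this
  exact this

/-- every fibre has finite mass -/
theorem Dat.mass_fin {δ : Type} [Fintype δ] [DecidableEq δ] (d : Dat δ K ν M) (b : Pt d.B.O) :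
    ∫⁻ p, ENNReal.ofReal (d.Bs p.1 ^ (d.m : ℝ)⁻¹) ∂d.μ b ≠ ⊤ := by
  have m0 : (0 : ℝ) < d.m := by linarith [d.wt_m]
  refine ne_top_of_le_ne_top (ENNReal.sum_ne_top.2 fun i _ =>
    Dat.wt_fin (d := d) b (Pi.single i 1) : ∑ i, _ ≠ ⊤) ?_
  simp only [N.nN, single_dotProduct, one_mul]
  rw [← lintegral_finsetSum _ (f := fun i x => ‖d.f b x i‖ₑ ^ (2 / d.m : ℝ)) fun i _ =>
    (((measurable_pi_apply i).comp (d.bas_mf b)).enorm.pow_const _)]
  refine lintegral_mono fun p => (ENNReal.ofReal_le_ofReal (Dat.rpow_sum_le (fun _ => sq_nonneg _)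
    (inv_pos.2 m0) (inv_le_one_of_one_le₀ (by linarith [d.wt_m])))).trans ?_
  rw [ENNReal.ofReal_sum_of_nonneg fun _ _ => by positivity]
  refine Finset.sum_le_sum fun i _ => le_of_eq ?_
  rw [← Real.rpow_natCast, ← Real.rpow_mul (norm_nonneg _), ← ofReal_norm,
    ENNReal.ofReal_rpow_of_nonneg (norm_nonneg _) d.bas_p.le, div_eq_mul_inv]
  rfl

namespace Dat.Geo

variable (G : d.Geo)

include G in
theorem Bs_pos' (p : Pt d.T.X.O) : 0 < d.Bs p := Dat.Bs_pos (i0 := ⟨0, d.hr⟩) G.τu p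

theorem lam_pos (p : Pt d.T.X.O) : 0 < G.lam p :=
  G.tow.pos _ _ ((Xt.up_eq (T := d.T.toRel) p G.Δ).symm.trans_ne (G.Δu.map p).ne_zero)

theorem two_le_sz (p : Pt d.T.X.O) : 2 ≤ G.sz p := Xt.two_le_L (T := d.T.toRel) (Δ := G.Δ) p

theorem ph_nonneg (p : Pt d.T.X.O) : 0 ≤ G.ph p := Real.log_nonneg (G.one p)

theorem lam_pow (p : Pt d.T.X.O) : G.lam p ^ G.N = ∑ a, ‖p (G.ρ a)‖ ^ 2 := G.ρΛ p

theorem exp_ph' (p : Pt d.T.X.O) :
    Real.exp (G.ph p) = G.lam p ^ G.N * ∑ j, ‖p (G.r j)‖ ^ 2 := by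
  rw [ph, Real.exp_log (one_pos.trans_le (G.one p)), lam_pow]
  simp only [Fintype.sum_prod_type, map_mul, norm_mul, mul_pow, Finset.sum_mul_sum]

theorem cont_lam : Continuous G.lam := by
  have e : G.lam = fun p => (∑ a, ‖p (G.ρ a)‖ ^ 2) ^ (G.N : ℝ)⁻¹ := funext fun p => by
    rw [← lam_pow, Real.pow_rpow_inv_natCast (G.lam_pos p).le G.Npos.ne']
  rw [e]
  exact (Cht.sos_fin G.ρ).sm.cont.rpow_const fun _ => Or.inr (by positivity)

theorem sos_ph : d.T.X.Sos fun p => ∑ x : Fin G.na × Fin G.nb, ‖p (G.ρ x.1 * G.r x.2)‖ ^ 2 :=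
  Cht.sos_fin fun x : Fin G.na × Fin G.nb => G.ρ x.1 * G.r x.2

theorem psh_ph' : d.T.X.D.Psh G.ph := G.sos_ph.psh fun p => one_pos.trans_le (G.one p)

theorem cont_ph : Continuous G.ph := G.psh_ph'.1.cont

theorem cont_Psi : Continuous G.Psi :=
  (G.cont_lam.log fun p => (G.lam_pos p).ne').sub
    ((d.sos_Bs.sm.cont.log fun p => (G.Bs_pos' p).ne').div_const _)

theorem cont_sz : Continuous G.sz := by
  have e : G.sz = fun x => 2 + d.B.siz (x.res d.T.inc) +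
      Real.log (1 + ‖Xt.xc d.T.toRel x‖ + ‖x (Xt.up d.T.toRel G.Δ)‖⁻¹) :=
    funext fun x => Xt.L_eq (T := d.T.toRel) (Δ := G.Δ) x
  rw [e]
  refine (continuous_const.add (d.B.psh.1.cont.comp (Pt.continuous_res _))).add
    (Continuous.log ((continuous_const.add (continuous_pi fun j => Pt.continuous_apply _).norm).add
      ((Pt.continuous_apply _).norm.inv₀ fun x => norm_ne_zero_iff.2 (G.Δu.map x).ne_zero))
      fun x => by positivity)

include G in
theorem cont_rho : Continuous d.rho :=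
  d.sos_Bs.sm.cont.rpow_const fun p => Or.inl (G.Bs_pos' p).ne'

include G in
theorem exp_chi (p : Pt d.T.X.O) : Real.exp (-d.chi p) = d.rho p := by
  rw [chi, rho, neg_neg, Real.rpow_def_of_pos (G.Bs_pos' p), mul_one_div]

include G in
theorem rho_pos (p : Pt d.T.X.O) : 0 < d.rho p := G.exp_chi p ▸ Real.exp_pos _

theorem exp_Psi (p : Pt d.T.X.O) : Real.exp (G.Psi p) * d.rho p = G.lam p := by
  rw [← G.exp_chi, ← Real.exp_add, Psi, chi, neg_neg, sub_add_cancel, Real.exp_log (G.lam_pos p)]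

theorem psh_wt (k a : ℕ) : d.T.X.D.Psh (G.wt k a) :=
  RD.WP.psh_add (RD.WP.psh_mul G.psh_ph' a.cast_nonneg)
    (RD.WP.psh_mul (d.sos_Bs.psh G.Bs_pos') (by positivity))

theorem lp_om (k a : ℕ) : d.T.X.D.LP (G.om k a) :=
  RD.lp_exp (RD.WP.psh_mul G.psh_ph' (by positivity))

theorem Pol.lsc_QQ {G : d.Geo} (P : G.Pol) (κ l1 : ℝ) : LowerSemicontinuous (P.QQ κ l1) := by
  have c : Continuous fun p => ENNReal.ofReal (P.q p * G.lam p * Real.exp (-(κ * G.ph p))) :=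
    ENNReal.continuous_ofReal.comp ((P.qc.mul G.cont_lam).mul (G.cont_ph.const_mul κ).neg.rexp)
  have o : IsOpen {p | G.ph p < l1} := isOpen_lt G.cont_ph continuous_const
  intro p y hy
  by_cases hp : p ∈ {p | G.ph p < l1}
  · rw [Pol.QQ, indicator_of_mem hp] at hy
    filter_upwards [o.mem_nhds hp, c.continuousAt.eventually (lt_mem_nhds hy)] with q h1 h2
    rwa [Pol.QQ, indicator_of_mem (show q ∈ {p | G.ph p < l1} from h1)]
  · rw [Pol.QQ, indicator_of_notMem hp] at hy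
    exact absurd hy not_lt_zero

theorem psh_ph_fib (b : Pt d.B.O) : (d.T.fib b).Psh fun p => G.ph p.1 :=
  d.T.toRel.psh_fib b G.sos_ph fun p => one_pos.trans_le (G.one p)

include G in
theorem psh_logB_fib (b : Pt d.B.O) : (d.T.fib b).Psh fun p => Real.log (d.Bs p.1) :=
  d.T.toRel.psh_fib b d.sos_Bs G.Bs_pos'

include G in
theorem ms_fin (b : Pt d.B.O) : X0.ms (d.T.fib b) (fun p => d.chi p.1) univ ≠ ⊤ := by
  rw [X0.ms, withDensity_apply _ MeasurableSet.univ, Measure.restrict_univ]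
  simp only [G.exp_chi, rho, one_div]
  exact d.mass_fin b

/-- the data of X0 on a fibre -/
theorem x0dat (b : Pt d.B.O) {k : ℕ} (a : ℕ) {γ be : ℝ} (γ0 : 0 < γ) (γ1 : γ ≤ 1) (b0 : 0 < be)
    (hk : 1 + be ≤ k) :
    X0.Dat (d.T.fib b) (fun p => d.chi p.1) (fun p => G.wt k a p.1) k γ 0 be := by
  obtain ⟨C, -⟩ := d.T.cov b (d.cov b)
  have k0 : (0 : ℝ) < k := by linarith
  have m0 : (0 : ℝ) < d.m := by linarith [d.wt_m]
  have h1 := G.psh_ph_fib b
  have h2 := G.psh_logB_fib b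
  have e : (fun p : d.T.Fib b => d.chi p.1) = fun p => (-(d.m : ℝ)⁻¹) * Real.log (d.Bs p.1) :=
    funext fun p => by rw [chi]; ring
  have s1 : (d.T.fib b).Psh fun p => (a : ℝ) * G.ph p.1 := RD.WP.psh_mul h1 a.cast_nonneg
  have s2 : (d.T.fib b).Psh fun p => (k / d.m : ℝ) * Real.log (d.Bs p.1) :=
    RD.WP.psh_mul h2 (by positivity)
  refine ⟨⟨_, C.exh⟩, RD.WP.psh_add s1 s2, e ▸ (RD.sm_const _).mul h2.1, fun x ξ => ?_,
    G.ms_fin b, γ0, γ1, le_rfl, b0, by linarith⟩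
  have e1 : (d.T.fib b).levi (fun p => G.wt k a p.1) x ξ = _ := RD.levi_add s1.1 s2.1 x ξ
  rw [e1, e, RD.levi_cmul _ h2.1, RD.levi_cmul _ h2.1, add_div]
  have e2 : ∀ t : ℝ, k / d.m * t / k = (d.m : ℝ)⁻¹ * t := fun t => by field_simp
  rw [e2]
  linarith [div_nonneg (s1.2 x ξ) k0.le]

end Dat.Geo

end Pool.Agent.Lib.MP_5c318e_ag
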