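import Pool.Agent.Lib.MP_5c318e_ag.Sx.SDefs
import Pool.Agent.Lib.MP_5c318e_ag.Np.FiveC
import Pool.Agent.Lib.MP_5c318e_ag.Np.Nrm

/-! The primes at infinity are log canonical places of the tower density. -/

set_option autoImplicit false
set_option linter.unusedSectionVars false

namespace Pool.Agent.Lib.MP_5c318e_ag

open MeasureTheory Set Filter Topology

variable {ν K M : Type} [Fintype ν] [DecidableEq ν] [Field K] [Algebra ℂ K] [Field M] [Algebra ℂ M]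
  [Algebra K M] [IsScalarTower ℂ K M] {d : Dat Unit K ν M}

namespace Dat.Geo

variable (G : d.Geo)

/-- every prime at infinity is a log canonical place of the tower density -/
theorem lc (V : G.No.DD) : ∃ a, G.ρ a ≠ 0 ∧ (G.Jd V / G.U.π V) ^ G.N / G.ρ a ∈ V.1 := by
  have : CharZero K := charZero_of_injective_algebraMap (algebraMap ℂ K).injective
  obtain ⟨a, ha⟩ := d.T.five G.tow G.dvd G.Δu G.ru G.ρΛ G.No V.2 G.j0
  have J0 : (Jac d.T.dx fun j => (G.No.l j : M)) ≠ 0 := d.T.toRel.dual.isFr.jac_ne G.No.basis.1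
  have p0 : 0 < V.1.valuation (G.U.π V) := by simpa using (G.U.adp V).val_pos
  have l0 := zero_lt_one.trans (V.2.one_lt G.j0)
  have a0 : (G.ρ a : M) ≠ 0 := fun e => by
    rw [e, map_zero, mul_zero] at ha
    exact (pow_pos ((Valuation.pos_iff _).2 J0) G.N).not_ge ha
  refine ⟨a, fun e => a0 (congrArg _ e), ?_⟩
  rw [← V.1.valuation_le_one_iff, map_div₀, div_le_one₀ ((Valuation.pos_iff _).2 a0), map_pow,
    map_div₀]
  refine le_of_mul_le_mul_left (le_of_eq_of_le ?_ ha) (pow_pos l0 _)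
  rw [pow_mul, ← mul_pow, ← mul_div_assoc, Jd, ← G.U.val_jac V, mul_div_cancel_right₀ _ p0.ne']

/-- the projection is bounded by the weight of the twist -/
theorem log_L_le : ∃ C : ℝ, 0 ≤ C ∧ ∀ p, Real.log (1 + ‖G.No.L p‖) ≤ G.ph p / 2 + C := by
  obtain ⟨C, C0, hC⟩ := G.No.L_le
  refine ⟨Real.log (1 + C), Real.log_nonneg (by linarith), fun p => ?_⟩
  have h0 := G.one p
  have h1 : Real.exp (G.ph p / 2) ^ 2 =
      ∑ x : Fin G.na × Fin G.nb, ‖p (G.ρ x.1 * G.r x.2)‖ ^ 2 := by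
    rw [sq, ← Real.exp_add, add_halves, ph, Real.exp_log (by linarith)]
  have h2 : ‖fun x : Fin G.na × Fin G.nb => p (G.ρ x.1 * G.r x.2)‖ ≤ Real.exp (G.ph p / 2) :=
    (pi_norm_le_iff_of_nonneg (Real.exp_pos _).le).2 fun x =>
      (sq_le_sq₀ (norm_nonneg _) (Real.exp_pos _).le).1 (h1 ▸ Finset.single_le_sum
        (f := fun x : Fin G.na × Fin G.nb => ‖p (G.ρ x.1 * G.r x.2)‖ ^ 2)
        (fun _ _ => by positivity) (Finset.mem_univ x))
  have h3 : 1 ≤ Real.exp (G.ph p / 2) :=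
    Real.one_le_exp (div_nonneg (Real.log_nonneg h0) zero_le_two)
  rw [Real.log_le_iff_le_exp (by positivity), Real.exp_add, Real.exp_log (by linarith)]
  nlinarith [hC p, mul_le_mul_of_nonneg_left h2 C0]

/-- over compact sets the sizes are bounded by the weight of the twist -/
theorem sz_le_ph {Q : Set (Pt d.B.O)} (hQ : IsCompact Q) : ∃ A : ℝ, 0 ≤ A ∧
    ∀ p : Pt d.T.X.O, p.res d.T.inc ∈ Q →
      d.T.X.siz p ≤ A * (1 + G.ph p) ∧ G.sz p ≤ A * (1 + G.ph p) := by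
  obtain ⟨C, C0, hC⟩ := G.log_L_le
  obtain ⟨A, A0, hA⟩ := G.No.size_le G.Δu hQ fun b _ => (G.hu.map b).ne_zero
  refine ⟨A * (C + 1), by positivity, fun p hp => ?_⟩
  have h0 : 0 ≤ G.ph p := Real.log_nonneg (G.one p)
  have h1 : A * Real.log (1 + ‖G.No.L p‖) + A ≤ A * (C + 1) * (1 + G.ph p) := by
    rw [← mul_add_one, mul_assoc]
    exact mul_le_mul_of_nonneg_left (by nlinarith [hC p]) A0
  exact ⟨(hA p hp).1.trans h1, (hA p hp).2.trans h1⟩

theorem jac_le : ∃ n : ℕ, ∀ Q : Set (Pt d.B.O), IsCompact Q → ∃ C : ℝ, 0 < C ∧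
    ∀ p : Pt d.T.X.O, p.res d.T.inc ∈ Q →
      ‖p.ev (Jac d.T.dx fun j => (G.No.l j : M))‖ ^ 2 ≤
        C * (1 + ‖G.No.L p‖) ^ (2 * Fintype.card ν) * (1 + G.ph p) ^ n * G.lam p := by
  obtain ⟨C, c, C0, H⟩ := d.T.jac_noe G.tow G.dvd G.Δu G.ru G.ρΛ G.No
  refine ⟨c, fun Q hQ => ?_⟩
  obtain ⟨A, A0, hA⟩ := G.sz_le_ph hQ
  choose Z Z0 hZ using fun x => (G.No.deg_z x).grow hQ fun b _ => (G.hu.map b).ne_zero
  have S0 : 0 ≤ ∑ x, Z x := Finset.sum_nonneg fun x _ => Z0 x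
  refine ⟨C * (∑ x, Z x) ^ (2 * Fintype.card ν) * A ^ c + 1, by positivity, fun p hp => ?_⟩
  have h1 : ‖fun x : Fin G.na × Fin G.nb => p (G.ρ x.1 * G.r x.2)‖ ≤
      (∑ x, Z x) * (1 + ‖G.No.L p‖) :=
    (pi_norm_le_iff_of_nonneg (by positivity)).2 fun x => (hZ x p hp).trans (by
      rw [pow_one]
      exact mul_le_mul_of_nonneg_right
        (Finset.single_le_sum (fun x _ => Z0 x) (Finset.mem_univ x)) (by positivity))
  have h0 : 0 ≤ G.ph p := Real.log_nonneg (G.one p)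
  have h2 : 0 < G.lam p := G.tow.pos _ _ (Xt.up_eq p G.Δ ▸ (G.Δu.map p).ne_zero)
  have h3 : 2 ≤ G.sz p := Xt.two_le_L p
  calc _ ≤ C * ‖fun x : Fin G.na × Fin G.nb => p (G.ρ x.1 * G.r x.2)‖ ^ (2 * Fintype.card ν) *
        G.sz p ^ c * G.lam p := H p
    _ ≤ C * ((∑ x, Z x) * (1 + ‖G.No.L p‖)) ^ (2 * Fintype.card ν) *
        (A * (1 + G.ph p)) ^ c * G.lam p := by gcongr; exact (hA p hp).2
    _ = C * (∑ x, Z x) ^ (2 * Fintype.card ν) * A ^ c * (1 + ‖G.No.L p‖) ^ (2 * Fintype.card ν) *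
        (1 + G.ph p) ^ c * G.lam p := by rw [mul_pow, mul_pow]; ring
    _ ≤ _ := by gcongr; linarith

end Dat.Geo

end Pool.Agent.Lib.MP_5c318e_ag
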