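import Pool.Agent.Lib.MP_5c318e_ag.T6.Mom
import Pool.Agent.Lib.MP_5c318e_ag.Sx.Lc

/-! Comparison of sizes over compact sets of the base. -/

set_option autoImplicit false
set_option linter.unusedSectionVars false

namespace Pool.Agent.Lib.MP_5c318e_ag

open MeasureTheory Set Filter Topology

variable {ν K M : Type} [Fintype ν] [DecidableEq ν] [Field K] [Algebra ℂ K] [Field M] [Algebra ℂ M]
  [Algebra K M] [IsScalarTower ℂ K M] {d : Dat Unit K ν M}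

namespace Dat.Geo

variable (G : d.Geo)

theorem cmp : ∃ c1 C2 : ℝ, 0 < c1 ∧ 0 < C2 ∧ ∀ Q : Set (Pt d.B.O), IsCompact Q → ∃ C : ℝ, 0 ≤ C ∧
    ∀ p : Pt d.T.X.O, p.res d.T.inc ∈ Q →
      |G.ph p - 2 * Real.log (1 + ‖G.No.L p‖)| ≤ C ∧ c1 * G.ph p - C ≤ G.Psi p ∧
      G.Psi p ≤ C2 * G.ph p + C ∧ G.sz p ≤ C2 * G.ph p + C ∧
      Real.log (d.Bs p) - Real.log (‖p d.τ0‖ ^ 2) ≤ C2 * G.ph p + C := by
  have := T6.normal d.B
  have s0 := d.T.X.siz_nonneg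
  obtain ⟨c, C1, c0, C10, h1⟩ := T6.psi_ge G G.lc
  obtain ⟨A, A0, h2⟩ := T6.siz_le G
  obtain ⟨B1, b1, h3⟩ := Xt.L_le (T := d.T.toRel) (Δ := G.Δ) G.Δu
  obtain ⟨L, L1, h4⟩ := T6.L_exp G
  obtain ⟨u, hu⟩ := G.τu.exists_right_inv
  have sq : ∀ a : d.T.X.O, Md d.T.X.siz fun p => ‖p a‖ ^ 2 := fun a =>
    (d.T.X.md a).pow s0 (fun _ => norm_nonneg _) 2
  obtain ⟨B2, b2, h5⟩ := sq u
  obtain ⟨B3, b3, h6⟩ := Md.sum s0 Finset.univ fun i _ => sq (d.τ i)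
  obtain ⟨B4, b4, h7⟩ := Md.sum s0 Finset.univ fun a _ => sq (G.ρ a)
  set B := B1 + B2 + B3 + B4 with hB
  have B0 : 0 ≤ B := by positivity
  refine ⟨c, B * A + 1, c0, by positivity, fun Q hQ => ?_⟩
  obtain ⟨s, hs⟩ := hQ.bddAbove_image d.B.psh.1.cont.continuousOn
  choose Z Z0 hZ using fun x : Fin G.na × Fin G.nb => (G.No.deg_z x).grow hQ
    fun b _ => (G.hu.map b.hom).ne_zero
  have z1 : 0 ≤ Real.log (1 + ∑ x, Z x ^ 2) :=
    Real.log_nonneg (le_add_of_nonneg_right (by positivity))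
  have l0 := Real.log_nonneg L1
  refine ⟨Real.log (1 + ∑ x, Z x ^ 2) + 2 * Real.log L + (C1 * |s| + C1) + (B * (A * |s| + A) + B),
    by positivity, fun p hp => ?_⟩
  have k0 : d.B.siz (p.res d.T.inc) ≤ |s| := (hs ⟨_, hp, rfl⟩).trans (le_abs_self s)
  have p0 := T6.ph0 G p
  have x0 := s0 p
  have k1 : B * d.T.X.siz p + B ≤ (B * A + 1) * G.ph p + (B * (A * |s| + A) + B) := by
    nlinarith [mul_le_mul_of_nonneg_left ((h2 p).trans (add_le_add_left (mul_le_mul_of_nonneg_left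
      (add_le_add_right k0 _) A0) _)) B0]
  have k2 : 0 ≤ C1 * |s| + C1 := by positivity
  have k3 : 0 ≤ B * (A * |s| + A) + B := by positivity
  have t0 : 0 < ‖p d.τ0‖ ^ 2 := pow_pos (norm_pos_iff.2 (G.τu.map p.hom).ne_zero) 2
  have k4 : -Real.log (‖p d.τ0‖ ^ 2) ≤ B2 * d.T.X.siz p + B2 := by
    rw [← Real.log_inv, Real.log_le_iff_le_exp (inv_pos.2 t0), ← inv_pow, ← Xt.norm_inv p hu]
    exact h5 p
  have k5 := Real.log_le_log t0 (d.le_Bs ⟨0, d.hr⟩ p)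
  have k6 : Real.log (d.Bs p) ≤ _ :=
    (Real.log_le_iff_le_exp (t0.trans_le (d.le_Bs ⟨0, d.hr⟩ p))).2 (h6 p)
  have k7 : G.N * Real.log (G.lam p) ≤ B4 * d.T.X.siz p + B4 := by
    rw [← Real.log_pow, Real.log_le_iff_le_exp (pow_pos (T6.lam0 G p) _), lam, G.ρΛ]
    exact h7 p
  have N1 : (1 : ℝ) ≤ G.N := by exact_mod_cast G.Npos
  have q : ∀ {b : ℝ}, 0 ≤ b → 0 ≤ b * d.T.X.siz p + b := fun h => by positivity
  have k8 : Real.log (G.lam p) ≤ B4 * d.T.X.siz p + B4 := by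
    by_contra! h
    nlinarith [q b4]
  have k9 : -(Real.log (d.Bs p) / d.m) ≤ B2 * d.T.X.siz p + B2 := by
    rw [← neg_div, div_le_iff₀ (by linarith [d.wt_m])]
    nlinarith [q b2, d.wt_m]
  have L0 : 0 < 1 + ‖G.No.L p‖ := by positivity
  have k10 := Real.log_le_log L0 (h4 p)
  rw [Real.log_mul (by positivity) (by positivity), Real.log_exp] at k10
  have k11 : G.ph p ≤ Real.log (1 + ∑ x, Z x ^ 2) + 2 * Real.log (1 + ‖G.No.L p‖) := by
    rw [show (2 : ℝ) = (2 : ℕ) from rfl, ← Real.log_pow, ← Real.log_mul (by positivity) (by positivity)]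
    refine Real.log_le_log (one_pos.trans_le (G.one p)) ?_
    rw [add_mul, Finset.sum_mul]
    refine le_add_of_nonneg_of_le (by positivity) (Finset.sum_le_sum fun x _ => ?_)
    rw [← mul_pow]
    simpa only [pow_one] using pow_le_pow_left₀ (norm_nonneg _) (hZ x p hp) 2
  have k12 : G.sz p ≤ _ := h3 p
  have k13 := h1 p
  have := mul_le_mul_of_nonneg_left k0 C10
  have := q b1
  have := q b2
  have := q b3
  have := q b4
  have e : B * d.T.X.siz p + B = B1 * d.T.X.siz p + B1 + (B2 * d.T.X.siz p + B2) +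
    (B3 * d.T.X.siz p + B3) + (B4 * d.T.X.siz p + B4) := by rw [hB]; ring
  refine ⟨abs_le.2 ⟨by linarith, by linarith⟩, by linarith, ?_, by linarith, by linarith⟩
  rw [Psi]
  linarith

end Dat.Geo

end Pool.Agent.Lib.MP_5c318e_ag
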