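import Pool.Agent.Lib.MP_5c318e_ag.Sx.Sat
import Pool.Agent.Lib.MP_5c318e_ag.Xt.Sub

/-! The data of the extension step on the total space. -/

set_option autoImplicit false
set_option linter.unusedSectionVars false

namespace Pool.Agent.Lib.MP_5c318e_ag

open MeasureTheory Set Filter Topology
open scoped ENNReal

variable {ν K M : Type} [Fintype ν] [DecidableEq ν] [Field K] [Algebra ℂ K] [Field M] [Algebra ℂ M]
  [Algebra K M] [IsScalarTower ℂ K M] {d : Dat Unit K ν M}

namespace Dat.Geo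

/-- the data of the extension step; the constant `A0` is free of `k`, `a`, `s` -/
theorem Pol.exists_data {G : d.Geo} (P : G.Pol) : ∃ A0 : ℝ, 0 ≤ A0 ∧ ∀ k a : ℕ, 2 ≤ k → a ≤ k →
    ∀ (n : ℕ) (s : Fin n → d.T.X.O), (∀ i, P.c.Sp k a k (s i)) →
    (∀ φ : d.T.X.O, P.c.Sp k a k φ → (φ : M) ∈ Submodule.span K (range fun i => (s i : M))) →
    ∃ D : Xt.Data d.T.toRel (Fin n), D.t = 1 - 1 / k ∧ D.om = G.om k a ∧
      (D.s = fun i p => p (s i)) ∧ D.φ = d.T.X.siz ∧ D.φB = d.B.siz ∧
      ∀ p, D.Ψ p = Real.log (G.lam p) + A0 * Real.log (G.sz p) + A0 + a / k * G.ph p := by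
  obtain ⟨A, C, n0, A0, C1, hz, hsub⟩ := Xt.sub_tow d.T G.tow G.dvd G.Δu G.ru
  have z0 : ∀ p : Pt d.T.X.O, 0 < ∑ x : Fin G.na × Fin G.nb, ‖p (G.ρ x.1 * G.r x.2)‖ ^ 2 :=
    fun p => one_pos.trans_le (G.one p)
  have eph : ∀ p, Real.exp (G.ph p) = G.lam p ^ G.N * ∑ j, ‖p (G.r j)‖ ^ 2 := fun p => by
    rw [ph, Real.exp_log (z0 p), lam, G.ρΛ, Finset.sum_mul_sum, Fintype.sum_prod_type]
    simp only [map_mul, norm_mul, mul_pow]
  have l0 : ∀ p, 0 < G.lam p := fun p => G.tow.pos _ _
    ((Xt.up_eq p G.Δ).symm.trans_ne (G.Δu.map p.hom).ne_zero)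
  have psh : d.T.X.D.Psh G.ph := (Cht.sos_fin _).psh z0
  set c := 16 * C ^ G.N with hc
  have c1 : 1 ≤ c := by linarith [one_le_pow₀ (n := G.N) C1]
  have lc := Real.log_nonneg c1
  have lC := Real.log_nonneg C1
  refine ⟨n0 + Real.log C + Real.log c, by positivity, fun k a hk ha n s hs hsp => ?_⟩
  have k2 : (2 : ℝ) ≤ k := by exact_mod_cast hk
  have e0 : (0 : ℝ) ≤ a / k := by positivity
  have e1 : (a / k : ℝ) ≤ 1 := div_le_one_of_le₀ (by exact_mod_cast ha) (by positivity)
  have t0 : (0 : ℝ) < 1 / k := by positivity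
  have t1 : (1 / k : ℝ) < 1 := (div_lt_one (by linarith)).2 (by linarith)
  have lp : d.T.X.D.LP (G.om k a) := RD.lp_exp (RD.WP.psh_mul psh e0)
  refine ⟨
    { t := 1 - 1 / k
      om := G.om k a
      s := fun i p => p (s i)
      φ := d.T.X.siz
      φB := d.B.siz
      Ψ := fun p => Real.log (G.lam p) + (n0 + Real.log C + Real.log c) * Real.log (G.sz p) +
        (n0 + Real.log C + Real.log c) + a / k * G.ph p
      A := A
      t0 := by linarith
      t1 := by linarith
      exB := ⟨_, d.B.exh⟩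
      exX := ⟨_, d.T.X.exh⟩
      lp := lp
      hol := fun i => d.T.X.hol _
      φ0 := d.T.X.siz_nonneg
      φB0 := d.B.siz_nonneg
      mB := d.B.psh.1.cont.measurable
      A0 := A0
      vol := Xt.vol_fin d.T.finB
      sat := P.sat' (by omega) (Nat.mul_le_mul_right _ (Nat.sub_le _ _)) hs hsp
      siz := hz
      sub := fun x => ?_ }, rfl, rfl, rfl, rfl, rfl, fun _ => rfl⟩
  · obtain ⟨r, σ, r1, r2, s1, s2, s3, s4⟩ := hsub x
    refine ⟨r, σ, r1, r2, s1, s2, s3, fun y hy => ⟨(s4 y hy).1, (s4 y hy).2.1, fun f hf => ?_⟩⟩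
    refine ((s4 y hy).2.2 _ (by linarith) (G.om k a) (G.om k a x * c) lp.measurable
      (mul_pos (Real.exp_pos _) (by linarith)) (fun z h1 h2 => ?_) f hf).trans
      (mul_le_mul_left (ENNReal.ofReal_le_ofReal ?_) _)
    · have h3 : Real.exp (G.ph z) ≤ Real.exp (G.ph x + Real.log c) := by
        rw [Real.exp_add, Real.exp_log (by linarith), eph, eph]
        calc _ ≤ (C * G.lam x) ^ G.N * ∑ j, (4 * ‖x (G.r j)‖) ^ 2 := by
              have := (l0 z).le
              have := (l0 x).le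
              gcongr with j
              exacts [h2, (h1 j).1]
          _ = _ := by
              simp only [mul_pow, ← Finset.mul_sum, hc]
              ring
      rw [om, om, ← Real.exp_log (show 0 < c by linarith), ← Real.exp_add, Real.exp_le_exp]
      nlinarith [mul_le_mul_of_nonneg_left (Real.exp_le_exp.1 h3) e0]
    · have s2 : 2 ≤ G.sz x := Xt.two_le_L (T := d.T.toRel) x
      have ls := Real.log_nonneg (show 1 ≤ G.sz x by linarith)
      have := l0 x
      change C * G.sz x ^ n0 * G.lam x * (Real.exp _ * c) ≤ _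
      rw [← Real.log_le_iff_le_exp (by positivity), Real.log_mul (by positivity) (by positivity),
        Real.log_mul (by positivity) (by positivity), Real.log_mul (by positivity) (by positivity),
        Real.log_mul (by positivity) (by positivity), Real.log_pow, Real.log_exp]
      nlinarith [mul_nonneg (add_nonneg lC lc) ls, Nat.cast_nonneg (α := ℝ) n0]

end Dat.Geo

end Pool.Agent.Lib.MP_5c318e_ag
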