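import Pool.Agent.Lib.MP_5c318e_ag.Sx.Alg
import Pool.Agent.Lib.MP_5c318e_ag.Sx.Lc
/-! The degree of the normalised power of a form with logarithmic poles. -/
set_option autoImplicit false
namespace Pool.Agent.Lib.MP_5c318e_ag

variable {ν K M : Type} [Fintype ν] [DecidableEq ν] [Field K] [Algebra ℂ K] [Field M] [Algebra ℂ M]
  [Algebra K M] [IsScalarTower ℂ K M] {d : Dat Unit K ν M}

theorem Dat.Geo.Pol.deg_g {G : d.Geo} (P : G.Pol) {k a : ℕ} {φ : d.T.X.O} (h : P.c.Sp k a k φ)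
    (j : Fin G.nb) : G.No.Deg ((φ ^ G.N * G.r j ^ k : d.T.X.O) : M) (a * G.N + k) ∧
      (φ ≠ 0 → ∀ V, ¬ P.pol V → (G.N * k : ℤ) ≤
        G.U.od V ((φ ^ G.N * G.r j ^ k : d.T.X.O) : M) + (a * G.N + k : ℕ) * G.U.e V) :=
  P.deg_g_of G.lc h j

end Pool.Agent.Lib.MP_5c318e_ag
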