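import Mathlib
/-! From bounds on level sets to a bound with an exponential weight. -/
set_option autoImplicit false
set_option linter.unusedVariables false
namespace Pool.Agent.Lib.MP_5c318e_ag
open MeasureTheory Set Filter Topology
open scoped ENNReal
namespace Dat.Geo

theorem star {S : Type} [MeasurableSpace S] (μ : Measure S) {u f g : S → ℝ} (hu : Measurable u)
    (hf : Measurable f) (hg : Measurable g) (f0 : ∀ x, 0 ≤ f x) (g0 : ∀ x, 0 ≤ g x)
    {γ γ' A : ℝ} (γ0 : 0 ≤ γ) (hγ : γ < γ') {E δ : ℝ≥0∞} (n : ℕ)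
    (h : ∀ i : ℕ, i ≤ n → ∫⁻ x in {x | 0 ≤ u x - (i - A)}, ENNReal.ofReal (f x) ∂μ ≤
      E * ∫⁻ x, ENNReal.ofReal (Real.exp (γ' * (u x - (i - A))) * g x) ∂μ + δ) :
    ∫⁻ x in {x | -A ≤ u x}, ENNReal.ofReal (Real.exp (γ * min (u x) (n - A)) * f x) ∂μ ≤
      ENNReal.ofReal (Real.exp (γ + (γ' - γ) * A) / (1 - Real.exp (γ - γ'))) * E *
        ∫⁻ x, ENNReal.ofReal (Real.exp (γ' * u x) * g x) ∂μ +
      ENNReal.ofReal ((n + 1) * Real.exp (γ * (n + 1 - A))) * δ := by
  have ms : ∀ i : ℕ, MeasurableSet {x | 0 ≤ u x - (i - A)} := fun i =>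
    measurableSet_le measurable_const (hu.sub_const _)
  set I := ∫⁻ x, ENNReal.ofReal (Real.exp (γ' * u x) * g x) ∂μ with hI
  have e1 : ∀ i : ℕ, ∫⁻ x, ENNReal.ofReal (Real.exp (γ' * (u x - (i - A))) * g x) ∂μ =
      ENNReal.ofReal (Real.exp (-(γ' * (i - A)))) * I := fun i => by
    rw [hI, ← lintegral_const_mul' _ _ ENNReal.ofReal_ne_top]
    refine lintegral_congr fun x => ?_
    rw [← ENNReal.ofReal_mul (Real.exp_pos _).le, ← mul_assoc, ← Real.exp_add]
    congr 3; ring
  calc _ ≤ ∫⁻ x, ∑ i ∈ Finset.range (n + 1), ENNReal.ofReal (Real.exp (γ * (i + 1 - A))) *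
          {x | 0 ≤ u x - (i - A)}.indicator (fun x => ENNReal.ofReal (f x)) x ∂μ := by
        rw [← lintegral_indicator (measurableSet_le measurable_const hu)]
        refine lintegral_mono fun x => ?_
        by_cases hx : x ∈ {x | -A ≤ u x}
        · rw [indicator_of_mem hx]
          have x0 : 0 ≤ u x + A := by linarith [show -A ≤ u x from hx]
          have k1 : ((min ⌊u x + A⌋₊ n : ℕ) : ℝ) ≤ u x + A :=
            (Nat.cast_le.2 (min_le_left _ _)).trans (Nat.floor_le x0)
          have k2 : min (u x) (n - A) ≤ ((min ⌊u x + A⌋₊ n : ℕ) : ℝ) + 1 - A := by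
            rcases min_cases ⌊u x + A⌋₊ n with k | k <;> rw [k.1]
            · linarith [min_le_left (u x) (n - A), Nat.lt_floor_add_one (u x + A)]
            · linarith [min_le_right (u x) (n - A)]
          refine le_trans ?_ (Finset.single_le_sum (f := fun i : ℕ =>
            ENNReal.ofReal (Real.exp (γ * (i + 1 - A))) *
              {x | 0 ≤ u x - (i - A)}.indicator (fun x => ENNReal.ofReal (f x)) x)
            (fun _ _ => zero_le) (Finset.mem_range.2 (Nat.lt_succ_of_le
              (min_le_right ⌊u x + A⌋₊ n))))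
          rw [indicator_of_mem (show x ∈ {x | 0 ≤ u x - (_ - A)} by
            change 0 ≤ u x - (_ - A); linarith), ← ENNReal.ofReal_mul (Real.exp_pos _).le]
          exact ENNReal.ofReal_le_ofReal (mul_le_mul_of_nonneg_right
            (Real.exp_le_exp.2 (mul_le_mul_of_nonneg_left k2 γ0)) (f0 x))
        · rw [indicator_of_notMem hx]; exact zero_le
    _ = ∑ i ∈ Finset.range (n + 1), ENNReal.ofReal (Real.exp (γ * (i + 1 - A))) *
          ∫⁻ x in {x | 0 ≤ u x - (i - A)}, ENNReal.ofReal (f x) ∂μ := by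
        rw [lintegral_finsetSum _ fun i _ => (hf.ennreal_ofReal.indicator (ms i)).const_mul _]
        refine Finset.sum_congr rfl fun i _ => ?_
        rw [lintegral_const_mul' _ _ ENNReal.ofReal_ne_top, lintegral_indicator (ms i)]
    _ ≤ ∑ i ∈ Finset.range (n + 1), (ENNReal.ofReal (Real.exp (γ + (γ' - γ) * A) *
          Real.exp (γ - γ') ^ i) * (E * I) + ENNReal.ofReal (Real.exp (γ * (n + 1 - A))) * δ) := by
        refine Finset.sum_le_sum fun i hi => ?_
        have hi' : i ≤ n := Nat.lt_succ_iff.1 (Finset.mem_range.1 hi)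
        refine (mul_le_mul_right (h i hi') _).trans ?_
        rw [mul_add, e1, mul_left_comm E, ← mul_assoc, ← ENNReal.ofReal_mul (Real.exp_pos _).le,
          ← Real.exp_nat_mul, ← Real.exp_add, ← Real.exp_add]
        refine add_le_add (le_of_eq ?_) (mul_le_mul_left (ENNReal.ofReal_le_ofReal
          (Real.exp_le_exp.2 (mul_le_mul_of_nonneg_left ?_ γ0))) _)
        · congr 3; ring
        · linarith [(Nat.cast_le (α := ℝ)).2 hi']
    _ ≤ _ := by
        have q0 := (Real.exp_pos (γ - γ')).le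
        have q1 : Real.exp (γ - γ') < 1 := Real.exp_lt_one_iff.2 (by linarith)
        rw [Finset.sum_add_distrib, ← Finset.sum_mul, Finset.sum_const, Finset.card_range,
          ← ENNReal.ofReal_sum_of_nonneg fun i _ => by positivity, mul_assoc, nsmul_eq_mul,
          ← mul_assoc (_ : ℝ≥0∞) _ δ, ENNReal.ofReal_mul (by positivity : (0 : ℝ) ≤ n + 1)]
        refine add_le_add (mul_le_mul_left (ENNReal.ofReal_le_ofReal ?_) _) (le_of_eq ?_)
        · rw [← Finset.mul_sum, div_eq_mul_inv]
          exact mul_le_mul_of_nonneg_left ((summable_geometric_of_lt_one q0 q1).sum_le_tsum _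
            (fun i _ => by positivity) |>.trans_eq (tsum_geometric_of_lt_one q0 q1))
            (Real.exp_pos _).le
        · rw [← Nat.cast_succ, ENNReal.ofReal_natCast]

end Dat.Geo
end Pool.Agent.Lib.MP_5c318e_ag
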