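import Pool.Agent.Lib.MP_5c318e_ag.Sx.SDefs
import Pool.Agent.Lib.MP_5c318e_ag.Mm.Mom
import Pool.Agent.Lib.MP_5c318e_ag.Xt.SubA
import Pool.Agent.Lib.MP_5c318e_ag.S.CFub

/-! Global tails of the integrable majorant. -/

set_option autoImplicit false
set_option linter.unusedSectionVars false

namespace Pool.Agent.Lib.MP_5c318e_ag

open MeasureTheory Set Filter Topology
open scoped ENNReal

namespace Mm

/-- a small exponential moment grows slowly -/
theorem exp_small {S : Type} [MeasurableSpace S] {μ : Measure S} {X ρ : S → ℝ} {C0 θ a : ℝ}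
    (mX : Measurable X) (mρ : Measurable ρ) (r0 : ∀ x, 0 ≤ ρ x) (hC : 0 ≤ C0) (θ0 : 0 ≤ θ)
    (θ1 : θ ≤ 1) (h1 : ∫⁻ x, ENNReal.ofReal (ρ x) ∂μ ≤ ENNReal.ofReal C0)
    (h2 : ∫⁻ x, ENNReal.ofReal (Real.exp (X x) * ρ x) ∂μ ≤ ENNReal.ofReal (Real.exp a)) :
    ∫⁻ x, ENNReal.ofReal (Real.exp (θ * X x) * ρ x) ∂μ ≤
      ENNReal.ofReal (Real.exp (θ * a) * (C0 + 1)) := by
  refine (lint_two (g := fun x => Real.exp (X x) * ρ x) mρ (mX.exp.mul mρ) (a := Real.exp (θ * a))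
    (b := Real.exp (θ * a - a)) (Real.exp_pos _).le (Real.exp_pos _).le hC (Real.exp_pos _).le h1 h2
    fun x => ?_).trans (le_of_eq ?_)
  · rw [← mul_assoc, ← Real.exp_add, ← add_mul]
    refine mul_le_mul_of_nonneg_right ?_ (r0 x)
    rcases le_total (X x) a with h | h
    · exact (Real.exp_le_exp.2 (by gcongr)).trans (le_add_of_nonneg_right (Real.exp_pos _).le)
    · exact (Real.exp_le_exp.2 (by nlinarith)).trans (le_add_of_nonneg_left (Real.exp_pos _).le)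
  · rw [← Real.exp_add, sub_add_cancel, mul_add, mul_one]

/-- the tail of the majorant together with a small exponential moment -/
theorem tail_pure (M : ℕ) {γ α A c0 C e C0 K : ℝ} (γ0 : 0 < γ) (γ1 : γ < 1) (hA : 0 ≤ A)
    (hc : 0 < c0) (hC : 0 ≤ C) (he : 0 < e) (h0 : 0 ≤ C0) (hK : 0 ≤ K) :
    ∃ η : ℝ, 0 < η ∧ ∃ C' : ℝ, 0 ≤ C' ∧
    ∀ {S : Type} [MeasurableSpace S] {μ : Measure S} {L Λ ρ σ : S → ℝ} {s : ℝ},
    Tri μ L Λ ρ M C0 K → Measurable σ → (∀ x, 0 ≤ σ x) → (∀ x, L x ≤ A * σ x + A) → 0 ≤ s →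
    ∫⁻ x, ENNReal.ofReal (Real.exp (c0 * σ x) * ρ x) ∂μ ≤ ENNReal.ofReal (Real.exp (C * s + C)) →
    ∫⁻ x, ENNReal.ofReal (Real.exp (γ * max 0 (Real.log (Λ x) - Real.log (ρ x) +
      α * Real.log (L x)) + η * σ x) * ρ x) ∂μ ≤ ENNReal.ofReal (C' * Real.exp (e * s)) := by
  obtain ⟨q, hq⟩ := exists_nat_ge ((M * γ + γ * α) / (1 - γ))
  rw [div_le_iff₀ (by linarith)] at hq
  obtain ⟨θ, θ0, θ1, θe⟩ : ∃ θ : ℝ, 0 < θ ∧ θ ≤ 1 ∧ θ * C ≤ e :=
    ⟨min 1 (e / (C + 1)), by positivity, min_le_left _ _, by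
      have := (le_div_iff₀ (by positivity)).1 (min_le_right 1 (e / (C + 1)))
      nlinarith [show 0 < min 1 (e / (C + 1)) by positivity]⟩
  set t := θ * c0 / 2 with ht
  have t0 : 0 < t := by positivity
  obtain ⟨c, c1, hp⟩ := pow_le_exp q t0
  set D := A ^ q * c * Real.exp t with hD
  have D0 : 0 ≤ D := by positivity
  refine ⟨t * (1 - γ), mul_pos t0 (by linarith), K + (1 + D) * (Real.exp e * (C0 + 1)),
    by positivity, fun {S} _ {μ L Λ ρ σ s} h mσ σ0 hl hs hm => ?_⟩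
  set W := Real.exp (θ * (C * s + C)) * (C0 + 1) with hW
  have W0 : 0 ≤ W := by positivity
  have h1 := exp_small (mσ.const_mul c0) h.mρ (fun x => (h.posρ x).le) h0 θ0.le θ1 h.mass hm
  have m1 : Measurable fun x => Real.exp (t * σ x) * ρ x := (mσ.const_mul t).exp.mul h.mρ
  have h2 : ∫⁻ x, ENNReal.ofReal (Real.exp (t * σ x) * ρ x) ∂μ ≤ ENNReal.ofReal W :=
    le_trans (lintegral_mono fun x => ENNReal.ofReal_le_ofReal (mul_le_mul_of_nonneg_right
      (Real.exp_le_exp.2 (by nlinarith [σ0 x])) (h.posρ x).le)) h1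
  have h3 : Tri μ L Λ (fun x => Real.exp (t * σ x) * ρ x) M W K :=
    ⟨h.mL, h.mΛ, m1, h.one, h.posΛ, fun x => mul_pos (Real.exp_pos _) (h.posρ x), W0, hK, h2, h.vol⟩
  have h4 : ∫⁻ x, ENNReal.ofReal (L x ^ q * (Real.exp (t * σ x) * ρ x)) ∂μ ≤
      ENNReal.ofReal (D * W) := by
    rw [ENNReal.ofReal_mul D0]
    refine le_trans ?_ (mul_le_mul_right h1 _)
    rw [← lintegral_const_mul' _ _ ENNReal.ofReal_ne_top]
    refine lintegral_mono fun x => ?_
    rw [← ENNReal.ofReal_mul D0]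
    refine ENNReal.ofReal_le_ofReal ?_
    have s1 := σ0 x
    have a1 : L x ^ q ≤ A ^ q * (σ x + 1) ^ q := by
      rw [← mul_pow]
      exact pow_le_pow_left₀ (zero_le_one.trans (h.one x)) (by linarith [hl x]) q
    have a2 := a1.trans (mul_le_mul_of_nonneg_left (hp _ (by positivity)) (by positivity))
    have a3 : Real.exp (θ * (c0 * σ x)) = Real.exp (t * σ x) * Real.exp (t * σ x) := by
      rw [← Real.exp_add, ht]; congr 1; ring
    rw [mul_add, mul_one, Real.exp_add] at a2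
    calc _ ≤ A ^ q * (c * (Real.exp (t * σ x) * Real.exp t)) * (Real.exp (t * σ x) * ρ x) :=
          mul_le_mul_of_nonneg_right a2 (h3.posρ x).le
      _ = _ := by rw [a3, hD]; ring
  have h5 := h3.tail γ0 γ1 hq (by positivity) h4
  refine (lint_two (g := fun x => L x ^ (γ * α) * (Λ x ^ γ * (Real.exp (t * σ x) * ρ x) ^ (1 - γ)))
    m1 ((h.mL.pow_const _).mul ((h.mΛ.pow_const _).mul (m1.pow_const _))) zero_le_one zero_le_one W0
    (by positivity) h2 h5 fun x => ?_).trans (ENNReal.ofReal_le_ofReal ?_)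
  · have l0 : 0 < L x := one_pos.trans_le (h.one x)
    have r0 := h.posρ x
    have v0 := h.posΛ x
    have s1 := σ0 x
    rw [one_mul, one_mul]
    rcases le_total 0 (Real.log (Λ x) - Real.log (ρ x) + α * Real.log (L x)) with u | u
    · rw [max_eq_right u]
      refine le_trans (le_of_eq ?_) (le_add_of_nonneg_left (by positivity))
      rw [Real.rpow_def_of_pos l0, Real.rpow_def_of_pos v0, Real.rpow_def_of_pos (by positivity),
        Real.log_mul (Real.exp_pos _).ne' r0.ne', Real.log_exp, ← Real.exp_add, ← Real.exp_add]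
      conv_lhs => rw [← Real.exp_log r0, ← Real.exp_add, Real.log_exp]
      congr 1
      ring
    · rw [max_eq_left u, mul_zero, zero_add]
      refine le_trans ?_ (le_add_of_nonneg_right (by positivity))
      exact mul_le_mul_of_nonneg_right (Real.exp_le_exp.2 (by nlinarith [mul_nonneg t0.le s1])) r0.le
  · have a1 : W ≤ Real.exp e * (C0 + 1) * Real.exp (e * s) := by
      rw [mul_right_comm, ← Real.exp_add]
      exact mul_le_mul_of_nonneg_right (Real.exp_le_exp.2 (by nlinarith)) (by positivity)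
    have a2 : 1 ≤ Real.exp (e * s) := Real.one_le_exp (by positivity)
    nlinarith [mul_le_mul_of_nonneg_left a1 D0]

end Mm

variable {ν K M : Type} [Fintype ν] [DecidableEq ν] [Field K] [Algebra ℂ K] [Field M] [Algebra ℂ M]
  [Algebra K M] [IsScalarTower ℂ K M] {d : Dat Unit K ν M}

namespace Dat.Geo

variable (G : d.Geo)

theorem ta_ne (p : Pt d.T.X.O) :
    MvPolynomial.eval₂ (Xt.evB d.B (p.res d.T.inc)) (d.fx p) G.Δ ≠ 0 :=
  (Xt.up_eq (T := d.T.toRel) p G.Δ).symm.trans_ne (G.Δu.map p.hom).ne_zero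

theorem ta_maj (A : ℝ) (p : Pt d.T.X.O) : G.maj A p =
    max 0 (Real.log (G.lam p) - Real.log (d.rho p) + A * Real.log (G.sz p)) := by
  rw [maj, Psi, rho, Real.log_rpow (Bs_pos G.τu p), one_div, inv_mul_eq_div]

theorem ta_rho : Measurable d.rho := d.meas_Bs.pow_const _

theorem ta_meas (A : ℝ) : Measurable (G.maj A) := by
  have ev : ∀ φ : d.T.X.O, Measurable fun p : Pt d.T.X.O => p φ := fun φ =>
    (Pt.continuous_apply φ).measurable
  have h1 : G.lam = fun p => (∑ a, ‖p (G.ρ a)‖ ^ 2) ^ (G.N : ℝ)⁻¹ := funext fun p => by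
    rw [← G.ρΛ, Real.pow_rpow_inv_natCast (G.tow.pos _ _ (G.ta_ne p)).le G.Npos.ne']
    rfl
  have h2 : G.sz = fun p => 2 + d.B.siz (p.res d.T.inc) + Real.log (1 + ‖Xt.xc d.T.toRel p‖ +
      ‖p (Xt.up d.T.toRel G.Δ)‖⁻¹) := funext fun p => Xt.L_eq (T := d.T.toRel) p
  have m1 : Measurable G.lam := by
    rw [h1]
    exact (Finset.measurable_sum _ fun a _ => (ev _).norm.pow_const 2).pow_const _
  have m2 : Measurable G.sz := by
    rw [h2]
    exact (measurable_const.add (d.B.psh.1.cont.comp (Pt.continuous_res _)).measurable).add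
      ((measurable_const.add (measurable_pi_lambda _ fun j => ev _).norm).add (ev _).norm.inv).log
  rw [funext (G.ta_maj A)]
  exact measurable_const.max ((m1.log.sub ta_rho.log).add (m2.log.const_mul A))

/-- size, tower density and invariant density on all fibres -/
theorem ta_tri (hC : d.Const) : ∃ C0 K0 : ℝ, 0 ≤ C0 ∧ 0 ≤ K0 ∧ ∀ b, Mm.Tri (d.T.fib b).μ
    (fun p => G.sz p.1) (fun p => G.lam p.1) (fun p => d.rho p.1) G.Mc C0 K0 := by
  obtain ⟨C, hC, h⟩ := hC.mass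
  have k0 : 0 ≤ G.Kc := zero_le_one.trans G.tow.one_le
  refine ⟨C.toReal, d.T.finX.f.natDegree * G.Kc, C.toReal_nonneg, by positivity, fun b => ?_⟩
  have e : ∀ p : d.T.Fib b, (d.T.fib b).π p = d.fx p.1 := fun p => d.T.π_fun b p
  have := Mm.tri (D := d.T.fib b) G.tow d.B.siz_nonneg (b := b) (d := d.T.finX.f.natDegree)
    (fun a => by
      rcases eq_empty_or_nonempty ((d.T.fib b).π ⁻¹' {a}) with h0 | ⟨p, -⟩
      · rw [h0, encard_empty]; exact zero_le
      · obtain ⟨C, e1, -⟩ := d.T.cov b fun e => d.T.finX.Δ_ne p.1 (by rw [p.2, e, map_zero])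
        refine (C.card_le a).trans ?_
        rw [e1]
        exact Nat.cast_le.2 Polynomial.natDegree_map_le)
    (fun p => by have := G.ta_ne p.1; rwa [p.2, ← e] at this) (ρ := fun p => d.rho p.1)
    (ta_rho.comp measurable_subtype_coe) (fun p => Real.rpow_pos_of_pos (Bs_pos G.τu _) _)
    C.toReal_nonneg (by rw [ENNReal.ofReal_toReal hC]; simpa only [rho, one_div] using h b)
  convert this using 2 with p p
  · rw [sz, p.2, e]
  · rw [lam, p.2, e]

/-- the tail on almost every fibre -/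
theorem Pol.tail_core {G : d.Geo} (P : G.Pol) (hC : d.Const) {γ : ℝ} (γ0 : 0 < γ) (γ1 : γ < 1)
    (A : ℝ) {e : ℝ} (he : 0 < e) : ∃ η : ℝ, 0 < η ∧ ∃ C : ℝ, 0 ≤ C ∧ ∀ᵐ b ∂d.B.D.μ, 0 ≤ P.s0 b ∧
      ∫⁻ p, ENNReal.ofReal (Real.exp (γ * G.maj A p.1 + η * d.T.X.siz p.1) * d.rho p.1)
        ∂(d.T.fib b).μ ≤ ENNReal.ofReal (C * Real.exp (e * P.s0 b)) := by
  obtain ⟨C0, K0, c0, k0, ht⟩ := G.ta_tri hC
  obtain ⟨A1, a1, hL⟩ := Xt.L_le (T := d.T.toRel) G.Δu
  obtain ⟨c, hc, C, C1, hm⟩ := P.mom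
  obtain ⟨η, η0, C', c', h⟩ := Mm.tail_pure G.Mc (α := A) γ0 γ1 a1 hc C1 he c0 k0
  refine ⟨η, η0, C', c', hm.mono fun b hb => ⟨hb.2.1, ?_⟩⟩
  simp only [G.ta_maj]
  exact h (ht b) (d.T.X.psh.1.cont.measurable.comp measurable_subtype_coe)
    (fun p => d.T.X.siz_nonneg _) (fun p => hL p.1) hb.2.1 hb.2.2

theorem Pol.tail_tot {G : d.Geo} (P : G.Pol) (hC : d.Const) {γ : ℝ} (γ0 : 0 ≤ γ) (γ1 : γ < 1)
    {A : ℝ} (hA : 0 ≤ A) : ∃ η : ℝ, 0 < η ∧ ∫⁻ p, ENNReal.ofReal (Real.exp (γ * G.maj A p +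
      η * d.T.X.siz p) * P.al (p.res d.T.inc) * d.rho p) ∂d.T.X.D.μ ≠ ⊤ := by
  obtain ⟨e, he, ha⟩ := P.ali
  obtain ⟨η, η0, C, c0, h⟩ := P.tail_core hC (γ := (γ + 1) / 2) (by linarith) (by linarith) A he
  refine ⟨η, η0, ?_⟩
  rw [(d.T.fubini (G := fun p => ENNReal.ofReal (Real.exp (γ * G.maj A p + η * d.T.X.siz p) *
    P.al (p.res d.T.inc) * d.rho p)) ((((((G.ta_meas A).const_mul γ).add
    (d.T.X.psh.1.cont.measurable.const_mul η)).exp.mul
    (P.alm.comp (Pt.continuous_res _).measurable)).mul ta_rho).ennreal_ofReal)).2]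
  refine ne_top_of_le_ne_top (ENNReal.mul_ne_top (ENNReal.ofReal_ne_top (r := C)) ha) ?_
  rw [← lintegral_const_mul' _ _ ENNReal.ofReal_ne_top]
  refine lintegral_mono_ae (h.mono fun b hb => ?_)
  rw [← ENNReal.ofReal_mul c0, mul_left_comm, ENNReal.ofReal_mul (P.al0 b)]
  refine le_trans ?_ (mul_le_mul_right hb.2 _)
  rw [← lintegral_const_mul' _ _ ENNReal.ofReal_ne_top]
  refine lintegral_mono fun p => ?_
  rw [← ENNReal.ofReal_mul (P.al0 b), p.2, mul_right_comm, mul_comm]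
  refine ENNReal.ofReal_le_ofReal (mul_le_mul_of_nonneg_left (mul_le_mul_of_nonneg_right
    (Real.exp_le_exp.2 ?_) (Real.rpow_nonneg (d.Bs_nonneg _) _)) (P.al0 b))
  nlinarith [show 0 ≤ G.maj A p.1 from le_max_left _ _]

theorem Pol.tail_fib {G : d.Geo} (P : G.Pol) (hC : d.Const) {A : ℝ} (hA : 0 ≤ A) {ε : ℝ}
    (hε : 0 < ε) : ∃ η : ℝ, 0 < η ∧ ∀ C1 : ℝ, ∃ C : ℝ, ∀ᵐ b ∂d.B.D.μ,
      ∫⁻ p, ENNReal.ofReal ((G.maj A p.1 + η * d.T.X.siz p.1 + C1) * d.rho p.1) ∂(d.T.fib b).μ ≤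
        ENNReal.ofReal (ε * P.s0 b + C) := by
  obtain ⟨C0, K0, c0, -, ht⟩ := G.ta_tri hC
  set e := ε / (2 * (C0 + 1)) with he
  have e0 : 0 < e := by positivity
  have e1 : 2 * e * C0 ≤ ε := by
    have : e * (2 * (C0 + 1)) = ε := div_mul_cancel₀ _ (by positivity)
    linarith
  obtain ⟨η, η0, C, C2, h⟩ := P.tail_core hC (γ := 1 / 2) (by norm_num) (by norm_num) A e0
  refine ⟨2 * η, by positivity, fun C1 => ⟨|C1| * C0 + 2 * C, h.mono fun b ⟨s0, hb⟩ => ?_⟩⟩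
  refine (Mm.lint_two (g := fun p : d.T.Fib b =>
    Real.exp (1 / 2 * G.maj A p.1 + η * d.T.X.siz p.1) * d.rho p.1) (ht b).mρ
    ((((((G.ta_meas A).const_mul _).add (d.T.X.psh.1.cont.measurable.const_mul η)).exp.mul
      ta_rho)).comp measurable_subtype_coe) (a := 2 * (e * P.s0 b) + |C1|)
    (b := 2 * Real.exp (-(e * P.s0 b))) (by positivity) (by positivity) c0 (by positivity)
    (ht b).mass hb fun p => ?_).trans (ENNReal.ofReal_le_ofReal ?_)
  · rw [← mul_assoc (2 * Real.exp _), ← add_mul, mul_assoc 2 (Real.exp _), ← Real.exp_add]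
    refine mul_le_mul_of_nonneg_right ?_ ((ht b).posρ p).le
    linarith [le_abs_self C1,
      Real.add_one_le_exp (-(e * P.s0 b) + (1 / 2 * G.maj A p.1 + η * d.T.X.siz p.1))]
  · have : Real.exp (-(e * P.s0 b)) * Real.exp (e * P.s0 b) = 1 := by
      rw [← Real.exp_add, neg_add_cancel, Real.exp_zero]
    have e2 : 2 * Real.exp (-(e * P.s0 b)) * (C * Real.exp (e * P.s0 b)) = 2 * C := by
      linear_combination 2 * C * this
    nlinarith [mul_le_mul_of_nonneg_right e1 s0]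

end Dat.Geo

end Pool.Agent.Lib.MP_5c318e_ag
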