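import Pool.Agent.Lib.MP_5c318e_ag.Sx.Bas
import Pool.Agent.Lib.MP_5c318e_ag.Sx.Cmp
import Pool.Agent.Lib.MP_5c318e_ag.Sx.Star
import Pool.Agent.Lib.MP_5c318e_ag.Sx.Tail
import Pool.Agent.Lib.MP_5c318e_ag.S.CFub

/-! The final contradiction: the mass of the level set against the invariance inequality. -/

set_option autoImplicit false
set_option linter.unusedSectionVars false

namespace Pool.Agent.Lib.MP_5c318e_ag

open MeasureTheory Set Filter Topology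
open scoped ENNReal

variable {ν K M : Type} [Fintype ν] [DecidableEq ν] [Field K] [Algebra ℂ K] [Field M] [Algebra ℂ M]
  [Algebra K M] [IsScalarTower ℂ K M] {d : Dat Unit K ν M}

namespace Dat.Geo

theorem fin_num {Ψ ph u C c1 C2 s κ i x θ e1 D : ℝ} (p0 : 0 ≤ ph) (C0 : 0 ≤ C) (s0 : 0 < s)
    (hC2 : 0 < C2) (s1 : 5 * s ≤ κ) (s2 : 6 * s ≤ c1) (i0 : 0 ≤ i) (i1 : i ≤ 1 / 2)
    (i2 : i * C2 ≤ s) (x0 : 0 ≤ x) (x1 : x ≤ 1 / 2) (x2 : x * C2 ≤ s) (θ0 : 0 ≤ θ) (θ1 : θ ≤ s)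
    (e2 : e1 ≤ s) (h1 : c1 * ph - C ≤ Ψ) (h2 : Ψ ≤ C2 * ph + C) (h3 : D ≤ i * (C2 * ph + C))
    (hu : (1 - i) * Ψ - (1 - i) * θ * ph - D - e1 * ph ≤ u) :
    -(2 * C) ≤ u ∧ Ψ - κ * ph ≤ (1 - x) * u + 2 * C := by
  have a1 : (1 - i) * θ * ph ≤ s * ph := mul_le_mul_of_nonneg_right (by nlinarith) p0
  have a2 : D ≤ s * ph + C := by nlinarith [mul_le_mul_of_nonneg_right i2 p0]
  have a3 : e1 * ph ≤ s * ph := mul_le_mul_of_nonneg_right e2 p0
  have a4 : (1 - i) * Ψ - 3 * (s * ph) - C ≤ u := by linarith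
  have sp : 0 ≤ s * ph := by positivity
  constructor
  · have b1 : (1 - i) * (c1 * ph - C) ≤ (1 - i) * Ψ := mul_le_mul_of_nonneg_left h1 (by linarith)
    have b2 : 3 * s * ph ≤ (1 - i) * c1 * ph := mul_le_mul_of_nonneg_right (by nlinarith) p0
    nlinarith [mul_nonneg i0 C0]
  · have b0 : 0 ≤ 1 - (1 - x) * (1 - i) := by nlinarith
    have b1 : (1 - (1 - x) * (1 - i)) * Ψ ≤ (1 - (1 - x) * (1 - i)) * (C2 * ph + C) :=
      mul_le_mul_of_nonneg_left h2 b0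
    have b2 : (1 - (1 - x) * (1 - i)) * C2 * ph ≤ 2 * s * ph :=
      mul_le_mul_of_nonneg_right (by nlinarith [mul_nonneg (mul_nonneg x0 i0) hC2.le]) p0
    have b3 : (1 - (1 - x) * (1 - i)) * C ≤ C :=
      mul_le_of_le_one_left C0 (by nlinarith [mul_nonneg (show 0 ≤ 1 - x by linarith) (show 0 ≤ 1 - i by linarith)])
    have b4 : (1 - x) * ((1 - i) * Ψ - 3 * (s * ph) - C) ≤ (1 - x) * u :=
      mul_le_mul_of_nonneg_left a4 (by linarith)
    have b5 : 5 * s * ph ≤ κ * ph := mul_le_mul_of_nonneg_right s1 p0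
    nlinarith [mul_nonneg x0 sp, mul_nonneg x0 C0]

theorem cont_uu (G : d.Geo) {w : Pt d.T.X.O → ℝ} (hw : Continuous w) (e1 A : ℝ) :
    Continuous (G.uu w e1 A) := by
  have h1 := G.cont_ph
  have h2 : Continuous fun p => Real.log (d.Bs p) :=
    (continuous_finsetSum _ fun i _ => (Pt.continuous_apply _).norm.pow 2).log
      fun p => (G.Bs_pos' p).ne'
  unfold uu
  fun_prop

theorem Pol.endgame {G : d.Geo} (P : G.Pol) (hC : d.Const) {κ : ℝ} (hκ : 0 < κ) :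
    ∃ (θ0 : ℝ) (J1 : ℕ), 0 < θ0 ∧ ∀ J0, J1 ≤ J0 → ∀ θ, 0 ≤ θ → θ ≤ θ0 →
    ∀ Q : Set (Pt d.B.O), IsCompact Q → ∀ A0 C0 : ℝ, 0 ≤ A0 → ∀ c : ℝ≥0∞, c ≠ 0 →
    ∃ M0 : ℝ, ∀ l1 : ℝ, ∃ ε η : ℝ, 0 < ε ∧ 0 < η ∧ ∀ (w : Pt d.T.X.O → ℝ) (e1 : ℝ),
      d.T.X.D.Psh w → 0 ≤ e1 → e1 ≤ ε →
      (∃ g : d.B.O, g ≠ 0 ∧ ∀ b0 : Pt d.B.O, b0 g ≠ 0 → ∃ C : ℝ, ∀ᶠ b in 𝓝 b0,
        ∀ p : d.T.Fib b, G.uu w e1 0 p.1 ≤ C * P.y p.1 + C) →
      (∀ p, G.uu w e1 0 p ≤ G.maj A0 p + η * d.T.X.siz p + C0) →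
      ∀ L : Pt d.T.X.O → ℝ, Continuous L → (∀ x, J0 / (J0 + 1) * (Real.log (G.lam x) - θ * G.ph x) +
        Real.log (‖x d.τ0‖ ^ 2) / (d.m * (J0 + 1)) ≤ L x) →
      ∀ O : Set (Pt d.B.O), MeasurableSet O → O ⊆ Q → c ≤ d.B.D.μ O →
      (∀ b ∈ O, ENNReal.ofReal M0 <
        ∫⁻ p in {p : d.T.Fib b | L p.1 < w p.1}, P.QQ κ l1 p.1 ∂(d.T.fib b).μ) →
      False := by
  obtain ⟨c1, C2, hc1, hC2, hcmp⟩ := G.cmp
  obtain ⟨s, s0, s1, s2⟩ : ∃ s : ℝ, 0 < s ∧ 5 * s ≤ κ ∧ 6 * s ≤ c1 :=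
    ⟨min (κ / 5) (c1 / 6), by positivity, by linarith [min_le_left (κ / 5) (c1 / 6)],
      by linarith [min_le_right (κ / 5) (c1 / 6)]⟩
  obtain ⟨x, x0, x1, x2⟩ : ∃ x : ℝ, 0 < x ∧ x ≤ 1 / 2 ∧ x * C2 ≤ s :=
    ⟨min (1 / 2) (s / C2), by positivity, min_le_left _ _,
      (le_div_iff₀ hC2).1 (min_le_right _ _)⟩
  obtain ⟨J1, hJ1⟩ := exists_nat_ge (C2 / s)
  refine ⟨s, J1 + 1, s0, fun J0 hJ θ θ0 θ1 Q hQ A0 C0 hA c hc => ?_⟩
  obtain ⟨C, hC0, hcm⟩ := hcmp Q hQ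
  obtain ⟨η0, hη0, hT⟩ := P.tail_tot hC (γ := 1 - x / 2) (by linarith) (by linarith) hA
  set T := ∫⁻ p, ENNReal.ofReal (Real.exp ((1 - x / 2) * G.maj A0 p + η0 * d.T.X.siz p) *
    P.al (p.res d.T.inc) * d.rho p) ∂d.T.X.D.μ with hTd
  set K1 := ENNReal.ofReal (Real.exp (1 - x + (1 - x / 2 - (1 - x)) * (2 * C)) /
    (1 - Real.exp (1 - x - (1 - x / 2)))) with hK1
  have Rt : ENNReal.ofReal (Real.exp (2 * C)) *
      (K1 * P.E * (ENNReal.ofReal (Real.exp |C0|) * T) + 1) ≠ ⊤ :=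
    ENNReal.mul_ne_top ENNReal.ofReal_ne_top (ENNReal.add_ne_top.2 ⟨ENNReal.mul_ne_top
      (ENNReal.mul_ne_top ENNReal.ofReal_ne_top P.Et) (ENNReal.mul_ne_top ENNReal.ofReal_ne_top hT),
      ENNReal.one_ne_top⟩)
  obtain ⟨M0, hM0⟩ := ENNReal.exists_nat_mul_gt hc Rt
  refine ⟨M0, fun l1 => ?_⟩
  obtain ⟨n, hn⟩ := exists_nat_ge (2 * C + 2 * (C2 * |l1|))
  have F0 : 0 < ((n : ℝ) + 1) * Real.exp ((1 - x) * (n + 1 - 2 * C)) := by positivity
  obtain ⟨ε, hε, hinv⟩ := P.inv _ (inv_pos.2 F0)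
  obtain ⟨η1, hη1, hfib⟩ := P.tail_fib hC hA hε
  refine ⟨min ε s, min η0 η1, lt_min hε s0, lt_min hη0 hη1,
    fun w e1 hw e0 he hloc hmaj L cL hLL O hO hOQ hcO hZ => ?_⟩
  have r0 : ∀ p, 0 ≤ d.rho p := fun p => Real.rpow_nonneg (G.Bs_pos' p).le _
  have z0 := d.T.X.siz_nonneg
  have cu := G.cont_uu hw.1.cont e1 0
  have sh : ∀ A p, G.uu w e1 A p = G.uu w e1 0 p - A := fun A p => by simp [uu]
  have mq : Measurable fun p => P.q p * d.rho p := (P.qc.mul G.cont_rho).measurable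
  have st := star d.T.X.D.μ (u := G.uu w e1 0) (f := fun p => P.q p * d.rho p)
    (g := fun p => P.al (p.res d.T.inc) * d.rho p) cu.measurable mq
    ((P.alm.comp (Pt.continuous_res _).measurable).mul G.cont_rho.measurable)
    (fun p => mul_nonneg (P.q0 p) (r0 p)) (fun p => mul_nonneg (P.al0 _) (r0 p))
    (γ := 1 - x) (γ' := 1 - x / 2) (A := 2 * C) (by linarith) (by linarith) (E := P.E) n
    (fun i _ => by
      have := hinv w e1 (i - 2 * C) (1 - x / 2) hw e0 (he.trans (min_le_left _ _)) (by linarith)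
        (by linarith) ?_ ?_
      · simpa only [sh (i - 2 * C), mul_assoc] using this
      · obtain ⟨g, g0, hg⟩ := hloc
        refine ⟨g, g0, fun b0 hb => ?_⟩
        obtain ⟨C', h'⟩ := hg b0 hb
        refine ⟨|C'| + |(i : ℝ) - 2 * C|, h'.mono fun b h p => ?_⟩
        have := P.y0 p.1
        rw [sh]
        nlinarith [h p, le_abs_self C', neg_abs_le ((i : ℝ) - 2 * C), abs_nonneg ((i : ℝ) - 2 * C),
          mul_le_mul_of_nonneg_right (le_abs_self C') this,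
          mul_nonneg (abs_nonneg ((i : ℝ) - 2 * C)) this]
      · obtain ⟨C', h'⟩ := hfib (C0 - (i - 2 * C))
        refine ⟨C', h'.mono fun b h => le_trans (lintegral_mono fun p => ?_) h⟩
        refine ENNReal.ofReal_le_ofReal (mul_le_mul_of_nonneg_right ?_ (r0 _))
        rw [sh]
        linarith [hmaj p.1, mul_le_mul_of_nonneg_right (min_le_right η0 η1) (z0 p.1)])
  rw [← ENNReal.ofReal_mul F0.le, mul_inv_cancel₀ F0.ne', ENNReal.ofReal_one, ← hK1] at st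
  have hT2 : ∫⁻ p, ENNReal.ofReal (Real.exp ((1 - x / 2) * G.uu w e1 0 p) *
      (P.al (p.res d.T.inc) * d.rho p)) ∂d.T.X.D.μ ≤ ENNReal.ofReal (Real.exp |C0|) * T := by
    rw [hTd, ← lintegral_const_mul' _ _ ENNReal.ofReal_ne_top]
    refine lintegral_mono fun p => ?_
    rw [← ENNReal.ofReal_mul (Real.exp_pos _).le, mul_assoc, ← mul_assoc (Real.exp |C0|),
      ← Real.exp_add]
    refine ENNReal.ofReal_le_ofReal (mul_le_mul_of_nonneg_right (Real.exp_le_exp.2 ?_)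
      (mul_nonneg (P.al0 _) (r0 p)))
    have a1 := mul_le_mul_of_nonneg_left (hmaj p) (show 0 ≤ 1 - x / 2 by linarith)
    have a2 := mul_le_mul_of_nonneg_right (min_le_left η0 η1) (z0 p)
    have a3 := mul_nonneg (lt_min hη0 hη1).le (z0 p)
    nlinarith [le_abs_self C0, abs_nonneg C0, neg_abs_le C0, mul_nonneg x0.le a3]
  have mS : MeasurableSet {p | -(2 * C) ≤ G.uu w e1 0 p} :=
    measurableSet_le measurable_const cu.measurable
  let H : Pt d.T.X.O → ℝ≥0∞ := indicator {p | -(2 * C) ≤ G.uu w e1 0 p} fun p =>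
    ENNReal.ofReal (Real.exp (2 * C)) * ENNReal.ofReal
      (Real.exp ((1 - x) * min (G.uu w e1 0 p) (n - 2 * C)) * (P.q p * d.rho p))
  have mH : Measurable H := by
    refine Measurable.indicator (Measurable.const_mul (ENNReal.measurable_ofReal.comp ?_) _) mS
    exact (Real.measurable_exp.comp ((cu.measurable.min measurable_const).const_mul _)).mul mq
  have pt : ∀ p : Pt d.T.X.O, p.res d.T.inc ∈ Q → L p < w p → P.QQ κ l1 p ≤ H p := by
    intro p hp hL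
    obtain ⟨-, h1, h2, -, h3⟩ := hcm p hp
    have p0 := G.ph_nonneg p
    have J2 : (J1 : ℝ) + 1 ≤ J0 := by exact_mod_cast hJ
    have J3 : (0 : ℝ) ≤ J1 := Nat.cast_nonneg _
    have m1 : (1 : ℝ) ≤ d.m := by exact_mod_cast le_trans (by norm_num) d.hm
    have i2 : 1 / ((J0 : ℝ) + 1) * C2 ≤ s := by
      rw [one_div_mul_eq_div, div_le_iff₀ (by linarith)]
      nlinarith [(div_le_iff₀ s0).1 hJ1]
    obtain ⟨k1, k2⟩ := fin_num (u := G.uu w e1 0 p) (i := 1 / ((J0 : ℝ) + 1))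
      (D := 1 / ((J0 : ℝ) + 1) * ((Real.log (d.Bs p) - Real.log (‖p d.τ0‖ ^ 2)) / d.m))
      p0 hC0 s0 hC2 s1 s2 (by positivity)
      (one_div_le_one_div_of_le two_pos (by linarith)) i2 x0.le x1 x2 θ0 θ1
      (he.trans (min_le_right _ _)) h1 h2
      (mul_le_mul_of_nonneg_left ((div_le_div_of_nonneg_right h3 (by linarith)).trans
        (div_le_self (by positivity) m1)) (by positivity))
      (by
        have e : J0 / (J0 + 1) * (Real.log (G.lam p) - θ * G.ph p) + Real.log (‖p d.τ0‖ ^ 2) /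
            (d.m * (J0 + 1)) - Real.log (d.Bs p) / d.m = (1 - 1 / ((J0 : ℝ) + 1)) * G.Psi p -
            (1 - 1 / ((J0 : ℝ) + 1)) * θ * G.ph p -
            1 / ((J0 : ℝ) + 1) * ((Real.log (d.Bs p) - Real.log (‖p d.τ0‖ ^ 2)) / d.m) := by
          unfold Psi
          field_simp
          ring
        unfold uu
        linarith [hLL p])
    refine indicator_apply_le' (fun hl => ?_) fun _ => bot_le
    have hl : G.ph p < l1 := hl
    rw [show H p = _ from indicator_of_mem (s := {p | -(2 * C) ≤ G.uu w e1 0 p}) k1 _,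
      ← ENNReal.ofReal_mul (Real.exp_pos _).le, ← mul_assoc, ← Real.exp_add, ← G.exp_Psi]
    refine ENNReal.ofReal_le_ofReal ?_
    rw [show P.q p * (Real.exp (G.Psi p) * d.rho p) * Real.exp (-(κ * G.ph p)) =
      Real.exp (G.Psi p - κ * G.ph p) * (P.q p * d.rho p) by rw [sub_eq_add_neg, Real.exp_add]; ring]
    refine mul_le_mul_of_nonneg_right (Real.exp_le_exp.2 ?_) (mul_nonneg (P.q0 p) (r0 p))
    rcases min_cases (G.uu w e1 0 p) (n - 2 * C) with h | h <;> rw [h.1]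
    · linarith
    · have a1 : C2 * G.ph p ≤ C2 * |l1| :=
        mul_le_mul_of_nonneg_left (hl.le.trans (le_abs_self _)) hC2.le
      have a2 : 0 ≤ C2 * |l1| := by positivity
      nlinarith [mul_nonneg hκ.le p0, mul_nonneg (show 0 ≤ 1 / 2 - x by linarith)
        (show 0 ≤ (n : ℝ) - 2 * C by linarith)]
  obtain ⟨-, fub⟩ := d.T.toRel.fubini mH
  refine absurd hM0 (not_lt.2 ?_)
  calc (M0 : ℝ≥0∞) * c ≤ ∫⁻ _ in O, (M0 : ℝ≥0∞) ∂d.B.D.μ := by
        rw [setLIntegral_const]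
        exact mul_le_mul_right hcO _
    _ ≤ ∫⁻ b in O, ∫⁻ p, H p.1 ∂(d.T.fib b).μ ∂d.B.D.μ := by
        refine setLIntegral_mono' hO fun b hb => ?_
        rw [← ENNReal.ofReal_natCast]
        refine (hZ b hb).le.trans ((setLIntegral_mono' ?_ fun p hp => ?_).trans
          (setLIntegral_le_lintegral _ _))
        · exact (isOpen_lt (cL.comp continuous_subtype_val)
            (hw.1.cont.comp continuous_subtype_val)).measurableSet
        · exact pt p.1 (by rw [p.2]; exact hOQ hb) hp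
    _ ≤ ∫⁻ p, H p ∂d.T.X.D.μ := (setLIntegral_le_lintegral _ _).trans fub.ge
    _ ≤ _ := by
        rw [lintegral_indicator mS, lintegral_const_mul' _ _ ENNReal.ofReal_ne_top]
        exact mul_le_mul_right (st.trans (add_le_add_left (mul_le_mul_right hT2 _) _)) _

end Dat.Geo

end Pool.Agent.Lib.MP_5c318e_ag
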