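import Pool.Agent.Lib.MP_5c318e_ag.Sx.SDefs
import Pool.Agent.Lib.MP_5c318e_ag.Np.Fd
import Pool.Agent.Lib.MP_5c318e_ag.Np.Nrm
import Pool.Agent.Lib.MP_5c318e_ag.S.SatK

/-! The spaces of forms have finite bases in the ring of the chart. -/

set_option autoImplicit false
set_option linter.unusedSectionVars false

namespace Pool.Agent.Lib.MP_5c318e_ag

open Set

theorem Noe.exists_deg' {R M α K ν : Type} [CommRing R] [IsDomain R] [Algebra ℂ R] [Field M]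
    [Algebra ℂ M] {O : Subalgebra ℂ M} [Field K] [Algebra R K] [IsFractionRing R K] [Algebra K M]
    {inc : R →ₐ[ℂ] O} {z : α → O} [Fintype ν] [DecidableEq ν] (N : Noe K inc ν z) (ψ : M) :
    ∃ k, N.Deg ψ k := by
  obtain ⟨β, β0, hβ⟩ := N.ms_den ψ
  obtain ⟨k, hk⟩ := N.exists_deg ⟨_, hβ⟩
  refine ⟨k, fun V hV j => le_trans ?_ (hk V hV j)⟩
  change _ ≤ V.valuation (N.emM β * ψ)
  rw [map_mul, hV.val_em j β0]
  exact le_mul_of_one_le_left' (one_le_pow₀ (hV.one_lt j).le)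

variable {ν K M : Type} [Fintype ν] [DecidableEq ν] [Field K] [Algebra ℂ K] [Field M] [Algebra ℂ M]
  [Algebra K M] [IsScalarTower ℂ K M] {d : Dat Unit K ν M}

/-- the conditions define a subspace -/
def Cnd.fdSub {I : Type} {dx : ν → Derivation K M M} (c : Cnd dx I) (k a j : ℕ) :
    Submodule K M where
  carrier := {φ | c.Sp k a j φ}
  add_mem' := fun h h' i => by rw [add_mul, add_div]; exact add_mem (h i) (h' i)
  zero_mem' := fun i => by simp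
  smul_mem' := fun r φ h i => by
    rw [Algebra.smul_def, mul_assoc, mul_div_assoc]
    exact mul_mem ((c.div i).const r) (h i)

namespace Dat.Geo

theorem Pol.deg {G : d.Geo} (P : G.Pol) (k a j : ℕ) :
    ∃ n, ∀ φ : M, P.c.Sp k a j φ → G.No.Deg φ n := by
  have := G.No.finite_DD
  choose n hn using fun V : G.No.DD => G.No.exists_deg'
    (P.c.J (.inl V) ^ k * P.c.l (.inl V) ^ a / P.c.w (.inl V) ^ j)
  obtain ⟨m, hm⟩ := (finite_range n).bddAbove
  refine ⟨m, fun φ h V hV i => le_trans ?_ ((hn ⟨V, hV⟩).mono (hm ⟨_, rfl⟩) V hV i)⟩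
  have h1 := h (.inl ⟨V, hV⟩)
  have w0 := pow_ne_zero j (P.c.w0 (.inl ⟨V, hV⟩))
  have J0 := mul_ne_zero (pow_ne_zero k (P.c.J0 (.inl ⟨V, hV⟩))) (pow_ne_zero a (P.c.l0 (.inl ⟨V, hV⟩)))
  rw [P.cO, ← div_div_eq_mul_div, ← V.valuation_le_one_iff, map_div₀] at h1
  exact (div_le_one₀ (zero_lt_iff.2 ((Valuation.ne_zero_iff _).2 (div_ne_zero J0 w0)))).1 h1

theorem Pol.exists_basis {G : d.Geo} (P : G.Pol) (k a j : ℕ) : ∃ (n : ℕ) (s : Fin n → d.T.X.O),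
    (∀ i, P.c.Sp k a j (s i)) ∧ LinearIndependent K (fun i => (s i : M)) ∧
    ∀ φ : d.T.X.O, P.c.Sp k a j φ → (φ : M) ∈ Submodule.span K (range fun i => (s i : M)) := by
  obtain ⟨n, hn⟩ := P.deg k a j
  have := d.T.X.ft
  obtain ⟨E, _, hE⟩ := G.No.fd_deg G.j0 n
  obtain ⟨r, s, h1, h2, h3⟩ := exists_basis_in (E ⊓ P.c.fdSub k a j) d.T.X.O
  exact ⟨r, s, fun i => (h1 i).2, h2, fun φ h => h3 φ ⟨hE φ (hn φ h), h⟩⟩

end Dat.Geo

end Pool.Agent.Lib.MP_5c318e_ag
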