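import Pool.Agent.Lib.MP_5c318e_ag.Sx.Bas

/-! The integrand of the extension step against the truncated weight. -/

set_option autoImplicit false
set_option linter.unusedSectionVars false

namespace Pool.Agent.Lib.MP_5c318e_ag

open MeasureTheory Set Filter Topology
open scoped ENNReal

variable {ν K M : Type} [Fintype ν] [DecidableEq ν] [Field K] [Algebra ℂ K] [Field M] [Algebra ℂ M]
  [Algebra K M] [IsScalarTower ℂ K M] {d : Dat Unit K ν M}

namespace Dat.Geo

variable (G : d.Geo)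

theorem fI_real {x t B f m J j a : ℝ} {n : ℕ} (hn : (n : ℝ) = j) (x0 : 0 ≤ x) (t0 : 0 ≤ t)
    (B0 : 0 < B) (htB : t ^ 2 ≤ B) (m0 : 0 < m) (J0 : 0 < J) (j0 : 0 < j) :
    (x * t ^ n) ^ (2 * (1 - (1 - 1 / (m * (J + 1) * j)))) *
      (Real.exp (a / (m * (J + 1) * j) * f))⁻¹ ≤
    Real.exp (J / (J + 1) * (Real.log (1 + x ^ 2 *
      Real.exp (-(a * f + m * J * j / m * Real.log B))) / (m * J * j))) * B ^ (1 / m) := by
  set E := Real.exp (-(a * f + m * J * j / m * Real.log B)) with hE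
  have E0 : 0 < E := Real.exp_pos _
  have e0 : 0 < 1 / (m * (J + 1) * j) := by positivity
  have h1 : (2 * (1 - (1 - 1 / (m * (J + 1) * j))) : ℝ) = (2 : ℕ) * (1 / (m * (J + 1) * j)) := by
    push_cast; ring
  have h2 : J / (J + 1) * (Real.log (1 + x ^ 2 * E) / (m * J * j)) =
      Real.log (1 + x ^ 2 * E) * (1 / (m * (J + 1) * j)) := by
    field_simp
  have h3 : (Real.exp (a / (m * (J + 1) * j) * f))⁻¹ =
      Real.exp (-(a * f)) ^ (1 / (m * (J + 1) * j)) := by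
    rw [← Real.exp_neg, ← Real.exp_mul]
    congr 1; ring
  have h4 : B ^ (1 / m) = Real.exp ((J + 1) * j * Real.log B) ^ (1 / (m * (J + 1) * j)) := by
    rw [← Real.exp_mul, Real.rpow_def_of_pos B0]
    congr 1; field_simp
  rw [h1, h2, h3, h4, Real.rpow_natCast_mul (by positivity), Real.exp_mul,
    Real.exp_log (by positivity), ← Real.mul_rpow (by positivity) (by positivity),
    ← Real.mul_rpow (by positivity) (by positivity)]
  refine Real.rpow_le_rpow (by positivity) ?_ e0.le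
  have h5 : E * Real.exp ((J + 1) * j * Real.log B) = B ^ n * Real.exp (-(a * f)) := by
    rw [hE, ← Real.exp_add, ← Real.exp_log (pow_pos B0 n), ← Real.exp_add, Real.log_pow, hn]
    congr 1; field_simp; ring
  have h6 : (t ^ n) ^ 2 ≤ B ^ n := by
    rw [← pow_mul, mul_comm, pow_mul]
    exact pow_le_pow_left₀ (by positivity) htB n
  calc (x * t ^ n) ^ 2 * Real.exp (-(a * f))
      ≤ x ^ 2 * (B ^ n * Real.exp (-(a * f))) := by
        rw [mul_pow, mul_assoc]; gcongr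
    _ = x ^ 2 * E * Real.exp ((J + 1) * j * Real.log B) := by rw [← h5]; ring
    _ ≤ _ := by gcongr; linarith

theorem fI_le {J0 j : ℕ} (hJ : 0 < J0) (hj : 0 < j) (a : ℕ) (φ : d.T.X.O) (p : Pt d.T.X.O) :
    ‖p (φ * d.τ0 ^ j)‖ₑ ^ (2 * (1 - (1 - 1 / (d.m * (J0 + 1) * j : ℕ) : ℝ))) *
      (ENNReal.ofReal (G.om (d.m * (J0 + 1) * j) a p))⁻¹ ≤
    ENNReal.ofReal (Real.exp (J0 / (J0 + 1) *
      X0.lg (G.wt (d.m * J0 * j) a) (d.m * J0 * j : ℕ) (fun x => x φ) p) * d.rho p) := by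
  have m0 : (0 : ℝ) < d.m := by linarith [d.wt_m]
  have J0' : (0 : ℝ) < J0 := by exact_mod_cast hJ
  have j0 : (0 : ℝ) < j := by exact_mod_cast hj
  have hB : ‖p d.τ0‖ ^ 2 ≤ d.Bs p :=
    Finset.single_le_sum (f := fun i => ‖p (d.τ i)‖ ^ 2) (fun _ _ => by positivity)
      (Finset.mem_univ _)
  have e : ‖p (φ * d.τ0 ^ j)‖ = ‖p φ‖ * ‖p d.τ0‖ ^ j := by
    change ‖p.hom _‖ = ‖p.hom _‖ * ‖p.hom _‖ ^ j
    rw [map_mul, map_pow, norm_mul, norm_pow]
  have := fI_real (x := ‖p φ‖) (f := G.ph p) (a := a) (n := j) rfl (norm_nonneg _) (norm_nonneg _)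
    (G.Bs_pos' p) hB m0 J0' j0
  rw [← ofReal_norm, ENNReal.ofReal_rpow_of_nonneg (norm_nonneg _)
    (by push_cast; rw [sub_sub_cancel]; positivity), om,
    ← ENNReal.ofReal_inv_of_pos (Real.exp_pos _), ← ENNReal.ofReal_mul (by positivity), e]
  refine ENNReal.ofReal_le_ofReal ?_
  simp only [X0.lg, wt, rho]
  push_cast
  exact this

end Dat.Geo

end Pool.Agent.Lib.MP_5c318e_ag
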