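import Pool.Agent.Lib.MP_5c318e_ag.Sx.SDefs
import Pool.Agent.Lib.MP_5c318e_ag.S.Low
import Pool.Agent.Lib.MP_5c318e_ag.S.LocA

/-! Independence and spanning on general fibres. -/

set_option autoImplicit false
set_option linter.unusedSectionVars false

namespace Pool.Agent.Lib.MP_5c318e_ag

open MeasureTheory Set Filter Topology

variable {ν K M : Type} [Fintype ν] [DecidableEq ν] [Field K] [Algebra ℂ K] [Field M] [Algebra ℂ M]
  [Algebra K M] [IsScalarTower ℂ K M] {d : Dat Unit K ν M}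

namespace Dat.Geo

theorem gen_ind {ι : Type} [Fintype ι] {s : ι → d.T.X.O}
    (h : LinearIndependent K fun i => (s i : M)) : ∃ g : d.B.O, g ≠ 0 ∧ ∀ b : Pt d.B.O, b g ≠ 0 →
      ∀ c : ι → ℂ, (∀ p : d.T.Fib b, ∑ i, c i * p.1 (s i) = 0) → c = 0 := by
  obtain ⟨q, q0, H⟩ := d.T.toRel.indep d.ac h
  refine ⟨MvPolynomial.aeval d.B.z q, d.B.aeval_ne q0, fun b hb c hc => ?_⟩
  have := Low.fib_nonempty d.T (d.cov b)
  refine H b (fun e => hb ?_) univ isOpen_univ univ_nonempty c fun p _ => hc p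
  refine (MvPolynomial.comp_aeval_apply d.B.z b.hom q).trans ?_
  rw [MvPolynomial.aeval_eq_eval, ← e]
  congr 2
  exact funext fun i => (d.B.π_eq b i).symm

theorem gen_span {ι : Type} [Fintype ι] {s : ι → d.T.X.O} {φ : d.T.X.O}
    (h : (φ : M) ∈ Submodule.span K (range fun i => (s i : M))) :
    ∀ᵐ b ∂d.B.D.μ, ∃ c : ι → ℂ, ∀ p : d.T.Fib b, p.1 φ = ∑ i, c i * p.1 (s i) := by
  classical
  obtain ⟨a, ha⟩ := (Submodule.mem_span_range_iff_exists_fun K).1 h
  obtain ⟨g, g0, hg⟩ := exists_den d.B.frac (Finset.univ.image a)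
  choose u hu using fun i => hg (a i) (Finset.mem_image_of_mem _ (Finset.mem_univ i))
  have e : d.T.inc g * φ = ∑ i, d.T.inc (u i) * s i := Subtype.ext (by
    rw [AddSubmonoidClass.coe_finsetSum, MulMemClass.coe_mul, ← ha, Finset.mul_sum]
    refine Finset.sum_congr rfl fun i _ => ?_
    rw [MulMemClass.coe_mul, d.T.inc_eq, d.T.inc_eq, ← hu, map_mul, Algebra.smul_def]
    ring)
  filter_upwards [d.B.D.ae_of_gen (d.B.gen_ne g0)] with b hb
  refine ⟨fun i => b (u i) / b g, fun p => ?_⟩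
  have hp : ∀ w, p.1 (d.T.inc w) = b w := fun w => DFunLike.congr_fun p.2 w
  have e1 := congrArg p.1 e
  simp only [map_mul, map_sum, hp] at e1
  refine mul_left_cancel₀ hb (e1.trans ?_)
  rw [Finset.mul_sum]
  exact Finset.sum_congr rfl fun i _ => by field_simp

end Dat.Geo

end Pool.Agent.Lib.MP_5c318e_ag
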