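import Pool.Agent.Lib.MP_5c318e_ag.Sx.Bas
import Pool.Agent.Lib.MP_5c318e_ag.Sx.Lc
import Pool.Agent.Lib.MP_5c318e_ag.T6.Grow
import Pool.Agent.Lib.MP_5c318e_ag.Np.Nrm
import Pool.Agent.Lib.MP_5c318e_ag.Tw.Lift
import Pool.Agent.Lib.MP_5c318e_ag.Xt.SubA
import Pool.Agent.Lib.MP_5c318e_ag.Xt.XDefs
import Pool.Agent.Lib.MP_5c318e_ag.Mm.Mom

/-! Moderate growth over the base of the fibre integrals of a form with smaller poles. -/

set_option autoImplicit false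
set_option linter.unusedSectionVars false

namespace Pool.Agent.Lib.MP_5c318e_ag

open MeasureTheory Set Filter Topology
open scoped ENNReal

namespace Gl

theorem logs {f r l ph c B N E k a : ℝ} (hN : 0 < N) (hE : 0 < E) (hk : 0 < k)
    (h1 : ph ≤ N * l + c + 2 * r) (h2 : N * E * f + k * E * r ≤ B + ((a * N + k) * E - 1) * (ph / 2)) :
    f * (2 / k) - a / k * ph ≤ l + (2 * B + k * E * c - ph) / (k * N * E) := by
  have h3 := mul_le_mul_of_nonneg_left h1 (mul_pos hk hE).le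
  refine le_of_mul_le_mul_left ?_ (mul_pos (mul_pos hk hN) hE)
  have e1 : k * N * E * (f * (2 / k) - a / k * ph) = 2 * N * E * f - a * N * E * ph := by
    field_simp
  have e2 : k * N * E * (l + (2 * B + k * E * c - ph) / (k * N * E)) =
      k * N * E * l + (2 * B + k * E * c - ph) := by field_simp
  rw [e1, e2]
  linarith

end Gl

variable {ν K M : Type} [Fintype ν] [DecidableEq ν] [Field K] [Algebra ℂ K] [Field M] [Algebra ℂ M]
  [Algebra K M] [IsScalarTower ℂ K M] {d : Dat Unit K ν M}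

namespace Dat.Geo

variable (G : d.Geo)

theorem gl_L : ∃ C : ℝ, 0 ≤ C ∧ ∀ p, 1 + ‖G.No.L p‖ ≤ C * Real.exp (G.ph p / 2) := by
  obtain ⟨C, c0, hC⟩ := G.No.L_le
  refine ⟨1 + C, by positivity, fun p => ?_⟩
  have h1 := Real.one_le_exp (div_nonneg (G.ph_nonneg p) zero_le_two)
  have h2 : ‖fun x : Fin G.na × Fin G.nb => p (G.ρ x.1 * G.r x.2)‖ ≤ Real.exp (G.ph p / 2) :=
    (pi_norm_le_iff_of_nonneg (by positivity)).2 fun x => by
      refine (pow_le_pow_iff_left₀ (norm_nonneg _) (Real.exp_pos _).le two_ne_zero).1 ?_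
      rw [← Real.exp_nat_mul, Nat.cast_ofNat, mul_div_cancel₀ _ two_ne_zero, ph,
        Real.exp_log (one_pos.trans_le (G.one p))]
      exact Finset.single_le_sum (f := fun x : Fin G.na × Fin G.nb => ‖p (G.ρ x.1 * G.r x.2)‖ ^ 2)
        (fun _ _ => sq_nonneg _) (Finset.mem_univ x)
  have := (hC p).trans (mul_le_mul_of_nonneg_left h2 c0)
  linarith

theorem gl_md {g : d.T.X.O} {k : ℕ} (h : G.No.Deg g k) : ∃ A : ℝ, 0 ≤ A ∧ ∀ p : Pt d.T.X.O,
    ‖p g‖ ≤ Real.exp (A * d.B.siz (p.res d.T.inc) + A + k * (G.ph p / 2)) := by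
  obtain ⟨C, c0, hC⟩ := G.gl_L
  obtain ⟨A, a0, hA⟩ := T6.grow h G.hu d.B.siz_nonneg d.B.md
  refine ⟨A + C ^ k, by positivity, fun p => (hA p).trans ?_⟩
  have h1 := Real.add_one_le_exp (C ^ k * d.B.siz (p.res d.T.inc) + C ^ k)
  have h2 := mul_nonneg (pow_nonneg c0 k) (d.B.siz_nonneg (p.res d.T.inc))
  rw [Real.exp_add _ (_ * _), Real.exp_nat_mul, add_mul, add_add_add_comm, Real.exp_add _ (_ + _),
    mul_assoc]
  refine mul_le_mul_of_nonneg_left ((pow_le_pow_left₀ (by positivity) (hC p) k).trans ?_)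
    (by positivity)
  rw [mul_pow]
  exact mul_le_mul_of_nonneg_right (by linarith) (by positivity)

theorem gl_sz : ∃ A : ℝ, 0 < A ∧ ∀ p : Pt d.T.X.O,
    G.sz p ≤ A * (d.B.siz (p.res d.T.inc) + G.ph p + 1) := by
  have s0 : ∀ p : Pt d.T.X.O, 0 ≤ d.B.siz (p.res d.T.inc) + G.ph p := fun p =>
    add_nonneg (d.B.siz_nonneg _) (G.ph_nonneg p)
  have h1 : ∀ g : d.T.X.O, Md (fun p : Pt d.T.X.O => d.B.siz (p.res d.T.inc) + G.ph p)
      fun p => ‖p g‖ := fun g => by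
    obtain ⟨k, hk⟩ := G.No.exists_deg g
    obtain ⟨A, a0, hA⟩ := G.gl_md hk
    refine ⟨A + k, by positivity, fun p => (hA p).trans (Real.exp_le_exp.2 ?_)⟩
    have := mul_nonneg a0 (G.ph_nonneg p)
    have := mul_nonneg k.cast_nonneg (G.ph_nonneg p)
    have := mul_nonneg k.cast_nonneg (d.B.siz_nonneg (p.res d.T.inc))
    have : (0 : ℝ) ≤ k := k.cast_nonneg
    linarith
  obtain ⟨A, a0, hA⟩ := (Md.add s0 (Md.sum s0 d.T.X.gens fun a _ =>
    (h1 a).pow s0 (fun _ => norm_nonneg _) 2) (Md.const s0 1)).log_le fun x => by positivity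
  obtain ⟨C, c0, hC⟩ := Xt.L_le (T := d.T.toRel) G.Δu
  refine ⟨C * A + C + 1, by positivity, fun p => (hC p).trans ?_⟩
  have := mul_le_mul_of_nonneg_left (hA p) c0
  have := mul_nonneg c0 (s0 p)
  have := s0 p
  unfold Cht.siz at *
  linarith

theorem gl_mass : ∃ C : ℝ, 0 ≤ C ∧ ∀ b : Pt d.B.O,
    ∫⁻ p, ENNReal.ofReal (G.lam p.1 / G.sz p.1 ^ G.Mc) ∂(d.T.fib b).μ ≤ ENNReal.ofReal C := by
  refine ⟨d.T.finX.f.natDegree * G.Kc, mul_nonneg (Nat.cast_nonneg _)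
    (zero_le_one.trans G.tow.one_le), fun b => ?_⟩
  obtain ⟨C, hf, -, -⟩ := d.T.cov b (d.cov b)
  refine le_of_eq_of_le (lintegral_congr fun p => ?_) (G.tow.mass_cov (D := d.T.fib b) b
    (fun a => (C.card_le a).trans (by rw [hf, d.T.finX.monic.natDegree_map])) fun p => ?_)
  · rw [Xt.fib_xc, lam, sz, p.2]; rfl
  · have := (G.Δu.map p.1.hom).ne_zero
    have e := Xt.up_eq (T := d.T.toRel) p.1 G.Δ
    rw [p.2] at e
    rw [Xt.fib_xc]
    exact e.symm.trans_ne this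

/-- smaller poles give a smaller degree -/
theorem Pol.gl_deg {G : d.Geo} (P : G.Pol) {k a : ℕ} {φ : d.T.X.O} (h : P.c.Sp (k + 1) a k φ) :
    ∃ E n : ℕ, 0 < E ∧ n + 1 = (a * G.N + (k + 1)) * E ∧
      ∀ j, G.No.Deg (((φ ^ G.N * G.r j ^ (k + 1)) ^ E : d.T.X.O) : M) n := by
  have := G.No.finite_DD
  obtain ⟨E, hE⟩ := Finite.bddAbove_range G.U.e
  obtain ⟨n, hn⟩ := Nat.exists_eq_succ_of_ne_zero
    (show (a * G.N + (k + 1)) * (E + 1) ≠ 0 by positivity)
  refine ⟨E + 1, n, E.succ_pos, hn.symm, fun j V hV i => ?_⟩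
  let W : G.No.DD := ⟨V, hV⟩
  obtain ⟨s, s0, x2⟩ := G.lc W
  have x1 := h (Sum.inl W)
  have x3 := P.cz (Sum.inl W) s j
  have J0 := P.c.J0 (Sum.inl W)
  have w0 := P.c.w0 (Sum.inl W)
  rw [P.cO, P.cl] at x1 x3
  rw [P.cJ] at x1 J0
  have l0 := G.No.l_ne G.j0
  have π0 : G.U.π W ≠ 0 := by simpa using (G.U.adp W).ne_zero G.j0
  have π1 : G.U.π W ∈ V := (V.valuation_le_one_iff _).1 (by simpa using (G.U.adp W).lt.le)
  have x4 : G.U.π W / P.c.w (Sum.inl W) ∈ V := by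
    by_cases hp : P.pol W
    · rw [P.cw W hp, div_self π0]; exact one_mem _
    · rwa [P.cw' W hp, div_one]
  have x5 : G.U.π W ^ G.U.e W * G.No.l G.j0 ∈ V := (V.valuation_le_one_iff _).1 (by
    rw [map_mul, map_pow, G.U.val W _ l0, G.U.od_l, zpow_neg, zpow_natCast]
    exact mul_inv_le_one)
  obtain ⟨c, hc⟩ := Nat.exists_eq_add_of_le (show G.U.e W ≤ G.N * (E + 1) from
    ((hE ⟨W, rfl⟩).trans E.le_succ).trans (Nat.le_mul_of_pos_left _ G.Npos))
  have s1 : (G.ρ s : M) ≠ 0 := fun e => s0 (Subtype.ext e)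
  have y := mul_mem (mul_mem (pow_mem x1 G.N) (pow_mem x2 (k + 1)))
    (mul_mem (pow_mem x3 (k + 1)) (pow_mem x4 (G.N * k)))
  have y2 := mul_mem (pow_mem y (E + 1)) (mul_mem (pow_mem π1 c) x5)
  rw [hV.val_ll i G.j0, ← map_pow, ← div_le_one₀ (zero_lt_iff.2
    ((Valuation.ne_zero_iff _).2 (pow_ne_zero _ l0))), ← map_div₀, V.valuation_le_one_iff]
  convert y2 using 1
  have e1 : ((φ : M) * P.c.w (Sum.inl W) ^ k / (G.Jd W ^ (k + 1) * G.No.l G.j0 ^ a)) ^ G.N *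
      ((G.Jd W / G.U.π W) ^ G.N / G.ρ s) ^ (k + 1) *
      ((((G.ρ s * G.r j : d.T.X.O) : M) / G.No.l G.j0) ^ (k + 1) *
        (G.U.π W / P.c.w (Sum.inl W)) ^ (G.N * k)) =
      φ ^ G.N * G.r j ^ (k + 1) / (G.No.l G.j0 ^ (a * G.N + (k + 1)) * G.U.π W ^ G.N) := by
    push_cast
    simp only [div_pow, mul_pow, ← pow_mul]
    field_simp
    ring
  rw [e1, div_pow, mul_pow (G.No.l G.j0 ^ _ : M), ← pow_mul, ← pow_mul, hn, hc]
  push_cast
  rw [pow_succ (G.No.l G.j0 : M), pow_add (G.U.π W)]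
  field_simp

/-- moderate growth of the fibre integrals of one form (field `glob` of `Data.Ok`) -/
theorem Pol.glob {G : d.Geo} (P : G.Pol) {k a : ℕ} (hk : 2 ≤ k) {φ : d.T.X.O}
    (h : P.c.Sp k a (k - 1) φ) : ∃ C β : ℝ, 0 ≤ β ∧ ∀ᵐ b ∂d.B.D.μ,
      Xt.fI d.T.toRel (G.om k a) (1 - 1 / k) b (fun p => p.1 φ) ≤
        ENNReal.ofReal (C * Real.exp (β * d.B.siz b)) := by
  obtain ⟨k, rfl⟩ : ∃ j, k = j + 1 := ⟨k - 1, by omega⟩
  obtain ⟨E, n, E0, hn, hd⟩ := P.gl_deg h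
  choose A a0 hA using fun j => G.gl_md (hd j)
  obtain ⟨S, s0, hS⟩ := G.gl_sz
  obtain ⟨C, c0, hC⟩ := G.gl_mass
  have N0 : (0 : ℝ) < G.N := Nat.cast_pos.2 G.Npos
  have E1 : (0 : ℝ) < E := Nat.cast_pos.2 E0
  have k0 : (0 : ℝ) < (k + 1 : ℕ) := by positivity
  set D : ℝ := (k + 1 : ℕ) * G.N * E with hD
  have D0 : 0 < D := by positivity
  obtain ⟨c, c1, hc⟩ := Mm.pow_le_exp G.Mc (show 0 < 1 / (D * S) by positivity)
  set B : ℝ := ∑ j, A j with hB
  have B0 : 0 ≤ B := Finset.sum_nonneg fun j _ => a0 j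
  set c2 : ℝ := c * Real.exp ((2 * B + (k + 1 : ℕ) * E * Real.log G.nb + 1) / D)
  refine ⟨c2 * C, (2 * B + 1) / D, by positivity, ae_of_all _ fun b => ?_⟩
  have key : ∀ p : Pt d.T.X.O, ‖p φ‖ ^ (2 / (k + 1 : ℕ) : ℝ) * (G.om (k + 1) a p)⁻¹ ≤
      c2 * Real.exp ((2 * B + 1) / D * d.B.siz (p.res d.T.inc)) * (G.lam p / G.sz p ^ G.Mc) := by
    intro p
    have l0 := G.lam_pos p
    have z0 : 0 < G.sz p := two_pos.trans_le (G.two_le_sz p)
    rcases (norm_nonneg (p φ)).eq_or_lt with h0 | h0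
    · rw [← h0, Real.zero_rpow (by positivity), zero_mul]; positivity
    have e1 := G.exp_ph' p
    have r0 : 0 < ∑ j, ‖p (G.r j)‖ ^ 2 :=
      (mul_pos_iff_of_pos_left (pow_pos l0 _)).1 (e1 ▸ Real.exp_pos _)
    have hne : (Finset.univ : Finset (Fin G.nb)).Nonempty :=
      Finset.nonempty_of_sum_ne_zero r0.ne'
    obtain ⟨j, -, hj⟩ := Finset.exists_max_image _ (fun j => ‖p (G.r j)‖ ^ 2) hne
    have h2 : ∑ j, ‖p (G.r j)‖ ^ 2 ≤ G.nb * ‖p (G.r j)‖ ^ 2 := by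
      simpa using Finset.sum_le_card_nsmul _ _ _ hj
    have r1 : 0 < ‖p (G.r j)‖ := norm_pos_iff.2 ((G.ru j).map p.hom).ne_zero
    have n0 : (0 : ℝ) < G.nb := Nat.cast_pos.2 j.pos
    have h3 : G.ph p ≤ G.N * Real.log (G.lam p) + Real.log G.nb + 2 * Real.log ‖p (G.r j)‖ := by
      have := Real.log_le_log (Real.exp_pos _)
        (e1.trans_le (mul_le_mul_of_nonneg_left h2 (pow_pos l0 _).le))
      rw [Real.log_exp, Real.log_mul (by positivity) (by positivity),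
        Real.log_mul (by positivity) (by positivity), Real.log_pow, Real.log_pow] at this
      push_cast at this
      linarith
    have h4 := hA j p
    rw [map_pow, map_mul, map_pow, map_pow, norm_pow, norm_mul, norm_pow, norm_pow,
      ← Real.log_le_iff_le_exp (by positivity), Real.log_pow,
      Real.log_mul (by positivity) (by positivity), Real.log_pow, Real.log_pow] at h4
    have b0 := d.B.siz_nonneg (p.res d.T.inc)
    have h5 : A j ≤ B := Finset.single_le_sum (fun i _ => a0 i) (Finset.mem_univ j)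
    have hn' : (n : ℝ) = (a * G.N + (k + 1 : ℕ)) * E - 1 :=
      eq_sub_of_add_eq (by exact_mod_cast hn)
    have h6 := Gl.logs (f := Real.log ‖p φ‖) (B := B * d.B.siz (p.res d.T.inc) + B) (a := a)
      N0 E1 k0 h3 (by
        rw [← hn']
        linarith [mul_le_mul_of_nonneg_right h5 b0])
    have h7 := (hc _ z0.le).trans (mul_le_mul_of_nonneg_left (Real.exp_le_exp.2
      (mul_le_mul_of_nonneg_left (hS p) (by positivity))) (zero_le_one.trans c1))
    rw [Real.rpow_def_of_pos h0, om, ← Real.exp_neg, ← Real.exp_add, ← mul_div_assoc _ (G.lam p),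
      le_div_iff₀ (pow_pos z0 _)]
    refine (mul_le_mul (Real.exp_le_exp.2 h6) h7 (by positivity) (by positivity)).trans
      (le_of_eq ?_)
    rw [Real.exp_add, Real.exp_log l0, mul_left_comm, mul_assoc (G.lam p), ← Real.exp_add,
      mul_assoc c, ← Real.exp_add, mul_assoc c, mul_comm (G.lam p), ← hD]
    congr 3
    field_simp
    ring
  refine le_trans (lintegral_mono fun p => ?_) (le_trans (lintegral_const_mul'
    (ENNReal.ofReal (c2 * Real.exp ((2 * B + 1) / D * d.B.siz b)))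
    (fun p : d.T.Fib b => ENNReal.ofReal (G.lam p.1 / G.sz p.1 ^ G.Mc)) ENNReal.ofReal_ne_top).le ?_)
  · have := key p.1
    rw [p.2] at this
    rw [← ENNReal.ofReal_mul (by positivity), ← ofReal_norm,
      show 2 * (1 - (1 - 1 / ((k + 1 : ℕ) : ℝ))) = 2 / (k + 1 : ℕ) by ring,
      ENNReal.ofReal_rpow_of_nonneg (norm_nonneg _) (by positivity),
      ← ENNReal.ofReal_inv_of_pos (x := G.om _ _ _) (Real.exp_pos _),
      ← ENNReal.ofReal_mul (by positivity)]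
    exact ENNReal.ofReal_le_ofReal this
  · rw [mul_right_comm c2 C, ENNReal.ofReal_mul (q := C) (by positivity)]
    exact mul_le_mul_right (hC b) _

end Dat.Geo

end Pool.Agent.Lib.MP_5c318e_ag
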