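import Pool.Agent.Lib.MP_5c318e_ag.Sx.Cmp
import Pool.Agent.Lib.MP_5c318e_ag.Sx.Bas
import Pool.Agent.Lib.MP_5c318e_ag.Sx.DegG
import Pool.Agent.Lib.MP_5c318e_ag.Np.Mass
import Pool.Agent.Lib.MP_5c318e_ag.Pm.Vis

/-! Moving the point: a large value far out gives a large mass on the level set. -/

set_option autoImplicit false
set_option linter.unusedSectionVars false

namespace Pool.Agent.Lib.MP_5c318e_ag

open MeasureTheory Set Filter Topology
open scoped ENNReal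

theorem Mv.ev_exp {ε : ℝ} (hε : 0 < ε) (C M0 : ℝ) (n : ℕ) :
    ∀ᶠ x : ℝ in atTop, M0 * (C + 2 * x) ^ n < Real.exp (ε * x) := by
  have h := (isLittleO_pow_exp_pos_mul_atTop n hε).def
    (c := 1 / (2 * ((|M0| + 1) * 3 ^ n))) (by positivity)
  filter_upwards [h, eventually_ge_atTop |C|] with x h1 h2
  have x0 : 0 ≤ x := (abs_nonneg C).trans h2
  rw [Real.norm_of_nonneg (by positivity), Real.norm_of_nonneg (by positivity), one_div,
    ← div_eq_inv_mul, le_div_iff₀ (by positivity)] at h1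
  have h3 : |(C + 2 * x) ^ n| ≤ (3 * x) ^ n := by
    rw [abs_pow]
    exact pow_le_pow_left₀ (abs_nonneg _) (abs_le.2 ⟨by linarith [neg_abs_le C],
      by linarith [le_abs_self C]⟩) n
  have h4 : M0 * (C + 2 * x) ^ n ≤ (|M0| + 1) * (3 * x) ^ n :=
    (le_abs_self _).trans ((abs_mul _ _).trans_le
      (mul_le_mul (by linarith) h3 (abs_nonneg _) (by positivity)))
  rw [mul_pow] at h4
  nlinarith [Real.exp_pos (ε * x)]

variable {ν K M : Type} [Fintype ν] [DecidableEq ν] [Field K] [Algebra ℂ K] [Field M] [Algebra ℂ M]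
  [Algebra K M] [IsScalarTower ℂ K M] {d : Dat Unit K ν M}

namespace Dat.Geo

variable (G : d.Geo)

theorem mv_sum (p : Pt d.T.X.O) :
    ∑ j, ‖p (G.r j)‖ ^ 2 = Real.exp (G.ph p - G.N * Real.log (G.lam p)) := by
  rw [Real.exp_sub, G.exp_ph', Real.exp_nat_mul, Real.exp_log (G.lam_pos p),
    mul_div_cancel_left₀ _ (pow_pos (G.lam_pos p) _).ne']

theorem mv_norm (p : Pt d.T.X.O) (φ : d.T.X.O) (j : Fin G.nb) (k : ℕ) :
    ‖p (φ ^ G.N * G.r j ^ k)‖ ^ 2 = (‖p φ‖ ^ 2) ^ G.N * (‖p (G.r j)‖ ^ 2) ^ k := by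
  rw [map_mul, map_pow, map_pow, norm_mul, norm_pow, norm_pow]
  ring

/-- the start: a large value of the form gives a large value of the function -/
theorem mv_start {k a : ℕ} (hk : 1 ≤ k) {φ : d.T.X.O} {p : Pt d.T.X.O} {l t C x : ℝ} (hl : 1 ≤ l)
    (h : l ≤ X0.lg (G.wt k a) k (fun x => x φ) p) (hΨ : G.Psi p ≤ l + t) (t0 : 0 ≤ t) (C0 : 0 ≤ C)
    (hx : 2 * x - C ≤ G.ph p) : φ ≠ 0 ∧ ∃ j, Real.exp (x - (G.N * (t + 1) + G.nb + C)) ^
      (a * G.N + k) ≤ ‖p (φ ^ G.N * G.r j ^ k)‖ := by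
  have k1 : (1 : ℝ) ≤ k := by exact_mod_cast hk
  have h1 : Real.exp (G.wt k a p + k * (l - 1)) ≤ ‖p φ‖ ^ 2 := by
    rw [X0.lg, le_div_iff₀ (by linarith), Real.le_log_iff_exp_le (by positivity)] at h
    have e1 : Real.exp (k * (l - 1)) * 2 ≤ Real.exp (l * k) := by
      refine le_trans (mul_le_mul_of_nonneg_left (show (2 : ℝ) ≤ Real.exp k by
        linarith [Real.add_one_le_exp (k : ℝ)]) (Real.exp_pos _).le) (le_of_eq ?_)
      rw [← Real.exp_add]
      congr 1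
      ring
    have e2 : 1 ≤ Real.exp (k * (l - 1)) := Real.one_le_exp (by nlinarith)
    rw [Real.exp_add, mul_comm, ← le_div_iff₀ (Real.exp_pos _), div_eq_mul_inv, ← Real.exp_neg]
    linarith
  obtain ⟨j, hj⟩ : ∃ j, Real.exp (G.ph p - G.N * Real.log (G.lam p) - G.nb) ≤ ‖p (G.r j)‖ ^ 2 := by
    by_contra hn
    push Not at hn
    have := Finset.sum_le_card_nsmul Finset.univ _ _ fun j _ => (hn j).le
    rw [G.mv_sum, Finset.card_fin, nsmul_eq_mul, Real.exp_sub _ (G.nb : ℝ), mul_div_assoc',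
      le_div_iff₀ (Real.exp_pos _)] at this
    nlinarith [Real.add_one_le_exp (G.nb : ℝ), Real.exp_pos (G.ph p - G.N * Real.log (G.lam p))]
  refine ⟨fun e => ?_, j, ?_⟩
  · rw [e, map_zero, norm_zero, zero_pow two_ne_zero] at h1
    exact (Real.exp_pos _).not_ge h1
  refine le_of_sq_le_sq ?_ (norm_nonneg _)
  rw [G.mv_norm]
  refine le_trans ?_ (mul_le_mul (pow_le_pow_left₀ (Real.exp_pos _).le h1 _)
    (pow_le_pow_left₀ (Real.exp_pos _).le hj _) (by positivity) (by positivity))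
  rw [← pow_mul, ← Real.exp_nat_mul, ← Real.exp_nat_mul, ← Real.exp_nat_mul, ← Real.exp_add,
    Real.exp_le_exp]
  have e : G.wt k a p = a * G.ph p + k * (Real.log (G.lam p) - G.Psi p) := by
    simp only [wt, Psi]; ring
  rw [e]
  push_cast
  have s0 : (0 : ℝ) ≤ G.N * (t + 1) + G.nb := by positivity
  have a0 : (0 : ℝ) ≤ a * G.N := by positivity
  have b1 := mul_le_mul_of_nonneg_left hx (show (0 : ℝ) ≤ a * G.N + k by linarith)
  have b2 := mul_le_mul_of_nonneg_left hΨ (show (0 : ℝ) ≤ G.N * k by positivity)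
  nlinarith [mul_nonneg a0 s0, mul_nonneg a0 C0, mul_nonneg (zero_le_one.trans k1) s0,
    mul_nonneg (zero_le_one.trans k1) C0]

/-- the end: a large value of the function gives a large value of the form -/
theorem mv_end {k a : ℕ} (hk : 1 ≤ k) (ha : a ≤ k) {φ : d.T.X.O} {p : Pt d.T.X.O} {j : Fin G.nb}
    {θ τ C x : ℝ} (h : Real.exp (x - τ) ^ (a * G.N + k) ≤ ‖p (φ ^ G.N * G.r j ^ k)‖)
    (t0 : 0 ≤ 2 * τ + C) (hx : G.ph p ≤ 2 * x + C) (hθ : (G.N + 1) * (2 * τ + C) < θ * G.ph p) :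
    Real.exp (k * (Real.log (G.lam p) - θ * G.ph p)) < ‖p φ‖ ^ 2 := by
  have k1 : (1 : ℝ) ≤ k := by exact_mod_cast hk
  have a1 : (a : ℝ) ≤ k := by exact_mod_cast ha
  have N1 : (1 : ℝ) ≤ G.N := by exact_mod_cast G.Npos
  have h1 := pow_le_pow_left₀ (by positivity) h 2
  rw [G.mv_norm] at h1
  have h2 : ‖p (G.r j)‖ ^ 2 ≤ Real.exp (G.ph p - G.N * Real.log (G.lam p)) :=
    (Finset.single_le_sum (f := fun j => ‖p (G.r j)‖ ^ 2) (fun _ _ => sq_nonneg _)
      (Finset.mem_univ j)).trans_eq (G.mv_sum p)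
  have h3 := h1.trans (mul_le_mul_of_nonneg_left (pow_le_pow_left₀ (sq_nonneg _) h2 k)
    (by positivity))
  refine lt_of_pow_lt_pow_left₀ G.N (sq_nonneg _) (lt_of_mul_lt_mul_right (lt_of_lt_of_le ?_ h3)
    (by positivity))
  rw [← pow_mul, ← Real.exp_nat_mul, ← Real.exp_nat_mul, ← Real.exp_nat_mul, ← Real.exp_add,
    Real.exp_lt_exp]
  push_cast
  have a0 : (0 : ℝ) ≤ a * G.N := by positivity
  have b1 := mul_le_mul_of_nonneg_left hx (show (0 : ℝ) ≤ a * G.N + k by linarith)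
  have b2 := mul_lt_mul_of_pos_left hθ (show (0 : ℝ) < k by linarith)
  have b3 : 0 ≤ θ * G.ph p := le_trans (by positivity) hθ.le
  have b4 := mul_le_mul_of_nonneg_left N1 (mul_nonneg (zero_le_one.trans k1) b3)
  have b5 := mul_le_mul_of_nonneg_right (mul_le_mul_of_nonneg_right a1 (zero_le_one.trans N1)) t0
  nlinarith [mul_nonneg a0 (G.ph_nonneg p)]

/-- the far hypothesis -/
theorem mv_far {k a E : ℕ} (E1 : 1 ≤ E) (hk : E ≤ k) (ha : a ≤ k) {u x : ℝ} (u0 : 0 ≤ u)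
    (h : 2 * (G.N + 1) * E * u ≤ x) : Real.exp u ^ (a * G.N + k) ≤ Real.exp x ^ (k / E) := by
  rw [← Real.exp_nat_mul, ← Real.exp_nat_mul, Real.exp_le_exp]
  have h1 : a * G.N + k ≤ k / E * (2 * (G.N + 1) * E) := by
    have e1 := Nat.div_add_mod k E
    have e2 := Nat.mod_lt k E1
    have e3 : 1 ≤ k / E := (Nat.one_le_div_iff E1).2 hk
    have e4 : k ≤ 2 * (E * (k / E)) := by nlinarith
    calc _ ≤ k * (G.N + 1) := by nlinarith
      _ ≤ 2 * (E * (k / E)) * (G.N + 1) := Nat.mul_le_mul_right _ e4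
      _ = _ := by ring
  calc _ ≤ ((k / E * (2 * (G.N + 1) * E) : ℕ) : ℝ) * u :=
        mul_le_mul_of_nonneg_right (by exact_mod_cast h1) u0
    _ = ((k / E : ℕ) : ℝ) * (2 * (G.N + 1) * E * u) := by push_cast; ring
    _ ≤ _ := mul_le_mul_of_nonneg_left h (Nat.cast_nonneg _)

theorem Pol.move {G : d.Geo} (P : G.Pol) : ∃ κ : ℝ, 0 < κ ∧ ∀ θ : ℝ, 0 < θ →
    ∃ (be : ℝ) (k0 : ℕ), 0 < be ∧ be ≤ 1 ∧ ∃ g : d.B.O, g ≠ 0 ∧ ∀ b : Pt d.B.O, b g ≠ 0 →
    ∀ C1 M0 : ℝ, 1 ≤ C1 → ∃ l2 : ℝ, ∀ l, l2 ≤ l → ∃ l1 : ℝ, ∀ k a : ℕ, k0 ≤ k → a ≤ k →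
      ∀ φ : d.T.X.O, P.c.Sp k a k φ →
      (∀ p : d.T.Fib b, ‖G.No.L p.1‖ ≤ 1 → ∀ i, ‖p.1 (φ ^ G.N * G.r i ^ k)‖ ≤ C1 ^ k) →
      (∀ p : d.T.Fib b, X0.lg (G.wt k a) k (fun x => x φ) p.1 ≤ G.Psi p.1 + C1) →
      (∃ p : d.T.Fib b, l ≤ X0.lg (G.wt k a) k (fun x => x φ) p.1 ∧
        G.Psi p.1 ≤ (1 + 3 * be) * l) →
      ENNReal.ofReal M0 < ∫⁻ p in {p : d.T.Fib b |
        Real.exp (k * (Real.log (G.lam p.1) - θ * G.ph p.1)) < ‖p.1 φ‖ ^ 2},
          P.QQ κ l1 p.1 ∂(d.T.fib b).μ := by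
  classical
  have := G.No.finite_DD
  have := Fintype.ofFinite G.No.DD
  obtain ⟨E, E1, hE⟩ : ∃ E : ℕ, 1 ≤ E ∧ ∀ V, G.U.e V ≤ E :=
    ⟨Finset.univ.sup G.U.e + 1, by omega, fun V =>
      (Finset.le_sup (f := G.U.e) (Finset.mem_univ V)).trans (Nat.le_succ _)⟩
  choose Y n g Y0 n0 h1 h2 h3 hq using P.vis
  let s : Finset M := (Finset.univ : Finset {V // P.pol V}).biUnion fun V =>
    {(Y V.1 V.2 : M), (n V.1 V.2 : M), (g V.1 V.2 : M)}
  have hs : (0 : M) ∉ s := by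
    simp only [s, Finset.mem_biUnion, Finset.mem_insert, Finset.mem_singleton]
    rintro ⟨V, -, h | h | h⟩
    · exact Y0 _ _ (Subtype.ext h.symm)
    · exact n0 _ _ (Subtype.ext h.symm)
    · exact h3 V.1 V.2 (by rw [← h, zero_div]; exact zero_mem _)
  obtain ⟨r, r0, hr⟩ := Noe.mass d.T.toRel G.No G.U {V | P.pol V} s hs
  obtain ⟨c1, C2, c10, C20, hc⟩ := G.cmp
  obtain ⟨n', hj⟩ := G.jac_le
  have E1' : (1 : ℝ) ≤ E := by exact_mod_cast E1
  have N1 : (1 : ℝ) ≤ G.N := by exact_mod_cast G.Npos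
  refine ⟨1 / (2 * E), by positivity, fun θ θ0 => ?_⟩
  set K0 : ℝ := 120 * (G.N + 1) * E * (G.N * C2) with hK0
  have m0 : 0 < min 1 θ := lt_min one_pos θ0
  have K1 : 0 < K0 := by positivity
  set be := min 1 θ / (K0 + 1) with hbe
  have be0 : 0 < be := by positivity
  have beK : be * (K0 + 1) = min 1 θ := div_mul_cancel₀ _ (by positivity)
  have be1 : be ≤ 1 := by linarith [min_le_left 1 θ, mul_pos be0 K1]
  refine ⟨be, E, be0, be1, r, r0, fun b hb C1 M0 hC1 => ?_⟩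
  obtain ⟨A, A2, hA⟩ := hr {b} isCompact_singleton (by simpa using hb)
  obtain ⟨C, C0, hC⟩ := hc {b} isCompact_singleton
  obtain ⟨Cj, Cj0, hCj⟩ := hj {b} isCompact_singleton
  have lA : 0 ≤ Real.log A := Real.log_nonneg (by linarith)
  have lC : 0 ≤ Real.log C1 := Real.log_nonneg hC1
  set β := G.N * be * C2 with hβ
  have β0 : 0 < β := by positivity
  have β1 : 120 * (G.N + 1) * E * β ≤ min 1 θ := by
    rw [← beK, hβ, hK0]; linarith
  set c0 : ℝ := 9 * A ^ 6 * Real.exp (2 + (4 + C)) * (Cj * 3 ^ (2 * Fintype.card ν)) * A with hc0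
  obtain ⟨x0, hx0⟩ := eventually_atTop.1 (Mv.ev_exp (ε := 1 / E) (by positivity) (5 + C) (M0 * c0) n')
  set D0 := (C1 + C) / C2 + C + 2 with hD0
  set C' : ℝ := G.N + G.nb + C with hC'
  set u0 := Real.log A + 5 * Real.log C1 + 5 * C' with hu0
  have t : Tendsto (fun l : ℝ => l / C2) atTop atTop := tendsto_id.atTop_div_const C20
  refine eventually_atTop.1 ?_
  filter_upwards [eventually_ge_atTop 1, t.eventually_ge_atTop (D0 + 4 + 2 * |x0|),
    t.eventually_ge_atTop (8 * (G.N + 1) * E * u0 + 2 * D0),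
    t.eventually_gt_atTop (2 * ((G.N + 1) * (2 * u0 + 4 + C) / θ + D0 + 2 + C))] with l l1 y1 y2 y3
  refine ⟨(4 * l + C) / c1 + C + (4 + C) + 1, ?_⟩
  rintro k a hk ha φ hφ core maj ⟨q, q1, q2⟩
  set y := l / C2 with hy
  have hl : l = C2 * y := by rw [hy]; field_simp
  have y0 : 0 ≤ y := by positivity
  obtain ⟨c1q, c2q, c3q, -⟩ := hC q.1 q.2
  rw [abs_le] at c1q
  -- the size of the point
  have L1 : y - D0 + 2 ≤ 2 * Real.log (1 + ‖G.No.L q.1‖) := by
    have e1 : C2 * y ≤ C2 * (G.ph q.1 + (C1 + C) / C2) := by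
      have e0 : C2 * ((C1 + C) / C2) = C1 + C := by field_simp
      rw [mul_add, e0]; linarith [maj q]
    linarith [le_of_mul_le_mul_left e1 C20]
  have L2 : 2 ≤ ‖G.No.L q.1‖ := by
    have e1 : (2 : ℝ) ≤ Real.log (1 + ‖G.No.L q.1‖) := by linarith [abs_nonneg x0]
    rw [Real.le_log_iff_exp_le (by positivity)] at e1
    linarith [Real.add_one_le_exp (2 : ℝ)]
  obtain ⟨x, hx⟩ : ∃ x, ‖G.No.L q.1‖ = Real.exp x := ⟨_, (Real.exp_log (by linarith)).symm⟩
  have ex1 : ∀ {u c : ℝ}, 0 < u → u ≤ (c + 1) * Real.exp x → Real.log u ≤ x + c := fun hu h => by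
    rw [Real.log_le_iff_le_exp hu, Real.exp_add, mul_comm]
    exact h.trans (mul_le_mul_of_nonneg_right (Real.add_one_le_exp _) (Real.exp_pos _).le)
  have x1 : y - D0 ≤ 2 * x := by
    have := ex1 (u := 1 + ‖G.No.L q.1‖) (c := 1) (by positivity) (by rw [← hx]; linarith)
    linarith
  have x2 : x ≤ Real.log (1 + ‖G.No.L q.1‖) := by
    rw [Real.le_log_iff_exp_le (by positivity), ← hx]; linarith
  have k1 : 1 ≤ k := E1.trans hk
  set σ := G.N * (3 * be * l + 1) + G.nb + C with hσ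
  have eσ : σ = 3 * β * y + C' := by rw [hσ, hl, hβ, hC']; ring
  have C'0 : 0 ≤ C' := by positivity
  have σ0 : 0 ≤ σ := by rw [eσ]; positivity
  obtain ⟨φ0, j, hj⟩ := G.mv_start k1 l1 q1 (t := 3 * be * l) (by linarith) (by positivity) C0
    (x := x) (by linarith)
  have eL : C1 / Real.exp (-σ) = Real.exp (Real.log C1 + σ) := by
    rw [Real.exp_add, Real.exp_log (by linarith), Real.exp_neg, div_inv_eq_mul]
  have βy := mul_le_mul_of_nonneg_right β1 y0
  obtain ⟨V, hV, Γ, mΓ, hΓ, iΓ⟩ := hA b rfl _ (a * G.N + k) (k / E) (Real.exp (-σ)) C1 q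
    (by omega) ((Nat.div_le_self _ _).trans (by omega)) (Real.exp_pos _)
    (Real.exp_le_one_iff.2 (by linarith)) hC1 (P.deg_g hφ j).1 (fun V hV => le_trans (by
      have e1 : k / E * G.U.e V ≤ G.N * k := ((Nat.mul_le_mul_left _ (hE V)).trans
        (Nat.div_mul_le_self _ _)).trans (Nat.le_mul_of_pos_left _ G.Npos)
      exact_mod_cast e1) ((P.deg_g hφ j).2 φ0 V hV))
    (fun p hp => (core p hp j).trans (pow_le_pow_right₀ hC1 (by omega)))
    (by rwa [hx, ← Real.exp_add, neg_add_eq_sub]) (by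
      rw [hx, eL, ← Real.exp_nat_mul, ← Real.exp_log (show 0 < A by linarith), ← Real.exp_add]
      refine G.mv_far E1 hk ha (by positivity) ?_
      have : min 1 θ * y ≤ y := mul_le_of_le_one_left y0 (min_le_left _ _)
      rw [eσ]
      rw [hu0] at y2
      push_cast
      linarith)
  -- bounds on the moved set
  have hb : ∀ p ∈ Γ, 1 + ‖G.No.L p.1‖ ≤ 3 * Real.exp x ∧ Real.exp (x - 1) ≤ ‖G.No.L p.1‖ ∧
      G.ph p.1 ≤ 2 * x + (4 + C) ∧ 2 * x - 2 - C ≤ G.ph p.1 := fun p hp => by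
    obtain ⟨a1, a2, -⟩ := hΓ p hp
    have e := abs_le.1 (hC p.1 p.2).1
    have e1 : 1 + ‖G.No.L p.1‖ ≤ 3 * Real.exp x := by rw [← hx]; linarith
    have e2 : Real.exp (x - 1) ≤ ‖G.No.L p.1‖ := by
      rw [Real.exp_sub, ← hx]
      exact (div_le_div_of_nonneg_left (by linarith) two_pos
        (by linarith [Real.add_one_le_exp (1 : ℝ)])).trans a1
    have e3 := ex1 (u := 1 + ‖G.No.L p.1‖) (c := 2) (by positivity) (by linarith)
    have e4 : x - 1 ≤ Real.log (1 + ‖G.No.L p.1‖) := by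
      rw [Real.le_log_iff_exp_le (by positivity)]; linarith
    exact ⟨e1, e2, by linarith, by linarith⟩
  have x3 : |x0| + 2 ≤ x := by linarith
  have x4 : 0 ≤ x := by linarith [abs_nonneg x0]
  set W : ℝ := 9 * A ^ 6 * Real.exp (2 + (4 + C)) * (Cj * (3 * Real.exp x) ^ (2 * Fintype.card ν) *
    (5 + C + 2 * x) ^ n') with hW
  have W0 : 0 < W := by positivity
  refine lt_of_lt_of_le ?_ (lintegral_mono_set (s := Γ) fun p hp => ?_)
  · refine lt_of_lt_of_le ?_ (setLIntegral_mono' (f := fun p => ENNReal.ofReal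
      (Real.exp (1 / E * x) / W) * ENNReal.ofReal
        (‖p.1.ev (Jac d.T.dx fun j => (G.No.l j : M))‖ ^ 2)) mΓ fun p hp => ?_)
    · rw [lintegral_const_mul' _ _ ENNReal.ofReal_ne_top]
      refine lt_of_lt_of_le ?_ (mul_le_mul_right iΓ _)
      rw [← ENNReal.ofReal_mul (by positivity), ENNReal.ofReal_lt_ofReal_iff (by positivity), hx,
        div_mul_div_comm, lt_div_iff₀ (by positivity)]
      refine lt_of_eq_of_lt ?_ (mul_lt_mul_of_pos_right (hx0 x (by linarith [le_abs_self x0]))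
        (by positivity))
      rw [hW, hc0, mul_pow]
      ring
    · obtain ⟨b1, b2, b3, -⟩ := hb p hp
      have e1 : G.ph p.1 < (4 * l + C) / c1 + C + (4 + C) + 1 := by
        have : G.ph q.1 ≤ (4 * l + C) / c1 := by
          rw [le_div_iff₀ c10]; linarith [mul_le_of_le_one_left (zero_le_one.trans l1) be1]
        linarith
      have L3 : 1 ≤ Real.exp (x - 1) := Real.one_le_exp (by linarith [abs_nonneg x0])
      have hm : ∀ φ ∈ ({(Y V hV : M), (n V hV : M), (g V hV : M)} : Finset M), φ ∈ s := fun φ h =>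
        Finset.mem_biUnion.2 ⟨⟨V, hV⟩, Finset.mem_univ _, h⟩
      have e2 := G.U.vis_low (hΓ p hp).2.2.2 (by linarith) (L3.trans b2) (hm _ (by simp))
        (hm _ (by simp)) (hm _ (by simp)) (Y0 V hV) (n0 V hV) (h1 V hV) (h2 V hV) (h3 V hV)
        (hq V hV p.1)
      have e3 : Real.exp ((x - 1) * (2 / E)) ≤ 9 * A ^ 6 * P.q p.1 := by
        refine le_trans ?_ e2
        rw [Real.exp_mul]
        refine (Real.rpow_le_rpow (Real.exp_pos _).le b2 (by positivity)).trans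
          (Real.rpow_le_rpow_of_exponent_le (L3.trans b2) (div_le_div_of_nonneg_left zero_le_two
            (by exact_mod_cast G.U.pos V) (by exact_mod_cast hE V)))
      have e4 : ‖p.1.ev (Jac d.T.dx fun j => (G.No.l j : M))‖ ^ 2 ≤ Cj *
          (3 * Real.exp x) ^ (2 * Fintype.card ν) * (5 + C + 2 * x) ^ n' * G.lam p.1 := by
        refine (hCj p.1 p.2).trans ?_
        have := G.ph_nonneg p.1
        have := G.lam_pos p.1
        have : 1 + G.ph p.1 ≤ 5 + C + 2 * x := by linarith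
        gcongr
      have e5 : Real.exp (1 / E * x) ≤ Real.exp ((x - 1) * (2 / E)) * Real.exp (2 + (4 + C)) *
          Real.exp (-(1 / (2 * E) * G.ph p.1)) := by
        rw [← Real.exp_add, ← Real.exp_add, Real.exp_le_exp]
        have i0 : (0 : ℝ) < 1 / E := by positivity
        have i1 : (1 : ℝ) / E ≤ 1 := div_le_one_of_le₀ E1' (by linarith)
        have i2 : (1 : ℝ) / (2 * E) = 1 / E / 2 := by field_simp
        have i3 : (2 : ℝ) / E = 2 * (1 / E) := by ring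
        rw [i2, i3]
        linarith [mul_le_mul_of_nonneg_left b3 i0.le, mul_le_mul_of_nonneg_right i1 C0]
      rw [Pol.QQ, indicator_of_mem (show p.1 ∈ {p | G.ph p < _} from e1),
        ← ENNReal.ofReal_mul (by positivity)]
      refine ENNReal.ofReal_le_ofReal ?_
      rw [div_mul_eq_mul_div, div_le_iff₀ W0]
      have := P.q0 p.1
      calc _ ≤ (9 * A ^ 6 * P.q p.1 * Real.exp (2 + (4 + C)) *
            Real.exp (-(1 / (2 * E) * G.ph p.1))) * _ :=
            mul_le_mul (e5.trans (by gcongr)) e4 (by positivity) (by positivity)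
        _ = _ := by rw [hW]; ring
  · obtain ⟨-, -, b3, b4⟩ := hb p hp
    have e1 := (hΓ p hp).2.2.1
    rw [← inv_div C1, eL, ← Real.exp_neg, ← Real.exp_nat_mul, hx, ← Real.exp_add,
      ← Real.exp_log (show 0 < A by linarith), ← Real.exp_sub] at e1
    refine G.mv_end k1 ha (j := j) (τ := 4 * (Real.log C1 + σ) + Real.log A) (x := x) (C := 4 + C)
      (le_trans (le_of_eq ?_) e1) (by positivity) b3 ?_
    · congr 2
      push_cast
      ring
    · have e2 : min 1 θ * y ≤ θ * y := mul_le_mul_of_nonneg_right (min_le_right _ _) y0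
      have e3 : 120 * (G.N + 1) * (β * y) ≤ θ * y := by
        linarith [mul_le_mul_of_nonneg_left E1' (show 0 ≤ 120 * (G.N + 1) * (β * y) by positivity)]
      have e4 := mul_lt_mul_of_pos_left y3 θ0
      have e5 : θ * ((G.N + 1) * (2 * u0 + 4 + C) / θ) = (G.N + 1) * (2 * u0 + 4 + C) := by
        field_simp
      have e6 := mul_le_mul_of_nonneg_left (show y - D0 - 2 - C ≤ G.ph p.1 by linarith) θ0.le
      have e7 : (G.N + 1 : ℝ) * (8 * Real.log C1 + 8 * C' + 2 * Real.log A) ≤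
          (G.N + 1) * (2 * u0) := mul_le_mul_of_nonneg_left (by linarith) (by positivity)
      rw [eσ]
      linarith [mul_nonneg θ0.le y0]

end Dat.Geo

end Pool.Agent.Lib.MP_5c318e_ag
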