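import Pool.Agent.Lib.MP_5c318e_ag.Sx.Cmp
import Pool.Agent.Lib.MP_5c318e_ag.X0.Defs
import Pool.Agent.Lib.MP_5c318e_ag.Tw.Lift
import Pool.Agent.Lib.MP_5c318e_ag.S.CCov

/-! The mass of the fibres and the tail of the majorant over compact sets of the base. -/

set_option autoImplicit false
set_option linter.unusedSectionVars false

namespace Pool.Agent.Lib.MP_5c318e_ag

open MeasureTheory Set Filter Topology
open scoped ENNReal

variable {ν K M : Type} [Fintype ν] [DecidableEq ν] [Field K] [Algebra ℂ K] [Field M] [Algebra ℂ M]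
  [Algebra K M] [IsScalarTower ℂ K M] {d : Dat Unit K ν M}

namespace Dat.Geo

variable (G : d.Geo)

theorem tl_ne (p : Pt d.T.X.O) :
    MvPolynomial.eval₂ ((p.res d.T.inc).hom : d.B.O →+* ℂ) (d.fx p) G.Δ ≠ 0 := by
  have h := (G.Δu.map (p.hom : d.T.X.O →+* ℂ)).ne_zero
  rw [MvPolynomial.eval₂_comp_left] at h
  exact h

/-- the logarithmic volume of the fibres is bounded -/
theorem tl_mass : ∃ C : ℝ, 0 ≤ C ∧ ∀ b : Pt d.B.O,
    ∫⁻ p, ENNReal.ofReal (G.lam p.1 / G.sz p.1 ^ G.Mc) ∂(d.T.fib b).μ ≤ ENNReal.ofReal C := by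
  refine ⟨d.T.finX.f.natDegree * G.Kc, mul_nonneg (Nat.cast_nonneg _)
    (zero_le_one.trans G.tow.one_le), fun b => ?_⟩
  obtain ⟨C, e, -⟩ := d.T.cov b (d.cov b)
  have := (d.T.fib b).secondCountable
  have h : ∀ p : d.T.Fib b, (d.T.fib b).π p = d.fx p.1 := fun p => funext (d.T.fib_π b p)
  have k := G.tow.mass_cov (D := d.T.fib b) b (d := d.T.finX.f.natDegree)
    (fun a => (C.card_le a).trans_eq (by rw [e, d.T.finX.monic.natDegree_map]))
    fun p => by have := G.tl_ne p.1; rwa [p.2, ← h] at this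
  refine le_of_eq_of_le (lintegral_congr fun p => ?_) k
  rw [lam, sz, p.2, h]

include G in
theorem tl_ms (b : Pt d.B.O) : X0.ms (d.T.fib b) (fun p => d.chi p.1) univ =
    ∫⁻ p, ENNReal.ofReal (d.Bs p.1 ^ (d.m : ℝ)⁻¹) ∂(d.T.fib b).μ := by
  rw [X0.ms, withDensity_apply _ MeasurableSet.univ, Measure.restrict_univ]
  refine lintegral_congr fun p => ?_
  rw [Dat.chi, neg_neg, Real.rpow_def_of_pos (Dat.Bs_pos G.τu p.1), div_eq_mul_inv]

include G in
theorem mass_ne (b : Pt d.B.O) (hb : Nonempty (d.T.Fib b)) :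
    X0.ms (d.T.fib b) (fun p => d.chi p.1) univ ≠ 0 := by
  have m : Measurable fun p : d.T.Fib b => ENNReal.ofReal (d.Bs p.1 ^ (d.m : ℝ)⁻¹) :=
    ((d.meas_Bs.comp measurable_subtype_coe).pow_const _).ennreal_ofReal
  have := (d.T.fib b).openPos
  rw [G.tl_ms]
  refine ((lintegral_pos_iff_support m).2 (lt_of_lt_of_le
    (isOpen_univ.measure_pos (d.T.fib b).μ univ_nonempty) (measure_mono fun p _ => ?_))).ne'
  exact (ENNReal.ofReal_pos.2 (Real.rpow_pos_of_pos (Dat.Bs_pos G.τu p.1) _)).ne'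

include G in
theorem mass_le {Q : Set (Pt d.B.O)} (hQ : IsCompact Q) : ∃ C : ℝ, 0 ≤ C ∧ ∀ b ∈ Q,
    X0.ms (d.T.fib b) (fun p => d.chi p.1) univ ≤ ENNReal.ofReal C := by
  obtain ⟨u, hu, h⟩ := d.up
  obtain ⟨C, hC⟩ := hu.bdd hQ
  have m0 : (0 : ℝ) < d.m := by linarith [d.wt_m]
  refine ⟨d.r * |C|, by positivity, fun b hb => ?_⟩
  rw [G.tl_ms, ENNReal.ofReal_mul (Nat.cast_nonneg _), ENNReal.ofReal_natCast]
  refine le_trans ?_ (mul_le_mul_right ((h b).trans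
    (ENNReal.ofReal_le_ofReal ((hC b hb).trans (le_abs_self C)))) _)
  rw [N.nB, ← lintegral_const_mul' _ _ (ENNReal.natCast_ne_top _)]
  refine lintegral_mono fun p => (ENNReal.ofReal_le_ofReal (Dat.rpow_sum_le (fun _ => sq_nonneg _)
    (inv_pos.2 m0) (inv_le_one_of_one_le₀ (by linarith [d.wt_m])))).trans ?_
  rw [ENNReal.ofReal_sum_of_nonneg fun _ _ => by positivity]
  refine (Finset.sum_le_card_nsmul _ _ _ fun i _ => ?_).trans_eq (by
    rw [Finset.card_univ, Fintype.card_fin, nsmul_eq_mul])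
  rw [← Real.rpow_natCast, ← Real.rpow_mul (norm_nonneg _), ← ofReal_norm,
    ENNReal.ofReal_rpow_of_nonneg (norm_nonneg _) d.bas_p.le, div_eq_mul_inv]
  exact ENNReal.ofReal_le_ofReal (Real.rpow_le_rpow (norm_nonneg _)
    (norm_le_pi_norm (d.T.fr d.τ b p) i) (by positivity))

/-- local tail -/
theorem tail_loc {Q : Set (Pt d.B.O)} (hQ : IsCompact Q) {γ : ℝ} (γ1 : γ < 1) :
    ∃ C : ℝ, 0 ≤ C ∧ ∀ b ∈ Q,
      ∫⁻ p, ENNReal.ofReal (Real.exp (γ * G.Psi p.1) * d.rho p.1) ∂(d.T.fib b).μ ≤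
        ENNReal.ofReal C := by
  obtain ⟨c1, C2, c0, C0, h⟩ := G.cmp
  obtain ⟨C, -, h⟩ := h Q hQ
  obtain ⟨C3, C30, h3⟩ := G.tl_mass
  have g : 0 < 1 - γ := by linarith
  set η := (1 - γ) * c1 / C2 with hη
  have η0 : 0 < η := by positivity
  set A := Real.exp (η * C + (1 - γ) * C) * (G.Mc.factorial / η ^ G.Mc) with hA
  have A0 : 0 ≤ A := by positivity
  refine ⟨A * C3, by positivity, fun b hb => ?_⟩
  rw [ENNReal.ofReal_mul A0]
  refine le_trans ?_ (mul_le_mul_right (h3 b) _)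
  rw [← lintegral_const_mul' _ _ ENNReal.ofReal_ne_top]
  refine lintegral_mono fun p => ?_
  rw [← ENNReal.ofReal_mul A0]
  refine ENNReal.ofReal_le_ofReal ?_
  obtain ⟨-, h1, -, h2, -⟩ := h p.1 (by rwa [p.2])
  have l0 : 0 < G.lam p.1 := G.tow.pos _ _ (G.tl_ne p.1)
  have s0 : 0 < G.sz p.1 := add_pos_of_pos_of_nonneg (add_pos_of_pos_of_nonneg two_pos
    (d.B.bas_siz _)) (Real.log_nonneg (by
      rw [add_assoc]; exact le_add_of_nonneg_right (by positivity)))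
  have e : Real.exp (γ * G.Psi p.1) * d.rho p.1 =
      Real.exp (-((1 - γ) * G.Psi p.1)) * G.lam p.1 := by
    rw [Dat.rho, Real.rpow_def_of_pos (Dat.Bs_pos G.τu p.1), ← Real.exp_log l0, ← Real.exp_add,
      ← Real.exp_add, Psi]
    congr 1
    ring
  have h4 : -((1 - γ) * G.Psi p.1) ≤ (η * C + (1 - γ) * C) + -(η * G.sz p.1) := by
    have h5 : η * G.sz p.1 ≤ (1 - γ) * c1 * G.ph p.1 + η * C := by
      refine (mul_le_mul_of_nonneg_left h2 η0.le).trans_eq ?_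
      rw [hη]; field_simp
    nlinarith [mul_le_mul_of_nonneg_left h1 g.le]
  have h6 : Real.exp (-(η * G.sz p.1)) ≤ G.Mc.factorial / η ^ G.Mc / G.sz p.1 ^ G.Mc := by
    rw [div_div, ← mul_pow, Real.exp_neg, ← inv_div]
    exact inv_anti₀ (by positivity) (Real.pow_div_factorial_le_exp _ (by positivity) _)
  rw [e, mul_div_assoc', mul_div_right_comm]
  refine mul_le_mul_of_nonneg_right ((Real.exp_le_exp.2 h4).trans ?_) l0.le
  rw [Real.exp_add, hA, mul_div_assoc]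
  exact mul_le_mul_of_nonneg_left h6 (Real.exp_pos _).le

end Dat.Geo

end Pool.Agent.Lib.MP_5c318e_ag
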