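import Pool.Agent.Lib.MP_5c318e_ag.Sx.Bas
import Pool.Agent.Lib.MP_5c318e_ag.Sx.TLoc
import Pool.Agent.Lib.MP_5c318e_ag.X0.Two

/-! The point with a large value of the extremal form and a majorant of the same size. -/

set_option autoImplicit false
set_option linter.unusedSectionVars false

namespace Pool.Agent.Lib.MP_5c318e_ag

open MeasureTheory Set Filter Topology
open scoped ENNReal

variable {ν K M : Type} [Fintype ν] [DecidableEq ν] [Field K] [Algebra ℂ K] [Field M] [Algebra ℂ M]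
  [Algebra K M] [IsScalarTower ℂ K M] {d : Dat Unit K ν M}

namespace Dat.Geo

variable (G : d.Geo)

include G in
theorem sm_chi (b : Pt d.B.O) : (d.T.fib b).Sm fun p => d.chi p.1 :=
  (G.x0dat b (k := 2) 0 one_pos le_rfl one_pos (by norm_num)).sm

theorem tail_ms (b : Pt d.B.O) {γ : ℝ} (γ1 : γ < 1) (C1 : ℝ) :
    ∫⁻ p, ENNReal.ofReal (Real.exp (γ * (G.Psi p.1 + C1)))
      ∂X0.ms (d.T.fib b) (fun p => d.chi p.1) ≠ ⊤ := by
  obtain ⟨C, -, h⟩ := G.tail_loc (isCompact_singleton (x := b)) γ1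
  have c := G.cont_Psi
  rw [X0.lint_ms (G.sm_chi b) (by fun_prop)]
  refine ne_top_of_le_ne_top (ENNReal.mul_ne_top (a := ENNReal.ofReal (Real.exp (γ * C1)))
    ENNReal.ofReal_ne_top (ne_top_of_le_ne_top ENNReal.ofReal_ne_top (h b rfl))) (le_of_eq ?_)
  rw [← lintegral_const_mul' _ _ ENNReal.ofReal_ne_top]
  refine lintegral_congr fun p => ?_
  rw [G.exp_chi, ← ENNReal.ofReal_mul (by positivity), mul_add, Real.exp_add]
  ring_nf

theorem point {γ be : ℝ} (γ0 : 0 < γ) (γ1 : γ < 1) (b0 : 0 < be) (b : Pt d.B.O) (C1 : ℝ) :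
    ∃ l1 : ℝ, ∀ (ph : d.T.Fib b → ℝ) (k : ℝ) (U : d.T.Fib b → ℂ),
      X0.Tail (d.T.fib b) (fun p => d.chi p.1) ph k γ 0 be U →
      (∀ p, X0.lg ph k U p ≤ G.Psi p.1 + C1) → ∀ l, l1 ≤ l →
      ∃ p : d.T.Fib b, l ≤ X0.lg ph k U p ∧ G.Psi p.1 ≤ (1 + 3 * be) * l := by
  have c := G.cont_Psi
  obtain ⟨l1, -, H⟩ := X0.point (ι := ν) (X0.ms (d.T.fib b) fun p => d.chi p.1)
    (X0.ms_open (G.sm_chi b) isOpen_univ (nonempty_iff_univ_nonempty.1
      (Low.fib_nonempty d.T (d.cov b)))) (Psi := fun p => G.Psi p.1 + C1) (by fun_prop)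
    (g := (1 + 3 / 2 * be) / (1 + 2 * be)) (th := 0) (kap := 2 * be) γ0 (by positivity) b0
    (G.tail_ms b γ1 C1) (G.tail_ms b ((div_lt_one (by positivity)).2 (by linarith)) C1)
    (by rw [div_mul_cancel₀ _ (by positivity)]; linarith)
  refine ⟨max l1 (-C1 / be), fun ph k U hT hP l hl => ?_⟩
  obtain ⟨p, h1, -, h2⟩ := nonempty_of_measure_ne_zero
    (H _ _ ph k U rfl hT hP l ((le_max_left _ _).trans hl))
  have := (div_le_iff₀ b0).1 ((le_max_right _ _).trans hl)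
  exact ⟨p, h1, by linarith⟩

end Dat.Geo

end Pool.Agent.Lib.MP_5c318e_ag
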