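import Pool.Agent.Lib.MP_5c318e_ag.Sx.Bas
import Pool.Agent.Lib.MP_5c318e_ag.Sx.Cmp
import Pool.Agent.Lib.MP_5c318e_ag.Sx.DegG
import Pool.Agent.Lib.MP_5c318e_ag.Np.Mass

/-! Bounds with constants that do not depend on the weight, the twist and the form. -/

set_option autoImplicit false
set_option linter.unusedSectionVars false

namespace Pool.Agent.Lib.MP_5c318e_ag

open MeasureTheory Set Filter Topology Metric
open scoped ENNReal

/-- a mean value bound that is uniform on a compact set and in the exponent -/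
theorem RD.unif_mean {ι : Type} [Fintype ι] {S : Type} [TopologicalSpace S] [MeasurableSpace S]
    [BorelSpace S] (D : RD ι S) {T : Set S} (hT : IsCompact T) {v : S → ℝ} (hv : Continuous v)
    (v0 : ∀ x, 0 < v x) : ∃ c : ℝ, 0 < c ∧ ∀ x ∈ T, ∀ f : S → ℂ, D.Hol f → ∀ s : ℝ, 0 < s →
      ∀ g : S → ℝ≥0∞, Measurable g → (∀ y, ENNReal.ofReal (‖f y‖ ^ s * v y) ≤ g y) →
      ENNReal.ofReal (‖f x‖ ^ s * c) ≤ ∫⁻ y, g y ∂D.μ := by
  have := hT.eventually_forall_of_forall_eventually (x₀ := (0 : ℝ))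
    (P := fun c x => ∀ f : S → ℂ, D.Hol f → ∀ s : ℝ, 0 < s →
      ∀ g : S → ℝ≥0∞, Measurable g → (∀ y, ENNReal.ofReal (‖f y‖ ^ s * v y) ≤ g y) →
      ENNReal.ofReal (‖f x‖ ^ s * c) ≤ ∫⁻ y, g y ∂D.μ) fun y _ => by
    obtain ⟨r, r0, hr⟩ := D.exists_rad y
      (hv.continuousAt.eventually (lt_mem_nhds (half_lt_self (v0 y))))
    have r2 : 0 < r / 2 := half_pos r0
    have hc : 0 < (Real.pi * (r / 2) ^ 2) ^ Fintype.card ι * (v y / 2) := by
      have := Real.pi_pos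
      have := v0 y
      positivity
    filter_upwards [prod_mem_nhds (gt_mem_nhds hc) (inter_mem
      ((D.ch y).open_source.mem_nhds (D.mem_src y))
      (D.cont_π.continuousAt.eventually (ball_mem_nhds _ r2)))] with z hz f hf s hs g gm hg
    obtain ⟨h1, h2, h3⟩ := hz
    have sub : ball (D.π z.2) (r / 2) ⊆ closedBall (D.π y) r := fun w hw => by
      have := dist_triangle w (D.π z.2) (D.π y)
      have a : dist w (D.π z.2) < r / 2 := hw
      have b : dist (D.π z.2) (D.π y) < r / 2 := h3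
      exact mem_closedBall.2 (by linarith)
    have hc' : ContinuousOn (D.sec y) (ball (D.π z.2) (r / 2)) :=
      (D.sec_contOn y).mono fun w hw => (hr (sub hw)).1
    have hπ : ∀ w ∈ ball (D.π z.2) (r / 2), D.π (D.sec y w) = w :=
      fun w hw => RD.π_sec (hr (sub hw)).1
    have k := Rat.submean_rpow (hf.on_sec isOpen_ball hc' hπ) hs
    simp only [RD.sec_π h2] at k
    rw [Rat.vol_ball r2] at k
    refine le_trans ?_ (RD.lintegral_sec_le isOpen_ball hc' hπ gm)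
    calc _ ≤ ENNReal.ofReal (‖f z.2‖ ^ s) *
          ENNReal.ofReal ((Real.pi * (r / 2) ^ 2) ^ Fintype.card ι) * ENNReal.ofReal (v y / 2) := by
          rw [mul_assoc, ← ENNReal.ofReal_mul (by positivity), ← ENNReal.ofReal_mul (by positivity)]
          exact ENNReal.ofReal_le_ofReal (mul_le_mul_of_nonneg_left (le_of_lt h1) (by positivity))
      _ ≤ (∫⁻ w in ball (D.π z.2) (r / 2), ENNReal.ofReal (‖f (D.sec y w)‖ ^ s)) *
          ENNReal.ofReal (v y / 2) := by gcongr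
      _ ≤ _ := by
          rw [← lintegral_mul_const' _ _ ENNReal.ofReal_ne_top]
          refine setLIntegral_mono' measurableSet_ball fun w hw => le_trans ?_ (hg _)
          rw [← ENNReal.ofReal_mul (by positivity)]
          exact ENNReal.ofReal_le_ofReal
            (mul_le_mul_of_nonneg_left (le_of_lt (hr (sub hw)).2) (by positivity))
  obtain ⟨c, h1, h2⟩ := ((this.filter_mono (nhdsWithin_le_nhds (s := Ioi 0))).and
    self_mem_nhdsWithin).exists
  exact ⟨c, h2, h1⟩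

variable {ν K M : Type} [Fintype ν] [DecidableEq ν] [Field K] [Algebra ℂ K] [Field M] [Algebra ℂ M]
  [Algebra K M] [IsScalarTower ℂ K M] {d : Dat Unit K ν M}

namespace Dat.Geo

variable (G : d.Geo)

/-- the core over a compact set of the base is compact -/
theorem un_core {Q : Set (Pt d.B.O)} (hQ : IsCompact Q) :
    IsCompact {p : Pt d.T.X.O | p.res d.T.inc ∈ Q ∧ ‖G.No.L p‖ ≤ 1} := by
  obtain ⟨_, _, -, -, h⟩ := G.cmp
  obtain ⟨C, -, h⟩ := h Q hQ
  obtain ⟨A, A0, hA⟩ := T6.siz_le G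
  obtain ⟨s, hs⟩ := hQ.bddAbove_image d.B.psh.1.cont.continuousOn
  refine (d.T.X.exh.2 (A * (C + 2 + s) + A)).of_isClosed_subset
    ((hQ.isClosed.preimage (Pt.continuous_res _)).inter
      (isClosed_le G.No.ms_cont.norm continuous_const)) fun p hp => (hA p).trans ?_
  have h1 := (abs_le.1 (h p hp.1).1).2
  have h2 := Real.log_le_sub_one_of_pos (show 0 < 1 + ‖G.No.L p‖ by positivity)
  have h3 : d.B.siz (p.res d.T.inc) ≤ s := hs ⟨_, hp.1, rfl⟩
  have h4 := hp.2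
  gcongr
  linarith

/-- the bound on the core of one fibre -/
theorem un_fib (b0 : Pt d.B.O) (C0 : ℝ) : ∃ A : ℝ, 1 ≤ A ∧ ∀ (k a : ℕ) (γ : ℝ), 0 < k → a ≤ k →
    1 / 2 ≤ γ → γ ≤ 1 → ∀ φ : d.T.X.O,
    X0.II (d.T.fib b0) (fun p => d.chi p.1) (fun p => G.wt k a p.1) k γ (fun p => p.1 φ) ≤
      ENNReal.ofReal C0 →
    ∀ p : Pt d.T.X.O, p.res d.T.inc = b0 → ‖G.No.L p‖ ≤ 1 → ‖p φ‖ ≤ A ^ k := by
  have sm := (G.x0dat b0 (k := 2) 0 one_pos le_rfl one_pos (by norm_num)).sm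
  have hT : IsCompact {p : d.T.Fib b0 | ‖G.No.L p.1‖ ≤ 1} := by
    rw [Subtype.isCompact_iff]
    convert G.un_core (isCompact_singleton (x := b0)) using 1
    ext p
    exact ⟨fun ⟨q, h, e⟩ => e ▸ ⟨q.2, h⟩, fun h => ⟨⟨p, h.1⟩, h.2, rfl⟩⟩
  obtain ⟨c, c0, hc⟩ := (d.T.fib b0).unif_mean hT
    (v := fun p => Real.exp (-(G.ph p.1 + |d.chi p.1|)) * Real.exp (-d.chi p.1))
    (((G.cont_ph.comp continuous_subtype_val).add sm.cont.abs).neg.rexp.mul sm.cont.neg.rexp)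
    fun _ => by positivity
  refine ⟨max 1 (|C0| / c), le_max_left _ _, fun k a γ k0 ha g1 g2 φ h p hp hL => ?_⟩
  have k1 : (0 : ℝ) < k := by exact_mod_cast k0
  have cw : Continuous fun p : d.T.Fib b0 => G.wt k a p.1 :=
    (G.psh_wt k a).1.cont.comp continuous_subtype_val
  have cl : Continuous (X0.lg (fun p : d.T.Fib b0 => G.wt k a p.1) k fun p => p.1 φ) :=
    (Continuous.log (continuous_const.add (((d.T.fib_hol b0 φ).cont.norm.pow 2).mul cw.neg.rexp))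
      fun _ => ne_of_gt (add_pos_of_pos_of_nonneg one_pos
        (mul_nonneg (sq_nonneg _) (Real.exp_pos _).le))).div_const _
  rw [X0.II, X0.lint_ms sm (cl.const_mul γ).rexp.measurable] at h
  have key := (hc ⟨p, hp⟩ hL _ (d.T.fib_hol b0 φ) (2 * (γ / k)) (by positivity) _
    ((cl.const_mul γ).rexp.mul sm.cont.neg.rexp).measurable.ennreal_ofReal fun y => ?_).trans h
  · have h1 : ‖p φ‖ ^ (2 * (γ / k)) ≤ max 1 (|C0| / c) := le_max_of_le_right (by
      rw [le_div_iff₀ c0]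
      exact (ENNReal.ofReal_le_ofReal_iff (abs_nonneg _)).1
        (key.trans (ENNReal.ofReal_le_ofReal (le_abs_self _))))
    rcases le_total ‖p φ‖ 1 with h2 | h2
    · exact h2.trans (one_le_pow₀ (le_max_left _ _))
    · have h3 : ‖p φ‖ ^ (k : ℝ)⁻¹ ≤ ‖p φ‖ ^ (2 * (γ / k)) :=
        Real.rpow_le_rpow_of_exponent_le h2 (by
          rw [← mul_div_assoc, inv_eq_one_div]
          gcongr
          linarith)
      rw [← Real.rpow_inv_natCast_pow (norm_nonneg (p φ)) k0.ne']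
      exact pow_le_pow_left₀ (by positivity) (h3.trans h1) k
  · refine ENNReal.ofReal_le_ofReal ?_
    simp only [Pi.mul_apply, Pi.neg_apply]
    rw [← mul_assoc, X0.exp_mul_lg]
    refine mul_le_mul_of_nonneg_right ?_ (Real.exp_pos _).le
    refine le_trans ?_ (Real.rpow_le_rpow (by positivity) (le_add_of_nonneg_left zero_le_one)
      (by positivity))
    rw [Real.mul_rpow (by positivity) (by positivity), ← Real.rpow_natCast,
      ← Real.rpow_mul (norm_nonneg _), ← Real.exp_mul]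
    refine mul_le_mul_of_nonneg_left (Real.exp_le_exp.2 ?_) (by positivity)
    have e : G.wt k a y.1 * (γ / k) = γ * (a / k * G.ph y.1 - d.chi y.1) := by
      rw [wt, chi]; field_simp; ring
    have a1 : (a : ℝ) / k ≤ 1 := (div_le_one k1).2 (by exact_mod_cast ha)
    have p0 := G.ph_nonneg y.1
    have a2 : (a : ℝ) / k * G.ph y.1 ≤ G.ph y.1 := mul_le_of_le_one_left p0 a1
    have a3 := neg_le_abs (d.chi y.1)
    have a4 := abs_nonneg (d.chi y.1)
    rw [neg_mul, e, neg_le_neg_iff]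
    nlinarith

theorem Pol.unif {G : d.Geo} (P : G.Pol) {J0 : ℕ} (hJ : 0 < J0) (b0 : Pt d.B.O) (C0 : ℝ) :
    ∃ C1 : ℝ, 1 ≤ C1 ∧ ∀ j a : ℕ, 0 < j → a ≤ j → ∀ φ : d.T.X.O,
      P.c.Sp (d.m * J0 * j) a (d.m * J0 * j) φ →
      X0.II (d.T.fib b0) (fun p => d.chi p.1) (fun p => G.wt (d.m * J0 * j) a p.1)
        (d.m * J0 * j : ℕ) (J0 / (J0 + 1)) (fun p => p.1 φ) ≤ ENNReal.ofReal C0 →
      ∀ᶠ b in 𝓝 b0, ∀ p : d.T.Fib b,
        (‖G.No.L p.1‖ ≤ 1 → ∀ i,
          ‖p.1 (φ ^ G.N * G.r i ^ (d.m * J0 * j))‖ ≤ C1 ^ (d.m * J0 * j)) ∧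
        X0.lg (G.wt (d.m * J0 * j) a) (d.m * J0 * j : ℕ) (fun x => x φ) p.1 ≤ G.Psi p.1 + C1 := by
  have := T6.normal d.B
  have := d.B.D.wlc
  obtain ⟨Q, hQ, hb0⟩ := exists_compact_mem_nhds b0
  obtain ⟨A, A1, hA⟩ := G.un_fib b0 C0
  have hT := G.un_core hQ
  obtain ⟨R, hR⟩ := hT.exists_bound_of_continuousOn (f := fun p => fun i => p (G.r i))
    (continuous_pi fun _ => Pt.continuous_apply _).continuousOn
  obtain ⟨c1, _, c0, -, hc⟩ := G.cmp
  obtain ⟨C, C0', hC⟩ := hc Q hQ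
  obtain ⟨B, B1, hB⟩ := G.No.ms_bw
  set La : ℝ := (2 * A) ^ G.N * max 1 R with hLa
  have La1 : 1 ≤ La := one_le_mul_of_one_le_of_one_le (one_le_pow₀ (by linarith)) (le_max_left _ _)
  set W : ℝ := B ^ 2 * La ^ 2 * Real.exp ((G.N + 1) * C) * (G.nb + 1) with hW
  have W1 : 1 ≤ W := one_le_mul_of_one_le_of_one_le (one_le_mul_of_one_le_of_one_le
    (one_le_mul_of_one_le_of_one_le (one_le_pow₀ B1) (one_le_pow₀ La1))
    (Real.one_le_exp (by positivity))) (le_add_of_nonneg_left (Nat.cast_nonneg _))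
  have W2 : 0 < 2 * W * Real.exp C := by positivity
  refine ⟨La + 2 * W * Real.exp C, by linarith, fun j a hj ha φ hφ hI => ?_⟩
  have m0 : 0 < d.m := by
    have : (0 : ℝ) < d.m := by linarith [d.wt_m]
    exact_mod_cast this
  have J1 : (1 : ℝ) ≤ J0 := by exact_mod_cast hJ
  have ak : a ≤ d.m * J0 * j := ha.trans (Nat.le_mul_of_pos_left _ (Nat.mul_pos m0 hJ))
  have k0 : 0 < d.m * J0 * j := Nat.mul_pos (Nat.mul_pos m0 hJ) hj
  have h0 := hA _ a _ k0 ak (by rw [le_div_iff₀ (by linarith)]; linarith)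
    ((div_le_one (by linarith)).2 (by linarith)) φ hI
  have dg := fun i => (P.deg_g hφ i).1
  generalize d.m * J0 * j = k at *
  have k1 : (1 : ℝ) ≤ k := by exact_mod_cast k0
  have hK : IsCompact (Pt.res d.T.inc '' ({p : Pt d.T.X.O | p.res d.T.inc ∈ Q ∧ ‖G.No.L p‖ ≤ 1} ∩
      {p | (2 * A) ^ k ≤ ‖p φ‖})) :=
    (hT.inter_right (isClosed_le continuous_const (Pt.continuous_apply φ).norm)).image
      (Pt.continuous_res _)
  filter_upwards [hb0, hK.isClosed.isOpen_compl.mem_nhds (x := b0) (fun ⟨p, h1, h2⟩ =>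
    absurd (le_trans h1.2 (h0 p h2 h1.1.2))
      (not_le.2 (pow_lt_pow_left₀ (by linarith) (by linarith) k0.ne')))] with b hb hb'
  have core : ∀ i, ∀ p : Pt d.T.X.O, p.res d.T.inc = b → ‖G.No.L p‖ ≤ 1 →
      ‖p (φ ^ G.N * G.r i ^ k)‖ ≤ La ^ k := fun i p hp hL => by
    have hq : p.res d.T.inc ∈ Q := hp ▸ hb
    have h1 : ‖p φ‖ ≤ (2 * A) ^ k := le_of_not_ge fun h => hb' ⟨p, ⟨⟨hq, hL⟩, h⟩, hp⟩
    have h2 : ‖p (G.r i)‖ ≤ max 1 R :=
      le_max_of_le_right ((norm_le_pi_norm (fun i => p (G.r i)) i).trans (hR p ⟨hq, hL⟩))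
    rw [map_mul, map_pow, map_pow, norm_mul, norm_pow, norm_pow, hLa, mul_pow, ← pow_mul,
      mul_comm G.N, pow_mul]
    gcongr
  rintro ⟨p, hp⟩
  refine ⟨fun hL i => (core i p hp hL).trans (pow_le_pow_left₀ (by linarith) (by linarith) k), ?_⟩
  obtain ⟨h1, h2, -⟩ := hC p (hp ▸ hb)
  have l0 := G.lam_pos p
  have p0 := G.ph_nonneg p
  obtain ⟨i, hi⟩ : ∃ i, ∑ j, ‖p (G.r j)‖ ^ 2 ≤ (G.nb + 1) * ‖p (G.r i)‖ ^ 2 := by
    rcases isEmpty_or_nonempty (Fin G.nb) with h | h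
    · exact absurd (G.one p) (by simp)
    obtain ⟨i, -, hi⟩ := Finset.exists_max_image Finset.univ (fun j => ‖p (G.r j)‖ ^ 2)
      Finset.univ_nonempty
    refine ⟨i, (Finset.sum_le_card_nsmul _ _ _ hi).trans ?_⟩
    rw [Finset.card_fin, nsmul_eq_mul]
    gcongr
    linarith
  have y0 : 0 < ‖p (G.r i)‖ := norm_pos_iff.2 ((G.ru i).map p.hom).ne_zero
  have e1 : max 1 ‖G.No.L p‖ ^ 2 ≤ Real.exp (G.ph p + C) := by
    have n0 := norm_nonneg (G.No.L p)
    refine (pow_le_pow_left₀ (by positivity)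
      (max_le (b := ‖G.No.L p‖) (c := 1 + ‖G.No.L p‖) (by linarith) (by linarith)) 2).trans ?_
    rw [← Real.log_le_iff_le_exp (by positivity), Real.log_pow]
    push_cast
    linarith [(abs_le.1 h1).1]
  have e2 : Real.exp (G.ph p) ≤ G.lam p ^ G.N * ((G.nb + 1) * ‖p (G.r i)‖ ^ 2) := by
    rw [G.exp_ph']; gcongr
  have e3 := hB _ _ b (G.hu.map b.hom).ne_zero (dg i) _ (core i) p hp
  rw [map_mul, map_pow, map_pow, norm_mul, norm_pow, norm_pow] at e3
  have e4 : (‖p φ‖ ^ 2) ^ G.N * (‖p (G.r i)‖ ^ 2) ^ k ≤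
      (Real.exp (G.ph p) ^ a * G.lam p ^ k * W ^ k) ^ G.N * (‖p (G.r i)‖ ^ 2) ^ k :=
    calc _ = (‖p φ‖ ^ G.N * ‖p (G.r i)‖ ^ k) ^ 2 := by ring
      _ ≤ (B * La ^ k * max 1 ‖G.No.L p‖ ^ (a * G.N + k)) ^ 2 := by gcongr
      _ = B ^ 2 * (La ^ 2) ^ k * (max 1 ‖G.No.L p‖ ^ 2) ^ (a * G.N + k) := by ring
      _ ≤ (B ^ 2) ^ k * (La ^ 2) ^ k * Real.exp (G.ph p + C) ^ (a * G.N + k) := by
          gcongr
          exact le_self_pow₀ (one_le_pow₀ B1) k0.ne'
      _ = (B ^ 2) ^ k * (La ^ 2) ^ k * Real.exp C ^ (a * G.N + k) *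
            (Real.exp (G.ph p) ^ a) ^ G.N * Real.exp (G.ph p) ^ k := by
          rw [Real.exp_add]; ring
      _ ≤ (B ^ 2) ^ k * (La ^ 2) ^ k * Real.exp C ^ (k * G.N + k) *
            (Real.exp (G.ph p) ^ a) ^ G.N *
            (G.lam p ^ G.N * ((G.nb + 1) * ‖p (G.r i)‖ ^ 2)) ^ k := by
          gcongr
          exact Real.one_le_exp C0'
      _ = (Real.exp (G.ph p) ^ a * G.lam p ^ k) ^ G.N * W ^ k * (‖p (G.r i)‖ ^ 2) ^ k := by
          rw [hW, add_mul (G.N : ℝ), one_mul, Real.exp_add, Real.exp_nat_mul]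
          simp only [mul_pow]
          ring
      _ ≤ (Real.exp (G.ph p) ^ a * G.lam p ^ k) ^ G.N * (W ^ k) ^ G.N * (‖p (G.r i)‖ ^ 2) ^ k := by
          gcongr
          exact le_self_pow₀ (one_le_pow₀ W1) G.Npos.ne'
      _ = _ := by ring
  have e5 := le_of_pow_le_pow_left₀ G.Npos.ne' (by positivity)
    (le_of_mul_le_mul_right e4 (by positivity))
  have e6 : ‖p φ‖ ^ 2 * Real.exp (-G.wt k a p) ≤ (W * Real.exp (G.Psi p)) ^ k := by
    refine (mul_le_mul_of_nonneg_right e5 (Real.exp_pos _).le).trans (le_of_eq ?_)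
    rw [← Real.exp_log l0, mul_pow W, ← Real.exp_nat_mul, ← Real.exp_nat_mul, ← Real.exp_nat_mul,
      mul_comm _ (W ^ k), mul_assoc, ← Real.exp_add, ← Real.exp_add, wt, Psi]
    congr 2
    ring
  have t0 : 0 < W * Real.exp (G.Psi p) := by positivity
  have c1' := Real.one_le_exp C0'
  have t1 : 1 ≤ W * Real.exp (G.Psi p) * Real.exp C := by
    rw [mul_assoc, ← Real.exp_add]
    exact one_le_mul_of_one_le_of_one_le W1 (Real.one_le_exp (by nlinarith))
  have e7 : 1 + ‖p φ‖ ^ 2 * Real.exp (-G.wt k a p) ≤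
      (2 * W * Real.exp C * Real.exp (G.Psi p)) ^ k :=
    calc _ ≤ (W * Real.exp (G.Psi p) * Real.exp C) ^ k + (W * Real.exp (G.Psi p) * Real.exp C) ^ k :=
          add_le_add (one_le_pow₀ t1)
            (e6.trans (pow_le_pow_left₀ t0.le (le_mul_of_one_le_right t0.le c1') k))
      _ = 2 * (W * Real.exp (G.Psi p) * Real.exp C) ^ k := by ring
      _ ≤ 2 ^ k * (W * Real.exp (G.Psi p) * Real.exp C) ^ k := by
          gcongr
          exact le_self_pow₀ one_le_two k0.ne'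
      _ = _ := by ring
  have e8 := Real.log_le_log (by positivity) e7
  rw [Real.log_pow, Real.log_mul W2.ne' (Real.exp_pos _).ne', Real.log_exp] at e8
  have e9 := Real.log_le_sub_one_of_pos W2
  rw [X0.lg, div_le_iff₀ (by linarith)]
  refine e8.trans ?_
  rw [mul_comm]
  exact mul_le_mul_of_nonneg_right (by linarith) (by linarith)

end Dat.Geo

end Pool.Agent.Lib.MP_5c318e_ag
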