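import Pool.Agent.Lib.MP_5c318e_ag.Sx.SDefs
import Pool.Agent.Lib.MP_5c318e_ag.S.SatK
import Pool.Agent.Lib.MP_5c318e_ag.Np.Inf
import Pool.Agent.Lib.MP_5c318e_ag.Np.Nrm

/-! The spaces of forms with bounded poles, and their saturation on almost every fibre. -/

set_option autoImplicit false
set_option linter.unusedSectionVars false

namespace Pool.Agent.Lib.MP_5c318e_ag

open MeasureTheory Set Filter Topology

namespace Cnd

variable {K M ν I : Type} [Field K] [Field M] [Algebra K M] [Fintype ν] [DecidableEq ν]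
  {dx : ν → Derivation K M M} (c : Cnd dx I) {k k' a a' j j' : ℕ} {φ ψ : M}

/-- the normalising factor -/
noncomputable def nf (k a j : ℕ) (i : I) : M := c.w i ^ j / (c.J i ^ k * c.l i ^ a)

theorem sp_iff : c.Sp k a j φ ↔ ∀ i, φ * c.nf k a j i ∈ c.O i := by
  simp only [Sp, nf, mul_div_assoc]

/-- the forms with bounded poles as a vector space -/
def sub (k a j : ℕ) : Submodule K M where
  carrier := {φ | c.Sp k a j φ}
  add_mem' := fun ha hb i => by rw [add_mul, add_div]; exact add_mem (ha i) (hb i)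
  zero_mem' := fun i => by simp
  smul_mem' := fun x φ h i => by
    rw [Algebra.smul_def, mul_assoc, mul_div_assoc]; exact mul_mem ((c.div i).const x) (h i)

theorem mem_sub : φ ∈ c.sub k a j ↔ c.Sp k a j φ := Iff.rfl

theorem sp_one : c.Sp 0 0 0 1 := fun i => by simp

theorem sp_of_div (h : ∀ i, φ / c.l i ∈ c.O i) : c.Sp 0 1 0 φ := fun i => by simpa using h i

theorem of_regI {i : I} (h : RegI dx k φ (c.O i)) : φ / c.J i ^ k ∈ c.O i := by
  obtain ⟨f, hf, u, hu, rfl⟩ := h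
  rw [mul_div_assoc, ← div_pow]
  exact mul_mem hu (pow_mem (c.adp i f hf) k)

theorem sp_of_plu (h : Plu dx k φ) : c.Sp k 0 0 φ := fun i => by
  simpa using c.of_regI (h _ (c.div i))

variable {c}

theorem Sp.mul (h : c.Sp k a j φ) (h' : c.Sp k' a' j' ψ) :
    c.Sp (k + k') (a + a') (j + j') (φ * ψ) := fun i => by
  convert mul_mem (h i) (h' i) using 1
  rw [div_mul_div_comm]
  ring

theorem Sp.mono (h : c.Sp k a j φ) (ha : a ≤ a') (hj : j ≤ j') : c.Sp k a' j' φ := fun i => by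
  obtain ⟨s, rfl⟩ := Nat.exists_eq_add_of_le ha
  obtain ⟨t, rfl⟩ := Nat.exists_eq_add_of_le hj
  convert mul_mem (h i) (mul_mem (pow_mem (c.wO i) t) (pow_mem (c.lO i) s)) using 1
  ring

theorem Sp.pow (h : c.Sp k a j φ) (n : ℕ) : c.Sp (k * n) (a * n) (j * n) (φ ^ n) := by
  induction n with
  | zero => simpa using c.sp_one
  | succ n ih => simpa only [Nat.mul_succ, pow_succ] using ih.mul h

theorem sp_of_span {ι : Type} {s : ι → M} (hs : ∀ i, c.Sp k a j (s i))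
    (h : φ ∈ Submodule.span K (range s)) : c.Sp k a j φ :=
  (Submodule.span_le (p := c.sub k a j)).2 (range_subset_iff.2 hs) h

theorem real_id {n a j j1 d : ℕ} (h : d + n * j = (n + 1) * j1) {w J l S : ℝ} (hw : 0 < w)
    (hJ : 0 < J) (hl : 0 < l) (hS : 0 ≤ S) (o : ℝ) :
    w ^ j1 / (J ^ n * l ^ a) * (S ^ (n / (n + 1) : ℝ) * o) = (w ^ d) ^ (1 / (n + 1) : ℝ) *
      (S * (w ^ j / (J ^ (n + 1) * l ^ a))) ^ (n / (n + 1) : ℝ) *
      (o * l⁻¹ ^ (a / (n + 1) : ℝ)) := by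
  obtain ⟨x, rfl⟩ : ∃ x, Real.exp x = w := ⟨_, Real.exp_log hw⟩
  obtain ⟨y, rfl⟩ : ∃ x, Real.exp x = J := ⟨_, Real.exp_log hJ⟩
  obtain ⟨z, rfl⟩ : ∃ x, Real.exp x = l := ⟨_, Real.exp_log hl⟩
  have h' : (d : ℝ) = (n + 1) * j1 - n * j := eq_sub_of_add_eq (by exact_mod_cast h)
  rw [Real.mul_rpow hS (by positivity)]
  simp only [← Real.exp_nat_mul, ← Real.exp_add, ← Real.exp_sub, ← Real.exp_neg, ← Real.exp_mul]
  have : Real.exp (j1 * x - (n * y + a * z)) = Real.exp (d * x * (1 / (n + 1))) *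
      Real.exp ((j * x - ((n + 1 : ℕ) * y + a * z)) * (n / (n + 1))) *
      Real.exp (-z * (a / (n + 1))) := by
    rw [← Real.exp_add, ← Real.exp_add, h']
    congr 1
    push_cast
    field_simp
    ring
  rw [this]
  ring

end Cnd

theorem Up.elog {F κ : Type} [Field F] [Algebra ℂ F] [Fintype κ] {A : Set F} {f : κ → F} {g : F}
    (f0 : ∃ i, f i ≠ 0) (h : ∀ i, f i / g ∈ A) {c : ℝ} (hc : 0 ≤ c) :
    Up A fun e => ENNReal.ofReal
      (Real.exp (c * Real.log (∑ i, ‖e (f i)‖ ^ 2)) * (‖e g‖ ^ 2)⁻¹ ^ c) := by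
  obtain ⟨i0, f0⟩ := f0
  refine ((Up.sos h).rpow hc).mono ?_
  filter_upwards [eventually_all.2 fun i => gnr.div (f i) g, gnr.ne f0] with e h1 h2
  have p : 0 < ∑ i, ‖e (f i)‖ ^ 2 := Finset.sum_pos' (fun _ _ => by positivity)
    ⟨i0, Finset.mem_univ _, by positivity⟩
  simp only [h1, norm_div, div_pow, ← Finset.sum_div]
  rw [mul_comm c, ← Real.rpow_def_of_pos p, ← Real.mul_rpow p.le (by positivity),
    ENNReal.ofReal_rpow_of_nonneg (by positivity) hc, div_eq_mul_inv]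

theorem Up.elog1 {F κ : Type} [Field F] [Algebra ℂ F] [Fintype κ] {A : Set F} {f : κ → F}
    (f0 : ∃ i, f i ≠ 0) (h : ∀ i, f i ∈ A) {c : ℝ} (hc : 0 ≤ c) :
    Up A fun e => ENNReal.ofReal (Real.exp (c * Real.log (∑ i, ‖e (f i)‖ ^ 2))) :=
  (Up.elog (g := 1) f0 (by simpa using h) hc).mono (gnr.one.mono fun e he => by simp [he])

variable {δ ν K M I : Type} [Fintype δ] [DecidableEq δ] [Fintype ν] [DecidableEq ν]
  [Field K] [Algebra ℂ K] [Field M] [Algebra ℂ M] [Algebra K M] [IsScalarTower ℂ K M]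

/-- saturation for finitely many indexed conditions -/
theorem Fam.sat58 {B : Cht δ K} (T : Fam B ν M) {W : (M → ℂ) → ENNReal} (hW : Measurable W)
    (h0 : Up T.X.O fun e => (W e)⁻¹) [Finite I] {O : I → ValuationSubring M}
    (hO : ∀ i, IsDivisorial K M (O i)) {γ : I → M}
    (hγ : ∀ i, Up (O i) fun e => ENNReal.ofReal (‖e (γ i)‖ ^ 2) / W e)
    {r : Type} [Fintype r] {τ : r → T.X.O}
    (hτ : ∀ φ : T.X.O, (∀ i, RegI T.dx 1 (φ * γ i) (O i)) →
      (φ : M) ∈ Submodule.span K (range fun i => (τ i : M))) :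
    ∀ᵐ b ∂B.D.μ, ∀ f : T.Fib b → ℂ, (T.fib b).Hol f →
      ∫⁻ p, ENNReal.ofReal (‖f p‖ ^ 2) * W p.1.ev ∂(T.fib b).μ < ⊤ →
      ∃ a : r → ℂ, ∀ p, f p = ∑ i, a i * p.1 (τ i) := by
  have hm : ∀ V : ValuationSubring M, ∃ g : M, V ∈ range O → (∃ i, O i = V ∧ γ i = g) ∧
      ∀ i, O i = V → V.valuation (γ i) ≤ V.valuation g := fun V => by
    by_cases hV : V ∈ range O
    · have : Nonempty {i // O i = V} := let ⟨i, hi⟩ := hV; ⟨⟨i, hi⟩⟩
      obtain ⟨i, hi⟩ := exists_top (fun i : {i // O i = V} => γ i) V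
      exact ⟨γ i, fun _ => ⟨⟨i, i.2, rfl⟩, fun j hj => hi ⟨j, hj⟩⟩⟩
    · exact ⟨0, fun h => absurd h hV⟩
  choose g hg using hm
  filter_upwards [T.satG hW h0 (Pr := range O) (forall_mem_range.2 hO) (γ := g)
    (fun V hV => by obtain ⟨⟨i, rfl, e⟩, -⟩ := hg V hV; exact e ▸ hγ i) (τ := τ)
    fun φ hφ => hτ φ fun i => by
      have h1 := (hg _ ⟨i, rfl⟩).2 i rfl
      rcases eq_or_ne (g (O i)) 0 with e | e
      · rw [e, map_zero, le_zero_iff, Valuation.zero_iff] at h1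
        rw [h1, mul_zero]
        exact RegI.zero 1 _
      · convert (hφ _ ⟨i, rfl⟩).mem_mul (div_mem_of_le h1) using 1
        field_simp] with b hb f hf hi
  obtain ⟨a, ha⟩ := hb 1 f one_ne_zero (fun p _ => hf p) hi
  exact ⟨a, fun p => ha p (by simp)⟩

/-- saturation of the spaces `Sp` against the weight `S ^ (-(k - 1) / k) / om` -/
theorem Cnd.satW {B : Cht δ K} (T : Fam B ν M) (c : Cnd T.dx I) [Finite I] {k a j j1 : ℕ}
    (hk : 0 < k) (hj : (k - 1) * j ≤ k * j1) {S om : (M → ℂ) → ℝ} (mS : Measurable S)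
    (mo : Measurable om) (S0 : ∀ e, 0 ≤ S e) (o0 : ∀ e, 0 ≤ om e)
    (uS : Up T.X.O fun e => ENNReal.ofReal (S e)) (uo : Up T.X.O fun e => ENNReal.ofReal (om e))
    (vS : ∀ i, Up (c.O i) fun e => ENNReal.ofReal (S e * ‖e (c.nf k a j i)‖ ^ 2))
    (vo : ∀ i, Up (c.O i) fun e => ENNReal.ofReal (om e * (‖e (c.l i)‖ ^ 2)⁻¹ ^ (a / k : ℝ)))
    {r : Type} [Fintype r] {τ : r → T.X.O}
    (hτ : ∀ φ : T.X.O, c.Sp k a j1 φ → (φ : M) ∈ Submodule.span K (range fun i => (τ i : M))) :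
    ∀ᵐ b ∂B.D.μ, ∀ f : T.Fib b → ℂ, (T.fib b).Hol f →
      ∫⁻ p, ENNReal.ofReal (‖f p‖ ^ 2) * (ENNReal.ofReal (S p.1.ev) ^ (-((k - 1) / k) : ℝ) *
        (ENNReal.ofReal (om p.1.ev))⁻¹) ∂(T.fib b).μ < ⊤ →
      ∃ x : r → ℂ, ∀ p, f p = ∑ i, x i * p.1 (τ i) := by
  obtain ⟨n, rfl⟩ := Nat.exists_eq_add_one_of_ne_zero hk.ne'
  simp only [Nat.cast_add_one, add_sub_cancel_right] at vo ⊢
  obtain ⟨d, hd⟩ := Nat.exists_eq_add_of_le' hj
  have c0 : (0 : ℝ) ≤ n / (n + 1) := by positivity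
  have inv : ∀ e : M → ℂ, (ENNReal.ofReal (S e) ^ (-(n / (n + 1)) : ℝ) *
      (ENNReal.ofReal (om e))⁻¹)⁻¹ =
      ENNReal.ofReal (S e) ^ (n / (n + 1) : ℝ) * ENNReal.ofReal (om e) := fun e => by
    rw [ENNReal.rpow_neg, ENNReal.mul_inv (Or.inl (ENNReal.inv_ne_zero.2
      (ENNReal.rpow_ne_top_of_nonneg c0 ENNReal.ofReal_ne_top)))
      (Or.inr (ENNReal.inv_ne_zero.2 ENNReal.ofReal_ne_top)), inv_inv, inv_inv]
  refine T.sat58 (W := fun e : M → ℂ => ENNReal.ofReal (S e) ^ (-(n / (n + 1)) : ℝ) *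
    (ENNReal.ofReal (om e))⁻¹) (by fun_prop) (by simpa only [inv] using (uS.rpow c0).mul uo) c.div
    (γ := c.nf n a j1) (fun i => ?_) fun φ hφ => hτ φ fun i => ?_
  · refine ((((Up.sq (pow_mem (c.wO i) d)).rpow (c := 1 / (n + 1)) (by positivity)).mul
      ((vS i).rpow c0)).mul (vo i)).mono ?_
    have key : ∀ k j, ∀ᶠ e in gnr M, ‖e (c.nf k a j i)‖ ^ 2 = (‖e (c.w i)‖ ^ 2) ^ j /
        ((‖e (c.J i)‖ ^ 2) ^ k * (‖e (c.l i)‖ ^ 2) ^ a) := fun k j => by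
      filter_upwards [gnr.div (c.w i ^ j) (c.J i ^ k * c.l i ^ a), gnr.mul (c.J i ^ k) (c.l i ^ a),
        gnr.pow (c.w i) j, gnr.pow (c.J i) k, gnr.pow (c.l i) a] with e h1 h2 h3 h4 h5
      rw [Cnd.nf, h1, h2, h3, h4, h5, norm_div, norm_mul, norm_pow, norm_pow, norm_pow]
      ring
    filter_upwards [key n j1, key (n + 1) j, gnr.pow (c.w i) d, gnr.ne (c.w0 i), gnr.ne (c.J0 i),
      gnr.ne (c.l0 i)] with e h1 h2 h3 h4 h5 h6
    have := S0 e
    have := o0 e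
    rw [div_eq_mul_inv, inv, h1, h2, h3, norm_pow, pow_right_comm _ d,
      ENNReal.ofReal_rpow_of_nonneg (by positivity) c0,
      ENNReal.ofReal_rpow_of_nonneg (by positivity) c0,
      ENNReal.ofReal_rpow_of_nonneg (by positivity) (by positivity),
      ← ENNReal.ofReal_mul (by positivity), ← ENNReal.ofReal_mul (by positivity),
      ← ENNReal.ofReal_mul (by positivity), ← ENNReal.ofReal_mul (by positivity),
      Cnd.real_id (n := n) hd.symm (by positivity) (by positivity) (by positivity) (S0 e)]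
  · convert c.of_regI (hφ i) using 1
    rw [Cnd.nf]
    ring

namespace Dat.Geo

variable {d : Dat Unit K ν M} {G : d.Geo} (P : G.Pol)

theorem Pol.sp_τ (i : Fin d.r) : P.c.Sp d.m 0 0 (d.τ i) :=
  P.c.sp_of_plu ((d.span _).2 (Submodule.subset_span ⟨i, rfl⟩))

theorem Pol.sp_z (x : Fin G.na × Fin G.nb) : P.c.Sp 0 1 0 (G.ρ x.1 * G.r x.2 : d.T.X.O) :=
  P.c.sp_of_div fun i => P.cz i _ _

/-- SATURATION, strong form (the weight of X0) -/
theorem Pol.sat {k a j j1 : ℕ} (hk : 0 < k) (hj : (k - 1) * j ≤ k * j1) {ι r : Type} [Fintype ι]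
    [Fintype r] {s : ι → d.T.X.O} (hs : ∀ i, P.c.Sp k a j (s i)) {τ : r → d.T.X.O}
    (hτ : ∀ φ : d.T.X.O, P.c.Sp k a j1 φ → (φ : M) ∈ Submodule.span K (range fun i => (τ i : M))) :
    ∀ᵐ b ∂d.B.D.μ, ∀ f : d.T.Fib b → ℂ, (d.T.fib b).Hol f →
      ∫⁻ p, ENNReal.ofReal (‖f p‖ ^ 2) *
        (ENNReal.ofReal (Real.exp (G.wt k a p.1) + ∑ i, ‖p.1 (s i)‖ ^ 2) ^ (-((k - 1) / k) : ℝ) *
          (ENNReal.ofReal (G.om k a p.1))⁻¹) ∂(d.T.fib b).μ < ⊤ →
      ∃ x : r → ℂ, ∀ p, f p = ∑ i, x i * p.1 (τ i) := by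
  have := G.No.finite_DD
  let z : Fin G.na × Fin G.nb → M := fun x => (G.ρ x.1 * G.r x.2 : d.T.X.O)
  have z0 : ∃ x, z x ≠ 0 := by
    by_contra! h
    obtain ⟨p, -⟩ := Pt.exists_zero (O := d.T.X.O) (I := ⊥) bot_ne_top
    have h1 := G.one p
    rw [Finset.sum_eq_zero fun x _ => by
      rw [show G.ρ x.1 * G.r x.2 = 0 from Subtype.ext (h x)]; simp] at h1
    exact absurd h1 (by norm_num)
  have t0 : ∃ i, (d.τ i : M) ≠ 0 := ⟨⟨0, d.hr⟩, d.ind.ne_zero _⟩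
  have m0 : (0 : ℝ) < d.m := by linarith [d.wt_m]
  have c1 : (0 : ℝ) ≤ a := by positivity
  have c2 : (0 : ℝ) ≤ k / d.m := by positivity
  have c3 : (0 : ℝ) ≤ a / k := by positivity
  have := P.c.satW d.T hk hj (S := fun e : M → ℂ => Real.exp (a * Real.log (∑ x, ‖e (z x)‖ ^ 2) +
      k / d.m * Real.log (∑ i, ‖e (d.τ i)‖ ^ 2)) + ∑ i, ‖e (s i)‖ ^ 2)
    (om := fun e : M → ℂ => Real.exp (a / k * Real.log (∑ x, ‖e (z x)‖ ^ 2))) (by fun_prop)
    (by fun_prop) (fun _ => by positivity) (fun _ => by positivity)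
    ((((Up.elog1 z0 (fun x => Subtype.property _) c1).mul (Up.elog1 t0 (fun i => (d.τ i).2) c2)).add
      (Up.sos fun i => (s i).2)).mono (.of_forall fun e => by
        rw [Real.exp_add, ← ENNReal.ofReal_mul (by positivity)]
        exact ENNReal.ofReal_add_le))
    (Up.elog1 z0 (fun x => Subtype.property _) c3) (fun i => ?_)
    (fun i => Up.elog z0 (fun x => P.cz i _ _) c3) hτ
  · simp only [z, Pt.ev_coe] at this
    exact this
  refine (((((Up.elog z0 (fun x => P.cz i _ _) c1).mul (Up.elog (g := P.c.J i ^ d.m) t0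
    (fun x => by simpa using P.sp_τ x i) c2)).mul (Up.sq (pow_mem (P.c.wO i) j))).add
    (Up.sos fun x => P.c.sp_iff.1 (hs x) i))).mono ?_
  filter_upwards [eventually_all.2 fun x => gnr.mul (s x : M) (P.c.nf k a j i),
    gnr.div (P.c.w i ^ j) (P.c.J i ^ k * P.c.l i ^ a), gnr.mul (P.c.J i ^ k) (P.c.l i ^ a),
    gnr.pow (P.c.J i) k, gnr.pow (P.c.l i) a, gnr.pow (P.c.J i) d.m] with e h1 h2 h3 h4 h5 h6
  rw [← ENNReal.ofReal_mul (by positivity), ← ENNReal.ofReal_mul (by positivity), add_mul]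
  refine ENNReal.ofReal_add_le.trans (le_of_eq ?_)
  congr 2
  · rw [Cnd.nf, h2, h3, h4, h5, h6, Real.exp_add, norm_pow, pow_right_comm _ d.m,
      ← inv_pow _ d.m, ← Real.rpow_natCast _ d.m, ← Real.rpow_mul (by positivity),
      mul_div_cancel₀ _ m0.ne', Real.rpow_natCast, Real.rpow_natCast, norm_div, norm_mul, norm_pow,
      norm_pow]
    ring
  · simp only [h1, norm_mul, mul_pow, Finset.sum_mul]

/-- SATURATION in the shape of the extension step -/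
theorem Pol.sat' {k a j j1 : ℕ} (hk : 0 < k) (hj : (k - 1) * j ≤ k * j1) {ι r : Type} [Fintype ι]
    [Fintype r] {s : ι → d.T.X.O} (hs : ∀ i, P.c.Sp k a j (s i)) {τ : r → d.T.X.O}
    (hτ : ∀ φ : d.T.X.O, P.c.Sp k a j1 φ → (φ : M) ∈ Submodule.span K (range fun i => (τ i : M))) :
    ∀ᵐ b ∂d.B.D.μ, ∀ f : d.T.Fib b → ℂ, (d.T.fib b).Hol f →
      ∫⁻ p, ENNReal.ofReal (‖f p‖ ^ 2) *
        (ENNReal.ofReal (∑ i, ‖p.1 (s i)‖ ^ 2) ^ (-(1 - 1 / k) : ℝ) *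
          (ENNReal.ofReal (G.om k a p.1))⁻¹) ∂(d.T.fib b).μ < ⊤ →
      ∃ x : r → ℂ, ∀ p, f p = ∑ i, x i * p.1 (τ i) := by
  have k1 : (1 : ℝ) ≤ k := by exact_mod_cast hk
  rw [show (1 - 1 / k : ℝ) = (k - 1) / k by field_simp]
  refine (P.sat hk hj hs hτ).mono fun b hb f hf hi => hb f hf (lt_of_le_of_lt (lintegral_mono
    fun p => mul_le_mul_right (mul_le_mul_left ?_ _) _) hi)
  rw [ENNReal.rpow_neg, ENNReal.rpow_neg]
  exact ENNReal.inv_le_inv.2 (ENNReal.rpow_le_rpow (ENNReal.ofReal_le_ofReal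
    (le_add_of_nonneg_left (Real.exp_pos _).le)) (div_nonneg (by linarith) (by linarith)))

end Dat.Geo

end Pool.Agent.Lib.MP_5c318e_ag
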