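import Pool.Agent.Lib.MP_5c318e_ag.Sx.Pt
import Pool.Agent.Lib.MP_5c318e_ag.Sx.Sat
import Pool.Agent.Lib.MP_5c318e_ag.Sx.DegG
import Pool.Agent.Lib.MP_5c318e_ag.Sx.Fd

/-! The extremal form on almost every fibre. -/

set_option autoImplicit false
set_option linter.unusedSectionVars false

namespace Pool.Agent.Lib.MP_5c318e_ag

open MeasureTheory Set Filter Topology
open scoped ENNReal

variable {ν K M : Type} [Fintype ν] [DecidableEq ν] [Field K] [Algebra ℂ K] [Field M] [Algebra ℂ M]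
  [Algebra K M] [IsScalarTower ℂ K M] {d : Dat Unit K ν M}

namespace Dat.Geo

variable {G : d.Geo} (P : G.Pol)

/-- the majorant with a constant that depends on the form -/
theorem Pol.crude {k a : ℕ} {φ : d.T.X.O} (h : P.c.Sp k a k φ) {Q : Set (Pt d.B.O)}
    (hQ : IsCompact Q) : ∃ C : ℝ, ∀ p : Pt d.T.X.O, p.res d.T.inc ∈ Q →
      ‖p φ‖ ^ 2 * Real.exp (-G.wt k a p) ≤ Real.exp (k * G.Psi p + C) := by
  choose A A0 hA using fun j => (P.deg_g h j).1.grow hQ fun b _ => (G.hu.map b).ne_zero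
  obtain ⟨C, -, hC⟩ := G.log_L_le
  refine ⟨(2 * Real.log (1 + ∑ j, A j) + (a * G.N + k) * (2 * C) + k * Real.log G.nb) / G.N,
    fun p hp => ?_⟩
  rcases eq_or_ne (p φ) 0 with h0 | h0
  · rw [h0, norm_zero, zero_pow two_ne_zero, zero_mul]; positivity
  have l0 := G.lam_pos p
  have e := G.exp_ph' p
  have : Nonempty (Fin G.nb) := by
    by_contra hn
    rw [not_nonempty_iff] at hn
    rw [Fintype.sum_empty, mul_zero] at e
    exact (Real.exp_pos _).ne' e
  obtain ⟨j, hj⟩ := Finite.exists_max fun j => ‖p (G.r j)‖ ^ 2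
  have r0 : 0 < ‖p (G.r j)‖ := norm_pos_iff.2 ((G.ru j).map p).ne_zero
  have n0 : (0 : ℝ) < G.nb := by exact_mod_cast j.pos
  have N0 : (0 : ℝ) < G.N := by exact_mod_cast G.Npos
  have f0 := norm_pos_iff.2 h0
  have s0 : 0 ≤ ∑ j, A j := Finset.sum_nonneg fun j _ => A0 j
  have h1 : G.ph p ≤ G.N * Real.log (G.lam p) + (Real.log G.nb + 2 * Real.log ‖p (G.r j)‖) := by
    have : ∑ i, ‖p (G.r i)‖ ^ 2 ≤ G.nb * ‖p (G.r j)‖ ^ 2 := by
      simpa using Finset.sum_le_card_nsmul Finset.univ _ _ fun i _ => hj i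
    have := Real.log_le_log (Real.exp_pos _) (e.trans_le (mul_le_mul_of_nonneg_left this
      (by positivity)))
    rwa [Real.log_exp, Real.log_mul (by positivity) (by positivity),
      Real.log_mul (by positivity) (by positivity), Real.log_pow, Real.log_pow] at this
  have h2 : G.N * Real.log ‖p φ‖ + k * Real.log ‖p (G.r j)‖ ≤
      Real.log (1 + ∑ j, A j) + (a * G.N + k) * Real.log (1 + ‖G.No.L p‖) := by
    have a1 := (hA j p hp).trans (mul_le_mul_of_nonneg_right (show A j ≤ 1 + ∑ j, A j by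
      linarith [Finset.single_le_sum (fun j _ => A0 j) (Finset.mem_univ j)]) (by positivity))
    rw [map_mul, map_pow, map_pow, norm_mul, norm_pow, norm_pow] at a1
    have := Real.log_le_log (by positivity) a1
    rw [Real.log_mul (by positivity) (by positivity), Real.log_mul (by positivity) (by positivity),
      Real.log_pow, Real.log_pow, Real.log_pow] at this
    exact_mod_cast this
  have h3 := mul_le_mul_of_nonneg_left (hC p) (show (0 : ℝ) ≤ a * G.N + k by positivity)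
  have h4 := mul_le_mul_of_nonneg_left h1 k.cast_nonneg
  rw [← Real.exp_log f0, ← Real.exp_nat_mul, ← Real.exp_add, Real.exp_le_exp, wt, Psi,
    ← sub_le_iff_le_add', le_div_iff₀ N0]
  push_cast
  have : (k : ℝ) / d.m * Real.log (d.Bs p) = k * (Real.log (d.Bs p) / d.m) := by ring
  rw [this]
  nlinarith

theorem Pol.II_ne {k a : ℕ} {φ : d.T.X.O} (h : P.c.Sp k a k φ) (hk : 1 ≤ k) {γ : ℝ} (γ0 : 0 ≤ γ)
    (γ1 : γ < 1) (b : Pt d.B.O) :
    X0.II (d.T.fib b) (fun p => d.chi p.1) (fun p => G.wt k a p.1) k γ (fun p => p.1 φ) ≠ ⊤ := by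
  obtain ⟨C, hC⟩ := P.crude h (isCompact_singleton (x := b))
  have k1 : (1 : ℝ) ≤ k := by exact_mod_cast hk
  refine ne_top_of_le_ne_top (ENNReal.add_ne_top.2
    ⟨(G.x0dat b (k := 2) 0 one_pos le_rfl one_pos (by norm_num)).fin, G.tail_ms b γ1 (C / k)⟩) ?_
  rw [← lintegral_one, ← lintegral_add_left measurable_const]
  refine lintegral_mono fun p => ?_
  rw [← ENNReal.ofReal_one, ← ENNReal.ofReal_add zero_le_one (by positivity), X0.exp_mul_lg]
  refine ENNReal.ofReal_le_ofReal ((Real.rpow_add_le_add_rpow zero_le_one (by positivity)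
    (by positivity) ((div_le_one (by positivity)).2 (by linarith))).trans ?_)
  rw [Real.one_rpow, add_le_add_iff_left]
  refine (Real.rpow_le_rpow (by positivity) (hC p.1 p.2) (by positivity)).trans_eq ?_
  rw [← Real.exp_mul]
  congr 1
  field_simp

theorem Pol.x0 {G : d.Geo} (P : G.Pol) {k a : ℕ} {γ be : ℝ} (γ0 : 0 < γ) (γ1 : γ < 1) (b0 : 0 < be)
    (hk : 1 + be ≤ k) {φ : d.T.X.O} (h : P.c.Sp k a k φ) (h' : ¬ P.c.Sp k a (k - 1) φ) :
    ∀ᵐ b ∂d.B.D.μ, ∃ U : d.T.X.O, P.c.Sp k a k U ∧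
      X0.Tail (d.T.fib b) (fun p => d.chi p.1) (fun p => G.wt k a p.1) k γ 0 be
        fun p => p.1 U := by
  have k1 : 1 ≤ k := by exact_mod_cast (show (1 : ℝ) ≤ k by linarith)
  obtain ⟨r, σ, h1, h2, h3⟩ := P.exists_basis k a (k - 1)
  let s : Option (Fin r) → d.T.X.O := fun o => o.elim φ σ
  have hs : ∀ i, P.c.Sp k a k (s i) := fun i => by
    cases i
    exacts [h, P.sp_mono (Nat.sub_le k 1) (h1 _)]
  have li : LinearIndependent K fun i => (s i : M) :=
    linearIndependent_option.2 ⟨h2, fun e => h' (P.sp_of_span h1 e)⟩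
  have sat := P.sat k1 (mul_comm _ _).le hs h3
  filter_upwards [sat, d.B.D.ae_of_gen (d.T.toRel.indep d.ac li)] with b hb hi
  obtain ⟨C, -⟩ := d.T.cov b (d.cov b)
  have := Low.fib_nonempty d.T (d.cov b)
  obtain ⟨c, -, hT⟩ := X0.two (D := d.T.fib b) ⟨_, C.exh⟩ (u := fun p => G.ph p.1)
    (v := fun p => Real.log (d.Bs p.1)) (chi := fun p => d.chi p.1)
    (ph := fun p => G.wt k a p.1)
    (X0.psh_sos (fun x => d.T.fib_hol b _) fun p => one_pos.trans_le (G.one p.1))
    (X0.psh_sos (fun x => d.T.fib_hol b _) fun p => G.Bs_pos' p.1) a.cast_nonneg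
    (m := d.m) (by linarith [d.wt_m]) γ0 γ1.le b0 hk (fun p => by rw [chi, div_eq_inv_mul])
    (fun p => rfl) (G.x0dat b (k := 2) 0 one_pos le_rfl one_pos (by norm_num)).fin
    (s := fun i p => p.1 (s i)) (fun i => d.T.fib_hol b _) (fun c hc => by
      have := hi univ isOpen_univ univ_nonempty (fun o => o.elim (-1) c) fun p _ => by
        rw [Fintype.sum_option, hc p]; simp
      simpa using congrFun this none)
    (P.II_ne h k1 γ0.le γ1 b) fun f hf hI => hb f hf (by
      simpa only [om, mul_div_right_comm] using hI)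
  refine ⟨∑ i, c i • s i, P.sp_comb hs c, ?_⟩
  simpa only [map_sum, map_smul, smul_eq_mul] using hT

end Dat.Geo

end Pool.Agent.Lib.MP_5c318e_ag
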