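import Pool.Agent.Lib.MP_5c318e_ag.Sx.Bas
import Pool.Agent.Lib.MP_5c318e_ag.Sx.Alg
import Pool.Agent.Lib.MP_5c318e_ag.Sx.Gen
import Pool.Agent.Lib.MP_5c318e_ag.Sx.TLoc
import Pool.Agent.Lib.MP_5c318e_ag.Sx.Glob
import Pool.Agent.Lib.MP_5c318e_ag.Sx.Unif
import Pool.Agent.Lib.MP_5c318e_ag.Sx.FiLe
import Pool.Agent.Lib.MP_5c318e_ag.Sx.X0b
import Pool.Agent.Lib.MP_5c318e_ag.Sx.Pt
import Pool.Agent.Lib.MP_5c318e_ag.Sx.Mov
import Pool.Agent.Lib.MP_5c318e_ag.Xt.XDefs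

/-! Good starts for the extension step on a set of fibres of fixed measure. -/

set_option autoImplicit false
set_option linter.unusedSectionVars false

namespace Pool.Agent.Lib.MP_5c318e_ag

open MeasureTheory Set Filter Topology
open scoped ENNReal

variable {ν K M : Type} [Fintype ν] [DecidableEq ν] [Field K] [Algebra ℂ K] [Field M] [Algebra ℂ M]
  [Algebra K M] [IsScalarTower ℂ K M] {d : Dat Unit K ν M}

namespace Dat.Geo

variable (G : d.Geo)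

/-- the level of the moved point after multiplication by a power of the first form -/
noncomputable def LL (J0 : ℕ) (θ : ℝ) (x : Pt d.T.X.O) : ℝ :=
  J0 / (J0 + 1) * (Real.log (G.lam x) - θ * G.ph x) + Real.log (‖x d.τ0‖ ^ 2) / (d.m * (J0 + 1))

include G in
theorem hz_tau (x : Pt d.T.X.O) : x d.τ0 ≠ 0 := (G.τu.map x).ne_zero

theorem cont_LL (J0 : ℕ) (θ : ℝ) : Continuous (G.LL J0 θ) :=
  (continuous_const.mul ((G.cont_lam.log fun x => (G.lam_pos x).ne').sub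
    (continuous_const.mul G.cont_ph))).add ((((Pt.continuous_apply _).norm.pow 2).log
      fun x => pow_ne_zero 2 (norm_ne_zero_iff.2 (G.hz_tau x))).div_const _)

theorem hz_lev {J0 j : ℕ} (hj : 0 < j) (θ : ℝ) (U : d.T.X.O) (x : Pt d.T.X.O)
    (h : Real.exp ((d.m * J0 * j : ℕ) * (Real.log (G.lam x) - θ * G.ph x)) < ‖x U‖ ^ 2) :
    Real.exp (G.LL J0 θ x) <
      ‖x (U * d.τ0 ^ j)‖ ^ (2 * (1 - (1 - 1 / (d.m * (J0 + 1) * j : ℕ) : ℝ))) := by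
  have hm : (0 : ℝ) < d.m := Nat.cast_pos.2 ((by omega : 0 < 3).trans_le d.hm)
  have hj' : (0 : ℝ) < j := Nat.cast_pos.2 hj
  have h1 : 0 < ‖x U‖ ^ 2 := (Real.exp_pos _).trans h
  have h2 : 0 < ‖x U‖ := norm_pos_iff.2 fun e => by simp [e] at h1
  have h3 : 0 < ‖x d.τ0‖ := norm_pos_iff.2 (G.hz_tau x)
  rw [← Real.exp_log h1, Real.exp_lt_exp, Real.log_pow] at h
  rw [map_mul, map_pow, norm_mul, norm_pow, Real.rpow_def_of_pos (by positivity), Real.exp_lt_exp,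
    Real.log_mul h2.ne' (by positivity), Real.log_pow, LL, Real.log_pow, sub_sub_cancel]
  push_cast at h ⊢
  have h4 : (0 : ℝ) < d.m * (J0 + 1) * j := by positivity
  have h5 := div_lt_div_of_pos_right h h4
  calc _ = d.m * J0 * j * (Real.log (G.lam x) - θ * G.ph x) / (d.m * (J0 + 1) * j) +
        2 * Real.log ‖x d.τ0‖ / (d.m * (J0 + 1)) := by field_simp
    _ < _ := add_lt_add_left h5 _
    _ = _ := by field_simp

theorem hz_union {S : Type} [MeasurableSpace S] (μ : Measure S) (Z : Set S) (f : S → ℝ) {c : ℝ≥0∞}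
    (h : c < μ Z) : ∃ n : ℕ, c < μ {b ∈ Z | f b ≤ n} := by
  have e : Z = ⋃ n : ℕ, {b ∈ Z | f b ≤ n} := Subset.antisymm
    (fun b hb => mem_iUnion.2 ⟨⌈f b⌉₊, hb, Nat.le_ceil _⟩) (iUnion_subset fun _ _ hb => hb.1)
  have hm : Monotone fun n : ℕ => {b ∈ Z | f b ≤ n} := fun n m hnm b hb =>
    ⟨hb.1, hb.2.trans (Nat.cast_le.2 hnm)⟩
  rw [e, hm.measure_iUnion] at h
  exact lt_iSup_iff.1 h

theorem Pol.QQ_mono {G : d.Geo} (P : G.Pol) (κ : ℝ) {l l' : ℝ} (h : l ≤ l') (p : Pt d.T.X.O) :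
    P.QQ κ l p ≤ P.QQ κ l' p :=
  indicator_le_indicator_of_subset (fun _ hx => lt_of_lt_of_le hx h) (fun _ => zero_le) p

/-- good starts on a set of fibres of fixed measure -/
theorem Pol.hZ {G : d.Geo} (P : G.Pol) : ∃ κ : ℝ, 0 < κ ∧ ∀ θ : ℝ, 0 < θ → ∃ J1 : ℕ, ∀ J0 : ℕ,
    J1 ≤ J0 → 0 < J0 → ∃ (Q : Set (Pt d.B.O)) (c : ℝ≥0∞) (C0 : ℝ), IsCompact Q ∧ 0 < c ∧ 1 ≤ C0 ∧
    ∀ M0 : ℝ, ∃ l1 : ℝ, ∀ j a : ℕ, 0 < j → a ≤ j → ∀ φ : d.T.X.O,
      P.c.Sp (d.m * J0 * j) a (d.m * J0 * j) φ → ¬ P.c.Sp (d.m * J0 * j) a (d.m * J0 * j - 1) φ →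
      ∀ (n : ℕ) (s : Fin n → d.T.X.O),
      (∀ ψ : d.T.X.O, P.c.Sp (d.m * (J0 + 1) * j) a (d.m * (J0 + 1) * j) ψ →
        (ψ : M) ∈ Submodule.span K (range fun i => (s i : M))) →
      ∀ D : Xt.Data d.T.toRel (Fin n), D.t = 1 - 1 / (d.m * (J0 + 1) * j : ℕ) →
        D.om = G.om (d.m * (J0 + 1) * j) a → (D.s = fun i p => p (s i)) → D.φB = d.B.siz →
        ∃ Z : Set (Pt d.B.O), Z ⊆ Q ∧ c < d.B.D.μ Z ∧ ∀ b ∈ Z, ∃ U, D.Ok C0 b U ∧
          ENNReal.ofReal M0 < ∫⁻ x in {x : d.T.Fib b | Real.exp (G.LL J0 θ x.1) <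
            ‖U x.1‖ ^ (2 * (1 - D.t))}, P.QQ κ l1 x.1 ∂(d.T.fib b).μ := by
  obtain ⟨κ, κ0, hM⟩ := P.move
  refine ⟨κ, κ0, fun θ θ0 => ?_⟩
  obtain ⟨be, k0, b0, b1, g, g0, hM⟩ := hM θ θ0
  refine ⟨k0 + 2, fun J0 h1 h0 => ?_⟩
  have γ0 : (0 : ℝ) < J0 / (J0 + 1) := by positivity
  have γ1 : (J0 : ℝ) / (J0 + 1) < 1 := (div_lt_one (by positivity)).2 (lt_add_one _)
  obtain ⟨c0, -, hc0⟩ := Pt.exists_zero_ne (I := ⊥) (h := g) fun ⟨n, h⟩ => pow_ne_zero n g0 h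
  have := d.B.D.wlc
  obtain ⟨Q, q1, q2, hQ⟩ := local_compact_nhds
    ((Pt.continuous_apply g).continuousAt.eventually_ne hc0)
  obtain ⟨Cm, m0, hm⟩ := G.mass_le hQ
  obtain ⟨Ct, t0, ht⟩ := G.tail_loc hQ γ1
  choose C1 c1 hU using fun b => P.unif h0 b (2 * Cm)
  have hp : 0 < d.B.D.μ (interior Q) := isOpen_interior.measure_pos _ ⟨c0, mem_interior_iff_mem_nhds.2 q1⟩
  obtain ⟨n1, hn1⟩ := hz_union _ _ C1 hp
  obtain ⟨c, c2, c3⟩ := exists_between hn1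
  refine ⟨Q, c, Real.exp n1 * (Ct + 1), hQ, c2,
    one_le_mul_of_one_le_of_one_le (Real.one_le_exp (Nat.cast_nonneg _)) (by linarith),
    fun M0 => ?_⟩
  choose lp hp using fun b => G.point γ0 γ1 b0 b (C1 b)
  choose! l2 h2 using fun b hb => hM b hb (C1 b) M0 (c1 b)
  choose! l1 h3 using fun b hb => h2 b hb (max (l2 b) (lp b)) (le_max_left _ _)
  obtain ⟨n2, hn2⟩ := hz_union _ _ l1 c3
  refine ⟨n2, fun j a j0 aj φ hφ hn n s hs D d1 d2 d3 d4 => ?_⟩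
  have hm3 := d.hm
  have k1 : J0 ≤ d.m * J0 * j :=
    (Nat.le_mul_of_pos_left J0 (by omega)).trans (Nat.le_mul_of_pos_right _ j0)
  have k2 : j ≤ d.m * J0 * j := Nat.le_mul_of_pos_left j (Nat.mul_pos (by omega) h0)
  have k3 : d.m * J0 * j + d.m * j = d.m * (J0 + 1) * j := by ring
  have k4 : 0 < d.m * j := Nat.mul_pos (by omega) j0
  have k5 : 1 + be ≤ (d.m * J0 * j : ℕ) := by
    have : ((2 : ℕ) : ℝ) ≤ (d.m * J0 * j : ℕ) := Nat.cast_le.2 (by omega)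
    push_cast at this ⊢
    linarith
  have hx := P.x0 γ0 γ1 b0 k5 hφ hn
  refine ⟨_ ∩ _, fun b hb => interior_subset hb.1.1.1, hn2.trans_le
    (measure_mono_ae (hx.mono fun b hb hz => ⟨hz, hb⟩)), fun b hb => ?_⟩
  obtain ⟨⟨⟨z1, z2⟩, z3⟩, U, u1, u2⟩ := hb
  have u3 := hU b j a j0 aj U u1 (u2.1.trans (by
    rw [ENNReal.ofReal_mul zero_le_two, ENNReal.ofReal_ofNat]
    gcongr
    exact hm b (interior_subset z1)))
  have u4 := u3.self_of_nhds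
  have u5 := h3 b (q2 (interior_subset z1)) _ a (by omega) (aj.trans k2) U u1
    (fun p => (u4 p).1) (fun p => (u4 p).2)
    (hp b _ _ _ u2 (fun p => (u4 p).2) _ (le_max_right _ _))
  have u6 := P.sp_tau u1 j
  rw [k3] at u6
  refine ⟨fun x => x (U * d.τ0 ^ j), ⟨d.T.X.hol _, ?_, ?_, ?_⟩, u5.trans_le ?_⟩
  · filter_upwards [u3, isOpen_interior.mem_nhds z1] with b' e1 e2
    rw [d1, d2]
    calc _ ≤ ∫⁻ p, ENNReal.ofReal (Real.exp n1) * ENNReal.ofReal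
          (Real.exp (J0 / (J0 + 1) * G.Psi p.1) * d.rho p.1) ∂(d.T.fib b').μ :=
          lintegral_mono fun p => (G.fI_le h0 j0 a U p.1).trans (by
            rw [← ENNReal.ofReal_mul (Real.exp_pos _).le, ← mul_assoc, ← Real.exp_add]
            refine ENNReal.ofReal_le_ofReal (mul_le_mul_of_nonneg_right (Real.exp_le_exp.2 ?_)
              ((Real.exp_pos _).le.trans_eq (G.exp_chi p.1)))
            nlinarith [mul_le_mul_of_nonneg_left (e1 p).2 γ0.le, c1 b])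
      _ ≤ ENNReal.ofReal (Real.exp n1) * ENNReal.ofReal (Ct + 1) := by
          rw [lintegral_const_mul' _ _ ENNReal.ofReal_ne_top]
          gcongr
          exact (ht b' (interior_subset e2)).trans (ENNReal.ofReal_le_ofReal (by linarith))
      _ = _ := (ENNReal.ofReal_mul (Real.exp_pos _).le).symm
  · rw [d1, d2, d4]
    exact P.glob (by omega) (P.sp_mono (by omega) u6)
  · rw [d3]
    exact gen_span (hs _ (P.sp_mono (by omega) u6))
  · rw [d1]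
    refine le_trans (lintegral_mono_set ?_) (lintegral_mono fun p => P.QQ_mono κ z3 p.1)
    intro p hp
    exact G.hz_lev j0 θ U p.1 hp

end Dat.Geo

end Pool.Agent.Lib.MP_5c318e_ag
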