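import Pool.Agent.Lib.MP_5c318e_ag.Sx.HZ
import Pool.Agent.Lib.MP_5c318e_ag.Sx.End
import Pool.Agent.Lib.MP_5c318e_ag.Sx.Adm
import Pool.Agent.Lib.MP_5c318e_ag.Sx.Dat
import Pool.Agent.Lib.MP_5c318e_ag.Sx.Fd
import Pool.Agent.Lib.MP_5c318e_ag.Xt.Main

/-! The logarithmic pole along the polar primes is not attained. -/

set_option autoImplicit false
set_option linter.unusedSectionVars false

namespace Pool.Agent.Lib.MP_5c318e_ag

open MeasureTheory Set Filter Topology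
open scoped ENNReal

variable {ν K M : Type} [Fintype ν] [DecidableEq ν] [Field K] [Algebra ℂ K] [Field M] [Algebra ℂ M]
  [Algebra K M] [IsScalarTower ℂ K M] {d : Dat Unit K ν M}

namespace Dat.Geo

/-- for a small twist the logarithmic pole along the polar primes is never attained -/
theorem Pol.exc {G : d.Geo} (P : G.Pol) (hC : d.Const) : P.Exc := by
  obtain ⟨κ, κ0, hZ⟩ := P.hZ
  obtain ⟨θ, J2, θ0, hE⟩ := P.endgame hC κ0
  obtain ⟨J1, hZ⟩ := hZ θ θ0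
  obtain ⟨A0, a0, hD⟩ := P.exists_data
  obtain ⟨J0, h1, h2, h0⟩ : ∃ J0 : ℕ, J1 ≤ J0 ∧ J2 ≤ J0 ∧ 0 < J0 :=
    ⟨J1 + J2 + 1, by omega, by omega, by omega⟩
  obtain ⟨Q, c, C0, hQ, c0, C1, hZ⟩ := hZ J0 h1 h0
  obtain ⟨M0, hE⟩ := hE J0 h2 θ θ0.le le_rfl Q hQ A0 (A0 + Real.log C0 + 3 - 0) a0 c c0.ne'
  obtain ⟨l1, hZ⟩ := hZ M0
  obtain ⟨ε, η, ε0, η0, hE⟩ := hE l1
  refine ⟨J0, ⌈(1 + P.cd) / ε⌉₊ + 1, h0, fun j a hja φ hφ => by_contra fun hn => ?_⟩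
  have j0 : 0 < j := (Nat.zero_le _).trans_lt hja
  have aj : a ≤ j := (Nat.le_mul_of_pos_left a (Nat.succ_pos _)).trans hja.le
  have jk : 2 * j ≤ d.m * (J0 + 1) * j :=
    Nat.mul_le_mul_right j ((by omega : 2 ≤ J0 + 1).trans 
      (Nat.le_mul_of_pos_left _ ((by omega : 0 < 3).trans_le d.hm)))
  set k1 := d.m * (J0 + 1) * j with hk1
  have k0 : 0 < k1 := by omega
  have k0' : (0 : ℝ) < k1 := by exact_mod_cast k0
  obtain ⟨n, s, s1, s2, s3⟩ := P.exists_basis k1 a k1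
  obtain ⟨D, d1, d2, d3, d4, d5, d6⟩ := hD k1 a (by omega) (by omega) n s s1 s3
  obtain ⟨Z, z1, z2, z3⟩ := hZ j a j0 aj φ hφ hn n s s3 D d1 d2 d3 d5
  obtain ⟨w, w1, -, w3, w4, O, o1, o2, o3⟩ :=
    D.main C1 (G.psh_wt k1 a) (G.cont_LL J0 θ) (P.lsc_QQ κ l1) z3 z2 η0
  have he : (1 + P.cd : ℝ) * a / k1 ≤ ε := by
    have e1 : (1 + P.cd : ℝ) / ε ≤ ⌈(1 + P.cd : ℝ) / ε⌉₊ := Nat.le_ceil _
    have e2 : ((⌈(1 + P.cd : ℝ) / ε⌉₊ : ℝ) + 1) * a ≤ k1 := by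
      exact_mod_cast hja.le.trans (by omega)
    have a0 : (0 : ℝ) ≤ a := Nat.cast_nonneg a
    rw [div_le_iff₀ ε0] at e1
    rw [div_le_iff₀ k0']
    nlinarith [mul_le_mul_of_nonneg_right e1 a0, mul_le_mul_of_nonneg_left e2 ε0.le,
      mul_nonneg ε0.le a0]
  have ha : (a : ℝ) / k1 ≤ (1 + P.cd) * a / k1 :=
    div_le_div_of_nonneg_right (le_mul_of_one_le_left (Nat.cast_nonneg a)
      (le_add_of_nonneg_right (Nat.cast_nonneg _))) k0'.le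
  simp only [d1, d3, d4, d6] at w3 w4
  exact hE w _ w1 (by positivity) he (P.loc k0 s1 s2 w4 0) (G.uu_le k0 ha C1 a0 η0.le w3 0)
    _ (G.cont_LL J0 θ) (fun _ => le_rfl) (Q ∩ O)
    (hQ.isClosed.measurableSet.inter o1.measurableSet) inter_subset_left
    (o2.le.trans (measure_mono (inter_subset_inter_left _ z1))) fun b hb => o3 b hb.2

end Dat.Geo

end Pool.Agent.Lib.MP_5c318e_ag
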